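import Pool.Agent.Lib.MP_4d2d01_an.Recur

/-! Construction of the tower of Cantor sets and balanced measures. -/

open Polynomial MeasureTheory Set Filter Topology
open scoped ENNReal

namespace Pool.Agent.Lib.MP_4d2d01_an

noncomputable def eta (s : ℕ) : ℝ := (1 / 256) ^ (s + 2)

theorem small_eta (s : ℕ) : Small (eta s) := by
  refine ⟨by unfold eta; positivity, ?_⟩
  unfold eta
  rw [pow_add]
  have : (1 / 256 : ℝ) ^ s ≤ 1 := pow_le_one₀ (by norm_num) (by norm_num)
  nlinarith

theorem decay_eta (s : ℕ) : eta s ^ 2 ≤ (1 / 65536) ^ s := by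
  unfold eta
  rw [← pow_mul, mul_comm, pow_mul, pow_add]
  have : (0 : ℝ) < ((1 / 256) ^ 2) ^ s := by positivity
  have e : ((1 / 256 : ℝ) ^ 2) = 1 / 65536 := by norm_num
  rw [e] at this ⊢
  nlinarith

abbrev Om := ℕ → ZMod 4

noncomputable def PP : Measure Om := Measure.addHaarMeasure ⊤

theorem prob_PP : IsProbabilityMeasure PP := by
  constructor
  have := Measure.addHaarMeasure_self (G := Om) (K₀ := ⊤)
  simpa [PP] using this

theorem inv_PP : PP.IsAddLeftInvariant := by unfold PP; infer_instance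

noncomputable def appr : ℕ → ℕ → Om → ℝ
  | 0, _, _ => 1
  | n + 1, s, ω => rt (eta s) (ω s) (appr n (s + 1) ω)

theorem appr_mem (n s : ℕ) (ω : Om) : appr n s ω ∈ Icc (-1 : ℝ) 1 := by
  cases n with
  | zero => simp [appr]
  | succ n => exact (small_eta s).rt_mem _ _

theorem appr_dist (n : ℕ) : ∀ s ω, dist (appr n s ω) (appr (n + 1) s ω) ≤ 2 * (1 / 8) ^ n := by
  induction n with
  | zero =>
    intro s ω
    have h1 := appr_mem 0 s ω
    have h2 := appr_mem 1 s ω
    rw [Real.dist_eq, abs_le]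
    constructor <;> linarith [h1.1, h1.2, h2.1, h2.2]
  | succ n ih =>
    intro s ω
    have := (small_eta s).lipschitz_aux (ω s) (appr n (s + 1) ω) (appr (n + 1) (s + 1) ω)
    have h2 := ih (s + 1) ω
    rw [Real.dist_eq] at h2 ⊢
    rw [pow_succ]
    change |rt (eta s) (ω s) (appr n (s + 1) ω) - rt (eta s) (ω s) (appr (n + 1) (s + 1) ω)| ≤ _
    linarith

theorem appr_cont (n : ℕ) : ∀ s, Continuous (appr n s) := by
  induction n with
  | zero => intro s; exact continuous_const
  | succ n ih =>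
    intro s
    have h1 : Continuous fun p : ZMod 4 × ℝ => rt (eta s) p.1 p.2 :=
      continuous_prod_of_discrete_left.mpr fun i => ((small_eta s).lipschitz i).continuous
    exact h1.comp ((continuous_apply s).prodMk (ih (s + 1)))

theorem appr_congr (n : ℕ) : ∀ s (ω ω' : Om), (∀ t, s ≤ t → ω t = ω' t) →
    appr n s ω = appr n s ω' := by
  induction n with
  | zero => intro s ω ω' _; rfl
  | succ n ih =>
    intro s ω ω' h
    simp only [appr]
    rw [h s le_rfl, ih (s + 1) ω ω' fun t ht => h t (by omega)]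

noncomputable def cd (s : ℕ) (ω : Om) : ℝ := limUnder atTop fun n => appr n s ω

theorem tendsto_cd (s : ℕ) (ω : Om) : Tendsto (fun n => appr n s ω) atTop (𝓝 (cd s ω)) :=
  (cauchySeq_of_le_geometric (1 / 8) 2 (by norm_num) fun n => appr_dist n s ω).tendsto_limUnder

theorem cd_mem (s : ℕ) (ω : Om) : cd s ω ∈ Icc (-1 : ℝ) 1 :=
  isClosed_Icc.mem_of_tendsto (tendsto_cd s ω) (Eventually.of_forall fun n => appr_mem n s ω)

theorem cd_rec (s : ℕ) (ω : Om) : cd s ω = rt (eta s) (ω s) (cd (s + 1) ω) := by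
  have h1 := (tendsto_cd s ω).comp (tendsto_add_atTop_nat 1)
  have h2 := (((small_eta s).lipschitz (ω s)).continuous.tendsto _).comp (tendsto_cd (s + 1) ω)
  exact tendsto_nhds_unique h1 h2

theorem cd_congr (s : ℕ) (ω ω' : Om) (h : ∀ t, s ≤ t → ω t = ω' t) : cd s ω = cd s ω' := by
  unfold cd; congr 1; funext n; exact appr_congr n s ω ω' h

theorem cd_cont (s : ℕ) : Continuous (cd s) := by
  have : TendstoUniformly (fun n => appr n s) (cd s) atTop := by
    rw [Metric.tendstoUniformly_iff]
    intro ε hε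
    have hg : Tendsto (fun n : ℕ => 2 * (1 / 8 : ℝ) ^ n / (1 - 1 / 8)) atTop (𝓝 0) := by
      simpa using ((tendsto_pow_atTop_nhds_zero_of_lt_one (r := (1 / 8 : ℝ)) (by norm_num)
        (by norm_num)).const_mul 2).div_const (1 - 1 / 8)
    filter_upwards [hg.eventually (gt_mem_nhds hε)] with n hn ω
    rw [dist_comm]
    exact lt_of_le_of_lt (dist_le_of_le_geometric_of_tendsto (1 / 8) 2 (by norm_num)
      (fun n => appr_dist n s ω) (tendsto_cd s ω) n) hn
  exact this.continuous (Eventually.of_forall fun n => appr_cont n s).frequently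

noncomputable def mu (s : ℕ) : Measure ℝ := PP.map (cd s)

def KK (s : ℕ) : Set ℝ := range (cd s)

theorem KK_compact (s : ℕ) : IsCompact (KK s) := isCompact_range (cd_cont s)

theorem KK_subset (s : ℕ) : KK s ⊆ Icc (-1 : ℝ) 1 := by
  rintro _ ⟨ω, rfl⟩; exact cd_mem s ω

theorem KK_nonempty (s : ℕ) : (KK s).Nonempty := range_nonempty _

theorem prob_mu (s : ℕ) : IsProbabilityMeasure (mu s) :=
  have := prob_PP
  Measure.isProbabilityMeasure_map (cd_cont s).measurable.aemeasurable

theorem ae_KK (s : ℕ) : ∀ᵐ x ∂(mu s), x ∈ KK s :=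
  (ae_map_iff (cd_cont s).measurable.aemeasurable (KK_compact s).measurableSet).mpr
    (Eventually.of_forall fun ω => ⟨ω, rfl⟩)

theorem good_mu (s : ℕ) : Good (mu s) 1 := ⟨prob_mu s, (ae_KK s).mono fun _ hx => KK_subset s hx⟩

theorem rt_mem_KK (s : ℕ) (i : Fin 4) {y : ℝ} (hy : y ∈ KK (s + 1)) : rt (eta s) i y ∈ KK s := by
  obtain ⟨ω, rfl⟩ := hy
  refine ⟨Function.update ω s i, ?_⟩
  rw [cd_rec, Function.update_self,
    cd_congr (s + 1) _ ω fun t ht => Function.update_of_ne (by omega) _ _]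

theorem mem_KK {s : ℕ} {x : ℝ} (hx : x ∈ KK s) : ∃ i, ∃ y ∈ KK (s + 1), x = rt (eta s) i y := by
  obtain ⟨ω, rfl⟩ := hx
  exact ⟨ω s, _, ⟨ω, rfl⟩, cd_rec s ω⟩

theorem rel_mu (s : ℕ) : mu s = (qstep (small_eta s)).pull (mu (s + 1)) := by
  have := inv_PP
  ext A hA
  rw [Step.pull_apply _ _ hA]
  have hm : ∀ s, Measurable (cd s) := fun s => (cd_cont s).measurable
  have hr : ∀ i : Fin 4, Measurable (rt (eta s) i) :=
    fun i => ((small_eta s).lipschitz i).continuous.measurable
  set f : ℝ → ℝ≥0∞ := A.indicator 1 with hf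
  have hfm : Measurable f := measurable_one.indicator hA
  have e1 : mu s A = ∫⁻ ω, f (cd s ω) ∂PP := by
    rw [← lintegral_indicator_one hA, mu, lintegral_map hfm (hm s)]
  have e2 : ∀ i : Fin 4, mu (s + 1) ((qstep (small_eta s)).x i ⁻¹' A)
      = ∫⁻ ω, f (rt (eta s) i (cd (s + 1) ω)) ∂PP := by
    intro i
    change mu (s + 1) (rt (eta s) i ⁻¹' A) = _
    rw [← Measure.map_apply (hr i) hA, ← lintegral_indicator_one hA, lintegral_map hfm (hr i), mu]
    exact lintegral_map (hfm.comp (hr i)) (hm _)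
  have e3 : ∀ i : ZMod 4, mu s A = ∫⁻ ω, f (rt (eta s) (i + ω s : ZMod 4) (cd (s + 1) ω)) ∂PP := by
    intro i
    rw [e1, ← lintegral_add_left_eq_self _ (Pi.single s i : Om)]
    congr 1; funext ω
    rw [cd_rec, cd_congr (s + 1) _ ω fun t ht => by
      rw [Pi.add_apply, Pi.single_eq_of_ne (by omega), zero_add]]
    simp
  have hmeas : ∀ i : ZMod 4,
      Measurable fun ω : Om => f (rt (eta s) (i + ω s : ZMod 4) (cd (s + 1) ω)) := by
    intro i
    have h1 : Continuous fun p : ZMod 4 × ℝ => rt (eta s) p.1 p.2 :=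
      continuous_prod_of_discrete_left.mpr fun i => ((small_eta s).lipschitz i).continuous
    exact hfm.comp (h1.comp ((continuous_const.add (continuous_apply s)).prodMk
      (cd_cont (s + 1)))).measurable
  have e4 : ∑ i : Fin 4, mu (s + 1) ((qstep (small_eta s)).x i ⁻¹' A) = 4 * mu s A := by
    simp only [e2]
    rw [← lintegral_finsetSum (f := fun (i : Fin 4) (ω : Om) => f (rt (eta s) i (cd (s + 1) ω))) _
      fun i _ => hfm.comp ((hr i).comp (hm _))]
    have : ∀ ω : Om, ∑ i : Fin 4, f (rt (eta s) i (cd (s + 1) ω))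
        = ∑ i : ZMod 4, f (rt (eta s) (i + ω s : ZMod 4) (cd (s + 1) ω)) := fun ω =>
      (Equiv.sum_comp (Equiv.addRight (ω s)) fun i : ZMod 4 =>
        f (rt (eta s) i (cd (s + 1) ω))).symm
    simp only [this]
    rw [lintegral_finsetSum _ fun i _ => hmeas i]
    simp only [← e3]
    simp
  rw [e4, ← mul_assoc]
  have : ((4 : ℕ) : ℝ≥0∞)⁻¹ * 4 = 1 := ENNReal.inv_mul_cancel (by norm_num) (by simp)
  rw [this, one_mul]

theorem atom_le (n : ℕ) : ∀ s z, mu s {z} ≤ (4⁻¹ : ℝ≥0∞) ^ n := by
  induction n with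
  | zero => intro s z; have := prob_mu s; simpa using prob_le_one
  | succ n ih =>
    intro s z
    rw [rel_mu, Step.pull_apply _ _ (measurableSet_singleton z)]
    obtain ⟨i, hi⟩ := (small_eta s).exists_near (z : ℂ)
    rw [Finset.sum_eq_single i]
    · have : mu (s + 1) ((qstep (small_eta s)).x i ⁻¹' {z})
          ≤ mu (s + 1) {(Hq (eta s)).eval z / DD (eta s)} := by
        refine measure_mono_ae ((good_mu (s + 1)).supp.mono fun y hy hz => ?_)
        have hz' : rt (eta s) i y = z := hz
        have := (small_eta s).eval_rt y i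
        rw [hz', cl_eq hy] at this
        change y = _
        rw [this]; field_simp [(small_eta s).DD_pos.ne']
      rw [pow_succ']
      exact mul_le_mul' (by simp) (this.trans (ih _ _))
    · intro j _ hj
      have : (qstep (small_eta s)).x j ⁻¹' {z} = ∅ := by
        ext y
        simp only [mem_preimage, mem_singleton_iff, mem_empty_iff_false, iff_false]
        intro hz
        have hz' : rt (eta s) j y = z := hz
        have := hi j hj y
        rw [hz', sub_self, norm_zero] at this
        linarith [(small_eta s).1]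
      rw [this, measure_empty]
    · intro h; exact absurd (Finset.mem_univ i) h

theorem null_mu (s : ℕ) : NullSingletonClass (mu s) := by
  constructor
  intro z
  have h : Tendsto (fun n : ℕ => (4⁻¹ : ℝ≥0∞) ^ n) atTop (𝓝 0) :=
    ENNReal.tendsto_pow_atTop_nhds_zero_of_lt_one (by norm_num)
  exact le_antisymm (ge_of_tendsto' h fun n => atom_le n s z) (by simp)

theorem tower : Tower eta mu := ⟨small_eta, good_mu, null_mu, rel_mu, decay_eta⟩

theorem vol_KK_le (n : ℕ) : ∀ s, volume (KK s) ≤ 2 * (2⁻¹ : ℝ≥0∞) ^ n := by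
  induction n with
  | zero =>
    intro s
    refine (measure_mono (KK_subset s)).trans ?_
    rw [Real.volume_Icc]; norm_num
  | succ n ih =>
    intro s
    have h1 : KK s ⊆ ⋃ i : Fin 4, rt (eta s) i '' KK (s + 1) := by
      intro x hx
      obtain ⟨i, y, hy, rfl⟩ := mem_KK hx
      exact mem_iUnion.mpr ⟨i, y, hy, rfl⟩
    have h2 : ∀ i : Fin 4, volume (rt (eta s) i '' KK (s + 1)) ≤ 8⁻¹ * volume (KK (s + 1)) := by
      intro i
      have := ((small_eta s).lipschitz i).hausdorffMeasure_image_le (d := 1) (by norm_num)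
        (KK (s + 1))
      rw [MeasureTheory.hausdorffMeasure_real] at this
      simpa using this
    refine (measure_mono h1).trans ((measure_iUnion_fintype_le _ _).trans ?_)
    refine (Finset.sum_le_sum fun i _ => (h2 i).trans (mul_le_mul' le_rfl (ih (s + 1)))).trans ?_
    simp only [Finset.sum_const, Finset.card_univ, Fintype.card_fin, nsmul_eq_mul]
    rw [pow_succ', ← mul_assoc, mul_left_comm 2]
    apply le_of_eq
    congr 1
    have : (8 : ℝ≥0∞) = 4 * 2 := by norm_num
    rw [this, ENNReal.mul_inv (by norm_num) (by norm_num), ← mul_assoc]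
    have : ((4 : ℕ) : ℝ≥0∞) * 4⁻¹ = 1 := ENNReal.mul_inv_cancel (by norm_num) (by simp)
    rw [this, one_mul]

theorem vol_KK (s : ℕ) : volume (KK s) = 0 := by
  have h : Tendsto (fun n : ℕ => 2 * (2⁻¹ : ℝ≥0∞) ^ n) atTop (𝓝 (2 * 0)) :=
    ENNReal.Tendsto.const_mul (ENNReal.tendsto_pow_atTop_nhds_zero_of_lt_one (by norm_num))
      (Or.inr (by simp))
  rw [mul_zero] at h
  exact le_antisymm (ge_of_tendsto' h fun n => vol_KK_le n s) (by simp)

/-- The final set and measure. -/
def KF : Set ℝ := {z | 1 - z ^ 2 ∈ KK 0}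

noncomputable def nu : Measure ℝ := sstep.pull (mu 0)

theorem good_nu : Good nu 2 := good_s (good_mu 0)

theorem KF_subset : KF ⊆ Icc (-2 : ℝ) 2 := by
  intro z hz
  have := (KK_subset 0 hz).1
  constructor <;> nlinarith

theorem KF_compact : IsCompact KF :=
  isCompact_Icc.of_isClosed_subset ((KK_compact 0).isClosed.preimage (by fun_prop)) KF_subset

theorem ae_KF : ∀ᵐ z ∂nu, z ∈ KF := by
  refine sstep.ae_pull KF_compact.measurableSet ((ae_KK 0).mono fun y hy i => ?_)
  change 1 - sstep.x i y ^ 2 ∈ KK 0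
  rw [sq, sstep_sq (KK_subset 0 hy)]; simpa using hy

theorem null_nu : NullSingletonClass nu := by
  constructor
  intro z
  have := null_mu 0
  rw [nu, Step.pull_apply _ _ (measurableSet_singleton z), Finset.sum_eq_zero, mul_zero]
  intro i _
  refine le_antisymm ?_ (by simp)
  refine (measure_mono_ae ((good_mu 0).supp.mono fun y hy hz => ?_)).trans
    (measure_singleton (1 - z ^ 2)).le
  have hz' : sstep.x i y = z := hz
  have := sstep_sq hy i
  rw [hz'] at this
  change y = _
  linarith

theorem vol_KF : volume KF = 0 := by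
  have h1 : KF ⊆ {0} ∪ ((fun y => √(1 - y)) '' (KK 0 ∩ Iio 1)
      ∪ (fun y => -√(1 - y)) '' (KK 0 ∩ Iio 1)) := by
    intro z hz
    rcases lt_trichotomy z 0 with h | h | h
    · right; right
      refine ⟨1 - z ^ 2, ⟨hz, by have := sq_pos_of_neg h; simpa⟩, ?_⟩
      simp [Real.sqrt_sq_eq_abs, abs_of_neg h]
    · left; exact h
    · right; left
      refine ⟨1 - z ^ 2, ⟨hz, by have := sq_pos_of_pos h; simpa⟩, ?_⟩
      simp [Real.sqrt_sq_eq_abs, abs_of_pos h]
  have h0 : volume (KK 0 ∩ Iio 1) = 0 := measure_mono_null inter_subset_left (vol_KK 0)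
  have hd : DifferentiableOn ℝ (fun y : ℝ => √(1 - y)) (KK 0 ∩ Iio 1) := by
    intro y hy
    have : (1 - y) ≠ 0 := by have := hy.2; simp only [mem_Iio] at this; linarith
    exact (((differentiableAt_const 1).sub differentiableAt_id).sqrt this).differentiableWithinAt
  refine measure_mono_null h1 (measure_union_null (by simp) (measure_union_null ?_ ?_))
  · exact addHaar_image_eq_zero_of_differentiableOn_of_addHaar_eq_zero volume hd h0
  · exact addHaar_image_eq_zero_of_differentiableOn_of_addHaar_eq_zero volume hd.neg h0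

end Pool.Agent.Lib.MP_4d2d01_an
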