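import Mathlib

/-! Definitions used in the statement for problem MP_4d2d01_an. -/

open MeasureTheory Polynomial Filter Topology
open scoped BoundedContinuousFunction

namespace Pool.Agent.Lib.MP_4d2d01_an

/-- The logarithmic energy integral converges (absolutely, and the diagonal is null). -/
def FiniteEnergy (μ : Measure ℝ) : Prop :=
  (μ.prod μ) {p : ℝ × ℝ | p.1 = p.2} = 0 ∧
    Integrable (fun p : ℝ × ℝ => Real.log |p.1 - p.2|) (μ.prod μ)

/-- Logarithmic energy. -/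
noncomputable def energy (μ : Measure ℝ) : ℝ :=
  ∫ p : ℝ × ℝ, -Real.log |p.1 - p.2| ∂(μ.prod μ)

/-- Minimiser of the energy among probability measures on `K` (of finite energy). -/
def IsEquilibriumMeasure (K : Set ℝ) (μ : Measure ℝ) : Prop :=
  IsProbabilityMeasure μ ∧ μ Kᶜ = 0 ∧ FiniteEnergy μ ∧
    ∀ ν : Measure ℝ, IsProbabilityMeasure ν → ν Kᶜ = 0 → FiniteEnergy ν → energy μ ≤ energy ν

/-- Compact, non-polar, and the Green function of the complement with pole at infinity tends to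
zero at every point of `K` (so its negative is a barrier at every boundary point). -/
def IsGeneric (K : Set ℝ) : Prop :=
  IsCompact K ∧
  (∃ ν : Measure ℝ, IsProbabilityMeasure ν ∧ ν Kᶜ = 0 ∧ FiniteEnergy ν) ∧
  ∃ g : ℂ → ℝ,
    InnerProductSpace.HarmonicOnNhd g (Complex.ofReal '' K)ᶜ ∧
    (∀ z ∈ (Complex.ofReal '' K)ᶜ, 0 < g z) ∧
    (∃ c : ℝ, Tendsto (fun z => g z - Real.log ‖z‖) (Bornology.cobounded ℂ) (𝓝 c)) ∧
    ∀ ζ ∈ K, Tendsto g (𝓝[(Complex.ofReal '' K)ᶜ] (ζ : ℂ)) (𝓝 0)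

/-- `a n`, `b n` (`n ≥ 1`) are the recurrence coefficients of the orthonormal polynomials of `μ`. -/
def IsJacobi (μ : Measure ℝ) (a b : ℕ → ℝ) : Prop :=
  ∃ p : ℕ → ℝ[X],
    (∀ n, (p n).degree = n ∧ 0 < (p n).leadingCoeff) ∧
    (∀ m n, ∫ x, (p m).eval x * (p n).eval x ∂μ = if m = n then 1 else 0) ∧
    (∀ n, 1 ≤ n → 0 < a n) ∧
    X * p 0 = C (a 1) * p 1 + C (b 1) * p 0 ∧
    ∀ n, 1 ≤ n → X * p n = C (a (n + 1)) * p (n + 1) + C (b (n + 1)) * p n + C (a n) * p (n - 1)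

/-- A bounded two-sided sequence whose set of shifts is precompact in the uniform metric. -/
def AlmostPeriodic (c : ℤ →ᵇ ℝ × ℝ) : Prop :=
  TotallyBounded {d : ℤ →ᵇ ℝ × ℝ | ∃ k : ℤ, ∀ n, d n = c (n + k)}

/-- Asymptotically almost periodic one-sided Jacobi matrix. -/
def AsympAlmostPeriodic (a b : ℕ → ℝ) : Prop :=
  ∃ c : ℤ →ᵇ ℝ × ℝ, AlmostPeriodic c ∧
    Tendsto (fun n : ℕ => |a n - (c n).1| + |b n - (c n).2|) atTop (𝓝 0)

end Pool.Agent.Lib.MP_4d2d01_an
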