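import Pool.Agent.Lib.MP_4d2d01_an.Step

/-! Positivity of the logarithmic energy via the Chebyshev expansion of the kernel. -/

open Polynomial MeasureTheory Set Filter Topology

namespace Pool.Agent.Lib.MP_4d2d01_an

theorem hasSum_cos_log {r : ℝ} (h0 : 0 ≤ r) (h1 : r < 1) (θ : ℝ) :
    HasSum (fun n : ℕ => r ^ n / n * Real.cos (n * θ))
      (-(1 / 2 * Real.log (1 - 2 * r * Real.cos θ + r ^ 2))) := by
  have hz : ‖(r : ℂ) * Complex.exp (θ * Complex.I)‖ < 1 := by
    rw [norm_mul, Complex.norm_exp_ofReal_mul_I, mul_one, Complex.norm_real,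
      Real.norm_of_nonneg h0]; exact h1
  have h := Complex.hasSum_re (Complex.hasSum_taylorSeries_neg_log hz)
  convert h using 1
  · funext n
    rw [mul_pow, ← Complex.exp_nat_mul,
      show (n : ℂ) * (θ * Complex.I) = ((n * θ : ℝ) : ℂ) * Complex.I by push_cast; ring,
      show (r : ℂ) ^ n * Complex.exp (((n * θ : ℝ) : ℂ) * Complex.I) / n
        = ((r ^ n / n : ℝ) : ℂ) * Complex.exp (((n * θ : ℝ) : ℂ) * Complex.I) by push_cast; ring,
      Complex.re_ofReal_mul, Complex.exp_ofReal_mul_I_re]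
  · rw [Complex.neg_re, Complex.log_re, Complex.norm_eq_sqrt_sq_add_sq,
      Real.log_sqrt (by positivity)]
    simp only [Complex.sub_re, Complex.one_re, Complex.re_ofReal_mul, Complex.exp_ofReal_mul_I_re,
      Complex.sub_im, Complex.one_im, Complex.im_ofReal_mul, Complex.exp_ofReal_mul_I_im]
    have : (1 - r * Real.cos θ) ^ 2 + (0 - r * Real.sin θ) ^ 2
        = 1 - 2 * r * Real.cos θ + r ^ 2 := by
      linear_combination r ^ 2 * Real.sin_sq_add_cos_sq θ
    rw [this]; ring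

noncomputable def cn (n : ℕ) (x : ℝ) : ℝ := Real.cos (n * Real.arccos (x / 2))

theorem cn_cont (n : ℕ) : Continuous (cn n) := by
  unfold cn
  exact Real.continuous_cos.comp (continuous_const.mul (Real.continuous_arccos.comp (by fun_prop)))

def PK (r x y : ℝ) : ℝ := (1 - r ^ 2) ^ 2 + r ^ 2 * (x - y) ^ 2 - r * (1 - r) ^ 2 * (x * y)

theorem hasSum_kernel {r : ℝ} (h0 : 0 ≤ r) (h1 : r < 1) {x y : ℝ} (hx : x ∈ Icc (-2 : ℝ) 2)
    (hy : y ∈ Icc (-2 : ℝ) 2) :
    HasSum (fun n : ℕ => 2 * r ^ n / n * (cn n x * cn n y)) (-(1 / 2 * Real.log (PK r x y))) := by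
  set α := Real.arccos (x / 2)
  set β := Real.arccos (y / 2)
  have ca : Real.cos α = x / 2 := Real.cos_arccos (by linarith [hx.1]) (by linarith [hx.2])
  have cb : Real.cos β = y / 2 := Real.cos_arccos (by linarith [hy.1]) (by linarith [hy.2])
  have h := (hasSum_cos_log h0 h1 (α + β)).add (hasSum_cos_log h0 h1 (α - β))
  have hp : ∀ θ, 0 < 1 - 2 * r * Real.cos θ + r ^ 2 := by
    intro θ
    have := Real.cos_le_one θ
    nlinarith [mul_nonneg h0 (sub_nonneg.mpr this), sq_pos_of_pos (sub_pos.mpr h1)]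
  convert h using 1
  · funext n
    simp only [cn]
    rw [mul_add, mul_sub, Real.cos_add, Real.cos_sub]; ring
  · rw [← neg_add, ← mul_add, ← Real.log_mul (hp _).ne' (hp _).ne']
    congr 3
    rw [Real.cos_add, Real.cos_sub, ca, cb]
    have s1 := Real.sin_sq_add_cos_sq α
    have s2 := Real.sin_sq_add_cos_sq β
    rw [ca] at s1; rw [cb] at s2
    unfold PK
    linear_combination 4 * r ^ 2 * Real.sin β ^ 2 * s1 + 4 * r ^ 2 * (1 - (x / 2) ^ 2) * s2

noncomputable def cm (n : ℕ) (ρ : Measure ℝ) : ℝ := ∫ x, cn n x ∂ρ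

noncomputable def mutual_en (ρ σ : Measure ℝ) : ℝ :=
  ∫ p : ℝ × ℝ, -Real.log |p.1 - p.2| ∂(ρ.prod σ)

def FinPair (ρ σ : Measure ℝ) : Prop :=
  (ρ.prod σ) {p : ℝ × ℝ | p.1 = p.2} = 0 ∧
    Integrable (fun p : ℝ × ℝ => Real.log |p.1 - p.2|) (ρ.prod σ)

theorem ae_prod_good {ρ σ : Measure ℝ} (hρ : Good ρ 2) (hσ : Good σ 2) :
    ∀ᵐ p ∂(ρ.prod σ), p.1 ∈ Icc (-2 : ℝ) 2 ∧ p.2 ∈ Icc (-2 : ℝ) 2 := by
  have := hρ.prob; have := hσ.prob
  exact (Measure.quasiMeasurePreserving_fst.ae hρ.supp).and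
    (Measure.quasiMeasurePreserving_snd.ae hσ.supp)

theorem hasSum_energy {r : ℝ} (h0 : 0 ≤ r) (h1 : r < 1) {ρ σ : Measure ℝ} (hρ : Good ρ 2)
    (hσ : Good σ 2) : HasSum (fun n : ℕ => 2 * r ^ n / n * (cm n ρ * cm n σ))
      (∫ p : ℝ × ℝ, -(1 / 2 * Real.log (PK r p.1 p.2)) ∂(ρ.prod σ)) := by
  have := hρ.prob; have := hσ.prob
  have h := hasSum_integral_of_dominated_convergence (μ := ρ.prod σ)
    (F := fun (n : ℕ) (p : ℝ × ℝ) => 2 * r ^ n / n * (cn n p.1 * cn n p.2))
    (f := fun p : ℝ × ℝ => -(1 / 2 * Real.log (PK r p.1 p.2))) (fun n _ => 2 * r ^ n)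
    (fun n => (continuous_const.mul (((cn_cont n).comp continuous_fst).mul
      ((cn_cont n).comp continuous_snd))).aestronglyMeasurable)
    (fun n => Eventually.of_forall fun p => by
      rw [Real.norm_eq_abs, abs_mul, abs_mul]
      have a1 : |cn n p.1| ≤ 1 := Real.abs_cos_le_one _
      have a2 : |cn n p.2| ≤ 1 := Real.abs_cos_le_one _
      have a3 : |2 * r ^ n / n| ≤ 2 * r ^ n := by
        rw [abs_of_nonneg (by positivity)]
        rcases Nat.eq_zero_or_pos n with rfl | hn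
        · simp
        · exact div_le_self (by positivity) (by exact_mod_cast hn)
      calc _ ≤ 2 * r ^ n * (1 * 1) := by gcongr
        _ = _ := by ring)
    (Eventually.of_forall fun _ => (summable_geometric_of_lt_one h0 h1).mul_left 2)
    (integrable_const _)
    ((ae_prod_good hρ hσ).mono fun p hp => hasSum_kernel h0 h1 hp.1 hp.2)
  have e : (fun n : ℕ => ∫ p : ℝ × ℝ, 2 * r ^ n / n * (cn n p.1 * cn n p.2) ∂(ρ.prod σ))
      = fun n : ℕ => 2 * r ^ n / n * (cm n ρ * cm n σ) := funext fun n => by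
    rw [integral_const_mul, integral_prod_mul (f := cn n) (g := cn n)]; rfl
  rwa [e] at h

theorem tendsto_energy {ρ σ : Measure ℝ} (hρ : Good ρ 2) (hσ : Good σ 2) (h : FinPair ρ σ)
    {r : ℕ → ℝ} (hr0 : ∀ j, 1 / 2 ≤ r j) (hr1 : ∀ j, r j < 1) (hr : Tendsto r atTop (𝓝 1)) :
    Tendsto (fun j => ∫ p : ℝ × ℝ, -(1 / 2 * Real.log (PK (r j) p.1 p.2)) ∂(ρ.prod σ)) atTop
      (𝓝 (mutual_en ρ σ)) := by
  have := hρ.prob; have := hσ.prob
  have hne : ∀ᵐ p ∂(ρ.prod σ), p.1 ≠ p.2 := by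
    rw [ae_iff]; simpa using h.1
  refine tendsto_integral_of_dominated_convergence (fun p => |Real.log (|p.1 - p.2|)| + 20)
    (fun j => Measurable.aestronglyMeasurable ?_) (h.2.abs.add (integrable_const _))
    (fun j => ?_) ?_
  · exact ((Real.measurable_log.comp (by unfold PK; fun_prop)).const_mul _).neg
  · filter_upwards [ae_prod_good hρ hσ, hne] with p hp hp'
    obtain ⟨⟨a1, a2⟩, a3, a4⟩ := hp
    have b0 := hr0 j; have b1 := hr1 j
    set x := p.1; set y := p.2; set s := r j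
    have hxy : 0 < |x - y| := abs_pos.mpr (sub_ne_zero.mpr hp')
    have hxy4 : x * y ≤ 4 := by nlinarith
    have hxy4' : -4 ≤ x * y := by nlinarith
    have lo : (|x - y| / 2) ^ 2 ≤ PK s x y := by
      rw [div_pow, sq_abs]
      unfold PK
      have e1 : s * (x * y) ≤ (1 + s) ^ 2 := by nlinarith [sq_nonneg (1 - s)]
      have e2 := mul_le_mul_of_nonneg_left e1 (sq_nonneg (1 - s))
      have e3 : 1 / 4 ≤ s ^ 2 := by nlinarith
      nlinarith [mul_le_mul_of_nonneg_right e3 (sq_nonneg (x - y))]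
    have up : PK s x y ≤ 21 := by
      unfold PK
      have e1 : (1 - s ^ 2) ^ 2 ≤ 1 := by
        have : 0 ≤ 1 - s ^ 2 := by nlinarith
        nlinarith [sq_nonneg s]
      have e2 : s ^ 2 * (x - y) ^ 2 ≤ 1 * 16 := by gcongr <;> nlinarith
      have e3 : s * (1 - s) ^ 2 ≤ 1 := by nlinarith
      have e4 : 0 ≤ s * (1 - s) ^ 2 := by positivity
      nlinarith
    have l1 := Real.log_le_log (by positivity) lo
    rw [Real.log_pow, Real.log_div hxy.ne' (by norm_num)] at l1
    have l2 := Real.log_le_sub_one_of_pos (lt_of_lt_of_le (by positivity) lo)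
    have l3 := Real.log_le_sub_one_of_pos (show (0 : ℝ) < 2 by norm_num)
    push_cast at l1
    rw [Real.norm_eq_abs, abs_le]
    constructor
    · linarith [abs_nonneg (Real.log |x - y|)]
    · linarith [neg_abs_le (Real.log |x - y|)]
  · filter_upwards [hne] with p hp'
    have h1 : Tendsto (fun j => PK (r j) p.1 p.2) atTop (𝓝 (PK 1 p.1 p.2)) :=
      (Continuous.tendsto (f := fun s => PK s p.1 p.2) (by unfold PK; fun_prop) 1).comp hr
    have e : PK 1 p.1 p.2 = |p.1 - p.2| ^ 2 := by unfold PK; rw [sq_abs]; ring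
    have hxy : 0 < |p.1 - p.2| := abs_pos.mpr (sub_ne_zero.mpr hp')
    rw [e] at h1
    have := ((h1.log (by positivity)).const_mul (1 / 2)).neg
    rw [Real.log_pow] at this
    convert this using 2
    push_cast; ring

theorem energy_ineq {ρ σ : Measure ℝ} (hρ : Good ρ 2) (hσ : Good σ 2) (h1 : FinPair ρ ρ)
    (h2 : FinPair σ σ) (h3 : FinPair ρ σ) (m : ℕ) :
    2 / m * (cm m ρ - cm m σ) ^ 2 ≤ mutual_en ρ ρ + mutual_en σ σ - 2 * mutual_en ρ σ := by
  set r : ℕ → ℝ := fun j => 1 - 1 / 2 * (1 / ((j : ℝ) + 1)) with hrdef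
  have hr0 : ∀ j, 1 / 2 ≤ r j := fun j => by
    have : 1 / ((j : ℝ) + 1) ≤ 1 := by
      rw [div_le_one (by positivity)]; linarith [(Nat.cast_nonneg j : (0 : ℝ) ≤ j)]
    simp only [hrdef]; linarith
  have hr1 : ∀ j, r j < 1 := fun j => by
    have : 0 < 1 / ((j : ℝ) + 1) := by positivity
    simp only [hrdef]; linarith
  have hr : Tendsto r atTop (𝓝 1) := by
    have := (tendsto_one_div_add_atTop_nhds_zero_nat (𝕜 := ℝ)).const_mul (1 / 2) |>.const_sub 1
    rw [mul_zero, sub_zero] at this; exact this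
  have t := ((tendsto_energy hρ hρ h1 hr0 hr1 hr).add (tendsto_energy hσ hσ h2 hr0 hr1 hr)).sub
    ((tendsto_energy hρ hσ h3 hr0 hr1 hr).const_mul 2)
  have t2 : Tendsto (fun j => 2 * r j ^ m / m * (cm m ρ - cm m σ) ^ 2) atTop
      (𝓝 (2 * 1 ^ m / m * (cm m ρ - cm m σ) ^ 2)) :=
    (((hr.pow m).const_mul 2).div_const _).mul_const _
  rw [one_pow, mul_one] at t2
  refine le_of_tendsto_of_tendsto' t2 t fun j => ?_
  have r0 : 0 ≤ r j := by linarith [hr0 j]
  have s := ((hasSum_energy r0 (hr1 j) hρ hρ).add (hasSum_energy r0 (hr1 j) hσ hσ)).sub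
    ((hasSum_energy r0 (hr1 j) hρ hσ).mul_left 2)
  have e : (fun n : ℕ => 2 * r j ^ n / n * (cm n ρ * cm n ρ) + 2 * r j ^ n / n * (cm n σ * cm n σ)
      - 2 * (2 * r j ^ n / n * (cm n ρ * cm n σ)))
      = fun n : ℕ => 2 * r j ^ n / n * (cm n ρ - cm n σ) ^ 2 := funext fun n => by ring
  rw [e] at s
  exact le_hasSum s m fun n _ => by positivity

theorem mom_eq_of_cm {ρ σ : Measure ℝ} (hρ : Good ρ 2) (hσ : Good σ 2)
    (h : ∀ m, 1 ≤ m → cm m ρ = cm m σ) : mom ρ = mom σ := by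
  set q : ℕ → ℝ[X] := fun n => (Chebyshev.T ℝ n).comp (C (1 / 2) * X) with hq
  have hqd : ∀ n, (q n).natDegree = n := fun n => by
    simp only [hq]
    rw [natDegree_comp, Chebyshev.natDegree_T, natDegree_C_mul (by norm_num), natDegree_X]; simp
  have hqe : ∀ n, ∀ x ∈ Icc (-2 : ℝ) 2, (q n).eval x = cn n x := fun n x hx => by
    simp only [hq, eval_comp, eval_mul, eval_C, eval_X, cn]
    have ca : Real.cos (Real.arccos (x / 2)) = 1 / 2 * x := by
      rw [Real.cos_arccos (by linarith [hx.1]) (by linarith [hx.2])]; ring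
    rw [← ca, Chebyshev.T_real_cos]; simp
  have hqm : ∀ n, 1 ≤ n → mom ρ (q n) = mom σ (q n) := fun n hn => by
    rw [hρ.mom_apply, hσ.mom_apply, hρ.integral_congr (hqe n), hσ.integral_congr (hqe n)]
    exact h n hn
  have key : ∀ n, ∀ p : ℝ[X], p.natDegree ≤ n → mom ρ p = mom σ p := by
    intro n
    induction n with
    | zero =>
      intro p hp
      rw [eq_C_of_natDegree_le_zero hp, hρ.mom_C, hσ.mom_C]
    | succ n ih =>
      intro p hp
      have hq0 : q (n + 1) ≠ 0 := fun h0 => by have := hqd (n + 1); rw [h0] at this; simp at this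
      have hc : (q (n + 1)).coeff (n + 1) ≠ 0 := by
        have := leadingCoeff_ne_zero.mpr hq0
        rwa [leadingCoeff, hqd] at this
      set c := p.coeff (n + 1) / (q (n + 1)).coeff (n + 1)
      have hd : (p - C c * q (n + 1)).natDegree ≤ n := by
        rw [natDegree_le_iff_coeff_eq_zero]
        intro N hN
        rw [coeff_sub, coeff_C_mul]
        rcases eq_or_lt_of_le (show n + 1 ≤ N from hN) with rfl | hlt
        · rw [div_mul_cancel₀ _ hc, sub_self]
        · rw [coeff_eq_zero_of_natDegree_lt (lt_of_le_of_lt hp hlt),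
            coeff_eq_zero_of_natDegree_lt (p := q (n + 1)) (by rw [hqd]; exact hlt)]
          ring
      have e := ih _ hd
      rw [map_sub, map_sub, fnl_C_mul, fnl_C_mul, hqm (n + 1) (by omega)] at e
      linarith
  exact LinearMap.ext fun p => key _ p le_rfl

end Pool.Agent.Lib.MP_4d2d01_an
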