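import Pool.Agent.Lib.MP_4d2d01_an.Step

/-! General facts on logarithmic potentials of compactly supported measures on the line. -/

open Polynomial MeasureTheory Set Filter Topology

namespace Pool.Agent.Lib.MP_4d2d01_an

noncomputable def pot (μ : Measure ℝ) (z : ℂ) : ℝ := ∫ x, Real.log ‖z - (x : ℂ)‖ ∂μ

theorem meas_lognorm (z : ℂ) : Measurable fun x : ℝ => Real.log ‖z - (x : ℂ)‖ :=
  Real.measurable_log.comp (by fun_prop)

theorem norm_sub_le_of_mem {r : ℝ} {x : ℝ} (hx : x ∈ Icc (-r) r) (z : ℂ) :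
    ‖z - (x : ℂ)‖ ≤ ‖z‖ + r := by
  refine (norm_sub_le _ _).trans ?_
  rw [Complex.norm_real, Real.norm_eq_abs]
  linarith [abs_le.mpr hx]

theorem ae_ne_complex {μ : Measure ℝ} [NullSingletonClass μ] (z : ℂ) :
    ∀ᵐ (x : ℝ) ∂μ, z - (x : ℂ) ≠ 0 := by
  have : ∀ᵐ x ∂μ, x ≠ z.re := by
    rw [ae_iff]; simp
  refine this.mono fun x hx h0 => hx ?_
  rw [sub_eq_zero.mp h0]; simp

theorem cont_reg (z : ℂ) {ε : ℝ} (hε : 0 < ε) :
    Continuous fun x : ℝ => -Real.log (‖z - (x : ℂ)‖ + ε) :=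
  (Continuous.log (by fun_prop) fun x => by positivity).neg

theorem Good.pot_lower {μ : Measure ℝ} {r : ℝ} (h : Good μ r) [NullSingletonClass μ] (z : ℂ)
    (B : ℝ) (hB : ∀ ε : ℝ, 0 < ε → ε ≤ 1 → ∫ x, -Real.log (‖z - (x : ℂ)‖ + ε) ∂μ ≤ B) :
    Integrable (fun x : ℝ => Real.log ‖z - (x : ℂ)‖) μ ∧ -B ≤ pot μ z := by
  have := h.prob
  set R := Real.log (‖z‖ + r + 1)
  set G : ℕ → ℝ → ℝ := fun n x => R + -Real.log (‖z - (x : ℂ)‖ + 1 / ((n : ℝ) + 1)) with hG
  set f : ℝ → ℝ := fun x => R + -Real.log ‖z - (x : ℂ)‖ with hf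
  have hpos : ∀ n : ℕ, (0 : ℝ) < 1 / ((n : ℝ) + 1) := fun n => by positivity
  have hle : ∀ n : ℕ, 1 / ((n : ℝ) + 1) ≤ 1 := fun n => by
    rw [div_le_one (by positivity)]; linarith [(Nat.cast_nonneg n : (0 : ℝ) ≤ n)]
  have hGc : ∀ n, Continuous (G n) := fun n => continuous_const.add (cont_reg z (hpos n))
  have hG0 : ∀ n, ∀ᵐ x ∂μ, 0 ≤ G n x := fun n => h.supp.mono fun x hx => by
    have : Real.log (‖z - (x : ℂ)‖ + 1 / ((n : ℝ) + 1)) ≤ R :=
      Real.log_le_log (by have := hpos n; positivity)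
        (by linarith [norm_sub_le_of_mem hx z, hle n])
    simp only [hG]; linarith
  have hGI : ∀ n, ∫ x, G n x ∂μ ≤ R + B := by
    intro n
    simp only [hG]
    rw [integral_add (integrable_const _) (h.integrable (cont_reg z (hpos n)))]
    simp only [integral_const, probReal_univ, smul_eq_mul, one_mul]
    linarith [hB _ (hpos n) (hle n)]
  have hlim : ∀ᵐ x ∂μ, Tendsto (fun n => G n x) atTop (𝓝 (f x)) :=
    (ae_ne_complex (μ := μ) z).mono fun x hx => by
      have h1 : Tendsto (fun n : ℕ => ‖z - (x : ℂ)‖ + 1 / ((n : ℝ) + 1)) atTop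
          (𝓝 (‖z - (x : ℂ)‖ + 0)) := tendsto_one_div_add_atTop_nhds_zero_nat.const_add _
      rw [add_zero] at h1
      exact ((h1.log (norm_ne_zero_iff.mpr hx)).neg).const_add R
  have hfi : Integrable f μ := by
    refine integrable_of_tendsto hlim (fun n => (hGc n).aestronglyMeasurable) ?_
    refine ne_top_of_le_ne_top (ENNReal.ofReal_ne_top (r := R + B)) ?_
    refine liminf_le_of_frequently_le' (Frequently.of_forall fun n => ?_)
    rw [← ofReal_integral_norm_eq_lintegral_enorm (h.integrable (hGc n))]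
    refine ENNReal.ofReal_le_ofReal (le_trans (le_of_eq ?_) (hGI n))
    exact integral_congr_ae ((hG0 n).mono fun x hx => Real.norm_of_nonneg hx)
  have hconv : Tendsto (fun n => ∫ x, G n x ∂μ) atTop (𝓝 (∫ x, f x ∂μ)) := by
    refine tendsto_integral_of_dominated_convergence f (fun n => (hGc n).aestronglyMeasurable) hfi
      (fun n => ?_) hlim
    filter_upwards [hG0 n, ae_ne_complex (μ := μ) z] with x hx hx'
    rw [Real.norm_of_nonneg hx]
    have : Real.log ‖z - (x : ℂ)‖ ≤ Real.log (‖z - (x : ℂ)‖ + 1 / ((n : ℝ) + 1)) :=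
      Real.log_le_log (norm_pos_iff.mpr hx') (by linarith [hpos n])
    simp only [hG, hf]; linarith
  have hint : Integrable (fun x : ℝ => Real.log ‖z - (x : ℂ)‖) μ := by
    have := (integrable_const R).sub hfi
    refine this.congr (Eventually.of_forall fun x => ?_)
    simp [hf]
  refine ⟨hint, ?_⟩
  have h1 := le_of_tendsto' hconv hGI
  simp only [hf, ← sub_eq_add_neg] at h1
  rw [integral_sub (integrable_const _) hint] at h1
  simp only [integral_const, probReal_univ, smul_eq_mul, one_mul] at h1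
  unfold pot; linarith

theorem log_norm_le {r : ℝ} (hr : 1 ≤ r) {x : ℝ} (hx : x ∈ Icc (-r) r) (z : ℂ) :
    Real.log ‖z - (x : ℂ)‖ ≤ Real.log (‖z‖ + r) := by
  rcases (norm_nonneg (z - (x : ℂ))).eq_or_lt with h0 | h0
  · rw [← h0, Real.log_zero]; exact Real.log_nonneg (by linarith [norm_nonneg z])
  · exact Real.log_le_log h0 (norm_sub_le_of_mem hx z)

theorem Good.pot_upper {μ : Measure ℝ} {r : ℝ} (h : Good μ r) (hr : 1 ≤ r) (z : ℂ)
    (hint : Integrable (fun x : ℝ => Real.log ‖z - (x : ℂ)‖) μ) :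
    pot μ z ≤ Real.log (‖z‖ + r) := by
  have := h.prob
  have := integral_mono_ae hint (integrable_const (Real.log (‖z‖ + r)))
    (h.supp.mono fun x hx => log_norm_le hr hx z)
  simpa [pot] using this

theorem Step.pot_pull {d : ℕ} (S : Step d) {μ : Measure ℝ} (h : Good μ 1) [NullSingletonClass μ]
    (hx : ∀ y ∈ Icc (-1 : ℝ) 1, ∀ i, S.x i y ∈ Icc (-2 : ℝ) 2) (z w : ℂ)
    (hfac : ∀ y ∈ Icc (-1 : ℝ) 1, ∏ i, ‖z - (S.x i y : ℂ)‖ = |S.D| * ‖w - (y : ℂ)‖)
    (hint : Integrable (fun y : ℝ => Real.log ‖w - (y : ℂ)‖) μ) :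
    Integrable (fun x : ℝ => Real.log ‖z - (x : ℂ)‖) (S.pull μ) ∧
      pot (S.pull μ) z = (d : ℝ)⁻¹ * (Real.log |S.D| + pot μ w) := by
  have := h.prob
  have hD : |S.D| ≠ 0 := abs_ne_zero.mpr S.hD
  have hsum : ∀ᵐ y ∂μ, ∑ i, Real.log ‖z - (S.x i y : ℂ)‖
      = Real.log |S.D| + Real.log ‖w - (y : ℂ)‖ := by
    filter_upwards [h.supp, ae_ne_complex (μ := μ) w] with y hy hy'
    have hn := norm_ne_zero_iff.mpr hy'
    have e := hfac y hy
    rw [← Real.log_mul hD hn, ← e, Real.log_prod]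
    exact Finset.prod_ne_zero_iff.mp (by rw [e]; exact mul_ne_zero hD hn)
  set Cz := Real.log (‖z‖ + 2)
  have hC : 0 ≤ Cz := Real.log_nonneg (by linarith [norm_nonneg z])
  have hSi : Integrable (fun y : ℝ => Real.log |S.D| + Real.log ‖w - (y : ℂ)‖) μ :=
    (integrable_const _).add hint
  have hi : ∀ i, Integrable (fun y => Real.log ‖z - (S.x i y : ℂ)‖) μ := by
    intro i
    refine Integrable.mono' (hSi.abs.add (integrable_const (d * Cz)))
      ((meas_lognorm z).comp (S.meas i)).aestronglyMeasurable ?_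
    filter_upwards [h.supp, hsum] with y hy hs
    have hle : ∀ j, Real.log ‖z - (S.x j y : ℂ)‖ ≤ Cz :=
      fun j => log_norm_le (by norm_num) (hx y hy j) z
    have hd1 : (1 : ℝ) ≤ d := by exact_mod_cast S.dpos
    rw [← Finset.add_sum_erase _ _ (Finset.mem_univ i)] at hs
    have h2 : ∑ j ∈ Finset.univ.erase i, Real.log ‖z - (S.x j y : ℂ)‖ ≤ d * Cz := by
      refine (Finset.sum_le_sum fun j _ => hle j).trans ?_
      simp only [Finset.sum_const, nsmul_eq_mul]
      gcongr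
      exact (Finset.card_le_univ _).trans (by simp)
    rw [Real.norm_eq_abs, abs_le]
    simp only [Pi.add_apply]
    have a1 := neg_abs_le (Real.log |S.D| + Real.log ‖w - (y : ℂ)‖)
    have a2 := abs_nonneg (Real.log |S.D| + Real.log ‖w - (y : ℂ)‖)
    have a3 := hle i
    constructor <;> nlinarith
  refine ⟨S.integrable_pull (meas_lognorm z) hi, ?_⟩
  unfold pot
  rw [S.integral_pull (meas_lognorm z) hi, integral_congr_ae hsum,
    integral_add (integrable_const _) hint]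
  simp

theorem harmonic_pot {μ : Measure ℝ} [IsProbabilityMeasure μ] {K : Set ℝ} (hK : IsCompact K)
    (hμ : ∀ᵐ x ∂μ, x ∈ K) {z₀ : ℂ} (hz : z₀ ∈ (Complex.ofReal '' K)ᶜ) :
    InnerProductSpace.HarmonicAt (pot μ) z₀ := by
  have hcl : IsClosed (Complex.ofReal '' K) := (hK.image Complex.continuous_ofReal).isClosed
  obtain ⟨δ, hδ, hball⟩ := Metric.isOpen_iff.mp hcl.isOpen_compl z₀ hz
  have hfar : ∀ x ∈ K, δ ≤ ‖z₀ - (x : ℂ)‖ := by
    intro x hx
    by_contra hlt
    push Not at hlt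
    exact hball (show (x : ℂ) ∈ Metric.ball z₀ δ by
      rw [Metric.mem_ball, dist_comm, dist_eq_norm]; exact hlt) ⟨x, hx, rfl⟩
  obtain ⟨R, hR⟩ := hK.isBounded.exists_norm_le
  set F : ℂ → ℝ → ℂ := fun z x => Complex.log (1 + (z - z₀) / (z₀ - x)) with hF
  have hsm : ∀ x ∈ K, ∀ z ∈ Metric.ball z₀ (δ / 2), ‖(z - z₀) / (z₀ - x)‖ ≤ 1 / 2 := by
    intro x hx z hz
    rw [Metric.mem_ball, dist_eq_norm] at hz
    rw [norm_div, div_le_iff₀ (by linarith [hfar x hx])]
    linarith [hfar x hx]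
  have hne : ∀ x ∈ K, z₀ - (x : ℂ) ≠ 0 := fun x hx => norm_pos_iff.mp (by linarith [hfar x hx])
  have hfar2 : ∀ x ∈ K, ∀ z ∈ Metric.ball z₀ (δ / 2), δ / 2 ≤ ‖z - (x : ℂ)‖ := by
    intro x hx z hz
    rw [Metric.mem_ball, dist_eq_norm] at hz
    have := norm_sub_le (z - (x : ℂ)) (z - z₀)
    rw [show z - (x : ℂ) - (z - z₀) = z₀ - x by ring] at this
    linarith [hfar x hx]
  have hFm : ∀ z, AEStronglyMeasurable (F z) μ := fun z =>
    (Complex.measurable_log.comp (by fun_prop)).aestronglyMeasurable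
  have hFi : ∀ z ∈ Metric.ball z₀ (δ / 2), Integrable (F z) μ := by
    intro z hz
    refine Integrable.of_bound (hFm z) 1 (hμ.mono fun x hx => ?_)
    have := Complex.norm_log_one_add_half_le_self (hsm x hx z hz)
    linarith [hsm x hx z hz]
  have hdiff : DifferentiableOn ℂ (fun z => ∫ x, F z x ∂μ) (Metric.ball z₀ (δ / 2)) := by
    intro z₁ hz₁
    refine (hasDerivAt_integral_of_dominated_loc_of_deriv_le (μ := μ) (F := F)
      (F' := fun z x => (z - (x : ℂ))⁻¹) (bound := fun _ => (δ / 2)⁻¹)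
      (Metric.isOpen_ball.mem_nhds hz₁) (Eventually.of_forall hFm) (hFi z₁ hz₁)
      (Measurable.aestronglyMeasurable (by fun_prop)) (hμ.mono fun x hx z hz => ?_)
      (integrable_const _) (hμ.mono fun x hx z hz => ?_)).2.differentiableAt.differentiableWithinAt
    · rw [norm_inv]; exact inv_anti₀ (by linarith) (hfar2 x hx z hz)
    · have h1 : HasDerivAt (fun z : ℂ => 1 + (z - z₀) / (z₀ - x)) (1 / (z₀ - x)) z :=
        (((hasDerivAt_id z).sub_const z₀).div_const _).const_add 1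
      have h2 := h1.clog (Complex.mem_slitPlane_of_norm_lt_one (by linarith [hsm x hx z hz]))
      have h3 : z - (x : ℂ) ≠ 0 := norm_pos_iff.mp (by linarith [hfar2 x hx z hz])
      have h4 := hne x hx
      have : 1 + (z - z₀) / (z₀ - x) = (z - x) / (z₀ - x) := by field_simp; ring
      have h5 : 1 / (z₀ - x) / (1 + (z - z₀) / (z₀ - x)) = (z - (x : ℂ))⁻¹ := by
        rw [this]; field_simp
      rw [h5] at h2
      exact h2
  have hnb : Metric.ball z₀ (δ / 2) ∈ 𝓝 z₀ := Metric.ball_mem_nhds _ (by linarith)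
  have han := (hdiff.analyticAt hnb).harmonicAt_re.add
    (InnerProductSpace.harmonicAt_const (pot μ z₀))
  refine (InnerProductSpace.harmonicAt_congr_nhds ?_).mp han
  have hint : ∀ z ∈ Metric.ball z₀ (δ / 2), Integrable (fun x : ℝ => Real.log ‖z - (x : ℂ)‖) μ := by
    intro z hz
    refine Integrable.of_bound (meas_lognorm z).aestronglyMeasurable
      (|Real.log (δ / 2)| + |Real.log (‖z‖ + R)|) (hμ.mono fun x hx => ?_)
    have l1 := Real.log_le_log (by linarith) (hfar2 x hx z hz)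
    have l2 : Real.log ‖z - (x : ℂ)‖ ≤ Real.log (‖z‖ + R) :=
      Real.log_le_log (by linarith [hfar2 x hx z hz]) ((norm_sub_le _ _).trans (by
        rw [Complex.norm_real]; linarith [hR x hx]))
    rw [Real.norm_eq_abs, abs_le]
    constructor
    · linarith [neg_abs_le (Real.log (δ / 2)), abs_nonneg (Real.log (‖z‖ + R))]
    · linarith [le_abs_self (Real.log (‖z‖ + R)), abs_nonneg (Real.log (δ / 2))]
  filter_upwards [hnb] with z hz
  have e1 : (∫ x, F z x ∂μ).re = ∫ x, (F z x).re ∂μ := (integral_re (hFi z hz)).symm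
  simp only [Pi.add_apply]
  rw [e1]
  have e2 : ∫ x, (F z x).re ∂μ
      = ∫ x, (Real.log ‖z - (x : ℂ)‖ - Real.log ‖z₀ - (x : ℂ)‖) ∂μ := by
    refine integral_congr_ae (hμ.mono fun x hx => ?_)
    have h4 := hne x hx
    have h3 : z - (x : ℂ) ≠ 0 := norm_pos_iff.mp (by linarith [hfar2 x hx z hz])
    have : 1 + (z - z₀) / (z₀ - x) = (z - x) / (z₀ - x) := by field_simp; ring
    simp only [hF]
    rw [Complex.log_re, this, norm_div,
      Real.log_div (norm_ne_zero_iff.mpr h3) (norm_ne_zero_iff.mpr h4)]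
  rw [e2, integral_sub (hint z hz) (hint z₀ (Metric.mem_ball_self (by linarith)))]
  unfold pot; ring

theorem Good.pot_infty {μ : Measure ℝ} (h : Good μ 2) :
    Tendsto (fun z => pot μ z - Real.log ‖z‖) (Bornology.cobounded ℂ) (𝓝 0) := by
  have := h.prob
  have hn : Tendsto (fun z : ℂ => ‖z‖) (Bornology.cobounded ℂ) atTop := tendsto_norm_cobounded_atTop
  have h0 : Tendsto (fun z : ℂ => 2 / ‖z‖) (Bornology.cobounded ℂ) (𝓝 0) :=
    tendsto_const_nhds.div_atTop hn
  have hl : Tendsto (fun z : ℂ => Real.log (1 - 2 / ‖z‖)) (Bornology.cobounded ℂ) (𝓝 0) := by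
    have := (h0.const_sub 1).log (by norm_num)
    simpa using this
  have hu : Tendsto (fun z : ℂ => Real.log (1 + 2 / ‖z‖)) (Bornology.cobounded ℂ) (𝓝 0) := by
    have := (h0.const_add 1).log (by norm_num)
    simpa using this
  have hb : ∀ z : ℂ, 4 ≤ ‖z‖ → ∀ x ∈ Icc (-2 : ℝ) 2,
      Real.log (‖z‖ - 2) ≤ Real.log ‖z - (x : ℂ)‖ := by
    intro z hz x hx
    refine Real.log_le_log (by linarith) ?_
    have := norm_sub_norm_le z (x : ℂ)
    rw [Complex.norm_real, Real.norm_eq_abs] at this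
    linarith [abs_le.mpr hx]
  have hint : ∀ z : ℂ, 4 ≤ ‖z‖ → Integrable (fun x : ℝ => Real.log ‖z - (x : ℂ)‖) μ := by
    intro z hz
    refine Integrable.of_bound (meas_lognorm z).aestronglyMeasurable (Real.log (‖z‖ + 2))
      (h.supp.mono fun x hx => ?_)
    rw [Real.norm_of_nonneg ((Real.log_nonneg (by linarith)).trans (hb z hz x hx))]
    exact log_norm_le (by norm_num) hx z
  refine tendsto_of_tendsto_of_tendsto_of_le_of_le' hl hu ?_ ?_
  · filter_upwards [hn.eventually_ge_atTop 4] with z hz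
    have e : 1 - 2 / ‖z‖ = (‖z‖ - 2) / ‖z‖ := by field_simp
    rw [e, Real.log_div (by linarith) (by linarith)]
    have := integral_mono_ae (integrable_const (Real.log (‖z‖ - 2))) (hint z hz)
      (h.supp.mono fun x hx => hb z hz x hx)
    simp only [integral_const, probReal_univ, smul_eq_mul, one_mul] at this
    unfold pot; linarith
  · filter_upwards [hn.eventually_ge_atTop 4] with z hz
    have e : 1 + 2 / ‖z‖ = (‖z‖ + 2) / ‖z‖ := by field_simp
    rw [e, Real.log_div (by linarith) (by linarith)]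
    linarith [h.pot_upper (by norm_num) z (hint z hz)]

end Pool.Agent.Lib.MP_4d2d01_an
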