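import Pool.Agent.Lib.MP_4d2d01_an.Coding
import Pool.Agent.Lib.MP_4d2d01_an.PotGen

/-! The Green functions of the Cantor sets. -/

open Polynomial MeasureTheory Set Filter Topology

namespace Pool.Agent.Lib.MP_4d2d01_an

noncomputable def gq (s : ℕ) (z : ℂ) : ℂ := aeval z (Hq (eta s)) / (DD (eta s) : ℂ)

theorem gq_cont (s : ℕ) : Continuous (gq s) :=
  (Polynomial.continuous_aeval _).div_const _

theorem prod_norm (s : ℕ) (z : ℂ) {y : ℝ} (hy : y ∈ Icc (-1 : ℝ) 1) :
    ∏ i, ‖z - (rt (eta s) i y : ℂ)‖ = DD (eta s) * ‖gq s z - (y : ℂ)‖ := by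
  have hD := (small_eta s).DD_pos
  have hD' : (DD (eta s) : ℂ) ≠ 0 := by exact_mod_cast hD.ne'
  rw [← norm_prod, ← (small_eta s).factor_complex, cl_eq hy]
  have : aeval z (Hq (eta s)) - ((DD (eta s) * y : ℝ) : ℂ) = (DD (eta s) : ℂ) * (gq s z - y) := by
    unfold gq; push_cast; field_simp
  rw [this, norm_mul, Complex.norm_real, Real.norm_of_nonneg hD.le]

noncomputable def LL : ℝ := Real.log 256

theorem LL_ge : 2 ≤ LL := by
  unfold LL
  rw [Real.le_log_iff_exp_le (by norm_num)]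
  have := Real.exp_one_lt_d9
  have e : Real.exp 2 = Real.exp 1 * Real.exp 1 := by rw [← Real.exp_add]; norm_num
  rw [e]
  nlinarith [Real.exp_pos 1]

theorem log_eta (s : ℕ) : Real.log (eta s) = -((s + 2) * LL) := by
  unfold eta LL
  rw [Real.log_pow, one_div, Real.log_inv]; push_cast; ring

theorem reg_bound {ε : ℝ} (hε : 0 < ε) (hε1 : ε ≤ 1) (n : ℕ) : ∀ (s : ℕ) (z : ℂ),
    ∫ x, -Real.log (‖z - (x : ℂ)‖ + ε) ∂(mu s) ≤ (3 * s + 10) * LL + (1 / 4) ^ n * -Real.log ε := by
  have hL := LL_ge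
  have hlε : 0 ≤ -Real.log ε := by linarith [Real.log_nonpos hε.le hε1]
  induction n with
  | zero =>
    intro s z
    have := prob_mu s
    have := (good_mu s).integral_mono (cont_reg z hε) (continuous_const (y := -Real.log ε))
      fun x _ => neg_le_neg (Real.log_le_log hε (by linarith [norm_nonneg (z - (x : ℂ))]))
    simp only [integral_const, probReal_univ, smul_eq_mul, one_mul] at this
    have : (0 : ℝ) ≤ (3 * s + 10) * LL := by positivity
    simp only [pow_zero]; linarith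
  | succ n ih =>
    intro s z
    have h := small_eta s
    have hη := h.1
    by_cases hz : 2 ≤ ‖z‖
    · have := prob_mu s
      have := (good_mu s).integral_mono (cont_reg z hε) (continuous_const (y := (0 : ℝ)))
        fun x hx => by
          have := norm_sub_norm_le z (x : ℂ)
          rw [Complex.norm_real, Real.norm_eq_abs] at this
          have := Real.log_nonneg (x := ‖z - (x : ℂ)‖ + ε) (by linarith [abs_le.mpr hx])
          linarith
      simp only [integral_const, smul_zero] at this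
      refine this.trans (by positivity)
    push Not at hz
    rw [rel_mu, Step.integral_pull_cont _ (good_mu (s + 1)) (cont_reg z hε)]
    obtain ⟨i, hi⟩ := h.exists_near z
    have hpt : ∀ y ∈ Icc (-1 : ℝ) 1,
        ∑ j, -Real.log (‖z - (((qstep h).x j y : ℝ) : ℂ)‖ + ε)
          ≤ (7 * s + 17) * LL + -Real.log (‖gq s z - (y : ℂ)‖ + ε) := by
      intro y hy
      change ∑ j, -Real.log (‖z - (rt (eta s) j y : ℂ)‖ + ε) ≤ _
      rw [← Finset.add_sum_erase _ _ (Finset.mem_univ i)]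
      have far : ∑ j ∈ Finset.univ.erase i, -Real.log (‖z - (rt (eta s) j y : ℂ)‖ + ε)
          ≤ ∑ j ∈ Finset.univ.erase i, (s + 3) * LL := by
        refine Finset.sum_le_sum fun j hj => ?_
        have a := hi j (Finset.ne_of_mem_erase hj) y
        have b : Real.log (eta s / 256) ≤ Real.log (‖z - (rt (eta s) j y : ℂ)‖ + ε) :=
          Real.log_le_log (by positivity) (by linarith)
        rw [Real.log_div hη.ne' (by norm_num), log_eta] at b
        unfold LL at *
        linarith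
      have e := prod_norm s z hy
      rw [← Finset.mul_prod_erase _ _ (Finset.mem_univ i)] at e
      have ub : ∏ j ∈ Finset.univ.erase i, ‖z - (rt (eta s) j y : ℂ)‖ ≤ 27 := by
        have : (27 : ℝ) = ∏ j ∈ Finset.univ.erase i, (3 : ℝ) := by simp; norm_num
        rw [this]
        exact Finset.prod_le_prod (fun _ _ => norm_nonneg _) fun j _ => by
          linarith [norm_sub_le_of_mem (h.rt_mem j y) z]
      have h4 : 0 < eta s ^ 4 := by positivity
      have h41 : eta s ^ 4 ≤ 1 := pow_le_one₀ hη.le (by linarith [h.2])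
      have near : eta s ^ 4 * (‖gq s z - (y : ℂ)‖ + ε) ≤ ‖z - (rt (eta s) i y : ℂ)‖ + ε := by
        have a : DD (eta s) * ‖gq s z - (y : ℂ)‖ ≤ ‖z - (rt (eta s) i y : ℂ)‖ * 27 := by
          rw [← e]; gcongr
        unfold DD at a
        nlinarith [mul_nonneg h4.le (norm_nonneg (gq s z - (y : ℂ))), mul_le_mul_of_nonneg_right h41 hε.le]
      have b := Real.log_le_log (by positivity) near
      rw [Real.log_mul h4.ne' (by positivity), Real.log_pow, log_eta] at b
      simp only [Finset.sum_const, Finset.card_erase_of_mem (Finset.mem_univ i), Finset.card_univ,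
        Fintype.card_fin, nsmul_eq_mul] at far
      push_cast at far b
      linarith
    have := prob_mu (s + 1)
    have m := (good_mu (s + 1)).integral_mono
      (continuous_finsetSum _ fun j _ => (cont_reg z hε).comp ((qstep h).cont j))
      (continuous_const.add (cont_reg (gq s z) hε)) hpt
    simp only [Pi.add_apply, Function.comp] at m
    rw [integral_add (integrable_const _) ((good_mu (s + 1)).integrable (cont_reg (gq s z) hε))]
      at m
    simp only [integral_const, probReal_univ, smul_eq_mul, one_mul] at m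
    have i2 := ih (s + 1) (gq s z)
    push_cast at i2 ⊢
    rw [pow_succ]
    have hs : (0 : ℝ) ≤ s * LL := by positivity
    nlinarith

theorem pot_mu_lower (s : ℕ) (z : ℂ) :
    Integrable (fun x : ℝ => Real.log ‖z - (x : ℂ)‖) (mu s) ∧
      -((3 * s + 10) * LL) ≤ pot (mu s) z := by
  have := null_mu s
  refine (good_mu s).pot_lower z _ fun ε hε hε1 => ?_
  have h : Tendsto (fun n : ℕ => (3 * s + 10) * LL + (1 / 4 : ℝ) ^ n * -Real.log ε) atTop
      (𝓝 ((3 * s + 10) * LL + 0 * -Real.log ε)) :=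
    ((tendsto_pow_atTop_nhds_zero_of_lt_one (by norm_num) (by norm_num)).mul_const _).const_add _
  rw [zero_mul, add_zero] at h
  exact ge_of_tendsto' h fun n => reg_bound hε hε1 n s z

theorem pot_mu_rec (s : ℕ) (z : ℂ) :
    pot (mu s) z = 1 / 4 * (Real.log (DD (eta s)) + pot (mu (s + 1)) (gq s z)) := by
  have := null_mu (s + 1)
  have hD := (small_eta s).DD_pos
  have e := ((qstep (small_eta s)).pot_pull (good_mu (s + 1))
    (fun y _ i => by
      have := (small_eta s).rt_mem i y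
      exact ⟨by linarith [show -1 ≤ (qstep (small_eta s)).x i y from this.1],
        by linarith [show (qstep (small_eta s)).x i y ≤ 1 from this.2]⟩) z (gq s z)
    (fun y hy => by
      change ∏ i, ‖z - (rt (eta s) i y : ℂ)‖ = |DD (eta s)| * _
      rw [abs_of_pos hD]; exact prod_norm s z hy) (pot_mu_lower (s + 1) _).1).2
  rw [← rel_mu] at e
  rw [e]
  change _ * (Real.log |DD (eta s)| + _) = _
  rw [abs_of_pos hD]; norm_num

noncomputable def cc (s : ℕ) : ℝ := 4 * LL / 3 * s + (8 * LL - Real.log 512 + 4 * LL / 3) / 3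

theorem log512 : 0 ≤ Real.log 512 ∧ Real.log 512 ≤ 2 * LL := by
  refine ⟨Real.log_nonneg (by norm_num), ?_⟩
  unfold LL
  have : 2 * Real.log 256 = Real.log (256 ^ 2) := by rw [Real.log_pow]; norm_num
  rw [this]
  exact Real.log_le_log (by norm_num) (by norm_num)

theorem cc_pos (s : ℕ) : 0 < cc s := by
  have := LL_ge; have := log512.2
  unfold cc
  have : 0 ≤ 4 * LL / 3 * s := by positivity
  linarith

theorem cc_le (s : ℕ) : cc s ≤ (3 * s + 4) * LL := by
  have := LL_ge; have := log512.1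
  unfold cc
  have : (0 : ℝ) ≤ s * LL := by positivity
  nlinarith

noncomputable def GG (s : ℕ) (z : ℂ) : ℝ := pot (mu s) z + cc s

theorem GG_rec (s : ℕ) (z : ℂ) : GG s z = 1 / 4 * GG (s + 1) (gq s z) := by
  unfold GG
  rw [pot_mu_rec]
  have : Real.log (DD (eta s)) = Real.log 512 - 4 * ((s + 2) * LL) := by
    unfold DD
    rw [Real.log_mul (by norm_num) (pow_ne_zero _ (small_eta s).1.ne'), Real.log_pow, log_eta]
    push_cast; ring
  rw [this]; unfold cc; push_cast; ring

noncomputable def itr : ℕ → ℕ → ℂ → ℂ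
  | 0, _, z => z
  | n + 1, s, z => itr n (s + 1) (gq s z)

theorem itr_cont (n : ℕ) : ∀ s, Continuous (itr n s) := by
  induction n with
  | zero => intro s; exact continuous_id
  | succ n ih => intro s; exact (ih (s + 1)).comp (gq_cont s)

theorem GG_itr (n : ℕ) : ∀ s z, GG s z = (1 / 4) ^ n * GG (s + n) (itr n s z) := by
  induction n with
  | zero => intro s z; simp [itr]
  | succ n ih =>
    intro s z
    rw [GG_rec, ih (s + 1), show s + 1 + n = s + (n + 1) by ring, pow_succ, itr]; ring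

theorem tendsto_lin (s : ℕ) :
    Tendsto (fun n : ℕ => (1 / 4 : ℝ) ^ n * ((3 * ((s + n : ℕ) : ℝ) + 10) * LL)) atTop (𝓝 0) := by
  have h1 := tendsto_self_mul_const_pow_of_lt_one (r := (1 / 4 : ℝ)) (by norm_num) (by norm_num)
  have h2 := tendsto_pow_atTop_nhds_zero_of_lt_one (r := (1 / 4 : ℝ)) (by norm_num) (by norm_num)
  have := (h1.const_mul (3 * LL)).add (h2.const_mul ((3 * s + 10) * LL))
  simp only [mul_zero, add_zero] at this
  refine this.congr fun n => ?_
  push_cast; ring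

theorem GG_nonneg (s : ℕ) (z : ℂ) : 0 ≤ GG s z := by
  have h := (tendsto_lin s).neg
  rw [neg_zero] at h
  refine le_of_tendsto' h fun n => ?_
  rw [GG_itr n, ← mul_neg]
  gcongr
  unfold GG
  linarith [(pot_mu_lower (s + n) (itr n s z)).2, cc_pos (s + n)]

theorem GG_le (s : ℕ) {z : ℂ} (hz : ‖z‖ ≤ 2) : GG s z ≤ (3 * s + 10) * LL := by
  have h1 := (good_mu s).pot_upper le_rfl z (pot_mu_lower s z).1
  have h2 : Real.log (‖z‖ + 1) ≤ LL :=
    Real.log_le_log (by linarith [norm_nonneg z]) (by linarith)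
  have := cc_le s; have := LL_ge
  unfold GG; nlinarith

theorem gq_mem {s : ℕ} {z : ℂ} (hz : z ∈ Complex.ofReal '' KK s) :
    gq s z ∈ Complex.ofReal '' KK (s + 1) := by
  obtain ⟨x, hx, rfl⟩ := hz
  obtain ⟨i, y, hy, rfl⟩ := mem_KK hx
  refine ⟨y, hy, ?_⟩
  have e := prod_norm s (rt (eta s) i y : ℂ) (KK_subset _ hy)
  rw [Finset.prod_eq_zero (Finset.mem_univ i) (by simp)] at e
  have := (mul_eq_zero.mp e.symm).resolve_left (small_eta s).DD_pos.ne'
  exact (sub_eq_zero.mp (norm_eq_zero.mp this)).symm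

theorem itr_mem (n : ℕ) : ∀ {s : ℕ} {z : ℂ}, z ∈ Complex.ofReal '' KK s →
    itr n s z ∈ Complex.ofReal '' KK (s + n) := by
  induction n with
  | zero => intro s z hz; exact hz
  | succ n ih =>
    intro s z hz
    have := ih (gq_mem hz)
    rwa [show s + 1 + n = s + (n + 1) by ring] at this

theorem norm_le_of_mem {s : ℕ} {z : ℂ} (hz : z ∈ Complex.ofReal '' KK s) : ‖z‖ ≤ 1 := by
  obtain ⟨x, hx, rfl⟩ := hz
  rw [Complex.norm_real, Real.norm_eq_abs]; exact abs_le.mpr (KK_subset s hx)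

theorem GG_tendsto {s : ℕ} {ζ : ℂ} (hζ : ζ ∈ Complex.ofReal '' KK s) :
    Tendsto (GG s) (𝓝 ζ) (𝓝 0) := by
  rw [Metric.tendsto_nhds]
  intro ε hε
  obtain ⟨n, hn⟩ := ((tendsto_lin s).eventually (gt_mem_nhds hε)).exists
  have h1 : ∀ᶠ z in 𝓝 ζ, ‖itr n s z‖ < 2 :=
    ((itr_cont n s).norm.tendsto ζ).eventually
      (gt_mem_nhds (by linarith [norm_le_of_mem (itr_mem n hζ)]))
  filter_upwards [h1] with z hz
  rw [Real.dist_eq, sub_zero, abs_of_nonneg (GG_nonneg s z), GG_itr n]
  exact lt_of_le_of_lt (by gcongr; exact GG_le _ hz.le) hn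

theorem GG_zero {s : ℕ} {ζ : ℂ} (hζ : ζ ∈ Complex.ofReal '' KK s) : GG s ζ = 0 :=
  tendsto_nhds_unique (tendsto_pure_nhds _ _) ((GG_tendsto hζ).mono_left (pure_le_nhds ζ))

theorem infDist_step (s : ℕ) (z : ℂ) : 2 * Metric.infDist z (Complex.ofReal '' KK s)
    ≤ Metric.infDist (gq s z) (Complex.ofReal '' KK (s + 1)) := by
  rw [Metric.le_infDist ((KK_nonempty _).image _)]
  rintro _ ⟨y, hy, rfl⟩
  have h := small_eta s
  have hη := h.1
  obtain ⟨i, hi⟩ := h.exists_near z
  have h1 := Metric.infDist_le_dist_of_mem (x := z) (mem_image_of_mem Complex.ofReal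
    (rt_mem_KK s i hy))
  rw [dist_eq_norm] at h1 ⊢
  have e := prod_norm s z (KK_subset _ hy)
  rw [← Finset.mul_prod_erase _ _ (Finset.mem_univ i)] at e
  have lb : (3 / 8 * eta s) ^ 3 ≤ ∏ j ∈ Finset.univ.erase i, ‖z - (rt (eta s) j y : ℂ)‖ := by
    have : (3 / 8 * eta s) ^ 3 = ∏ j ∈ Finset.univ.erase i, (3 / 8 * eta s) := by simp
    rw [this]
    exact Finset.prod_le_prod (fun _ _ => by positivity)
      fun j hj => hi j (Finset.ne_of_mem_erase hj) y
  have h3 : 0 < eta s ^ 3 := by positivity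
  have hD := h.DD_le
  have t1 : ‖z - (rt (eta s) i y : ℂ)‖ * (3 / 8 * eta s) ^ 3
      ≤ eta s ^ 3 / 128 * ‖gq s z - (y : ℂ)‖ :=
    calc _ ≤ ‖z - (rt (eta s) i y : ℂ)‖ *
          ∏ j ∈ Finset.univ.erase i, ‖z - (rt (eta s) j y : ℂ)‖ := by gcongr
      _ = _ := e
      _ ≤ _ := by gcongr
  have t2 : ‖z - (rt (eta s) i y : ℂ)‖ * (27 / 512) ≤ 1 / 128 * ‖gq s z - (y : ℂ)‖ := by
    have : ‖z - (rt (eta s) i y : ℂ)‖ * (27 / 512) * eta s ^ 3
        ≤ 1 / 128 * ‖gq s z - (y : ℂ)‖ * eta s ^ 3 := by nlinarith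
    exact le_of_mul_le_mul_right this h3
  linarith [norm_nonneg (gq s z - (y : ℂ))]

theorem infDist_itr (n : ℕ) : ∀ (s : ℕ) (z : ℂ), 2 ^ n * Metric.infDist z (Complex.ofReal '' KK s)
    ≤ Metric.infDist (itr n s z) (Complex.ofReal '' KK (s + n)) := by
  induction n with
  | zero => intro s z; simp [itr]
  | succ n ih =>
    intro s z
    have a := ih (s + 1) (gq s z)
    have b := infDist_step s z
    rw [show s + 1 + n = s + (n + 1) by ring] at a
    rw [itr, pow_succ, mul_assoc]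
    exact le_trans (by gcongr) a

theorem GG_pos {s : ℕ} {z : ℂ} (hz : z ∉ Complex.ofReal '' KK s) : 0 < GG s z := by
  have hcl : IsClosed (Complex.ofReal '' KK s) :=
    ((KK_compact s).image Complex.continuous_ofReal).isClosed
  have hd := (hcl.notMem_iff_infDist_pos ((KK_nonempty s).image _)).mp hz
  have ht : Tendsto (fun n : ℕ => (2 : ℝ) ^ n * Metric.infDist z (Complex.ofReal '' KK s)) atTop
      atTop := (tendsto_pow_atTop_atTop_of_one_lt (by norm_num)).atTop_mul_const hd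
  obtain ⟨n, hn⟩ := (ht.eventually_ge_atTop 1).exists
  have h1 := hn.trans (infDist_itr n s z)
  rw [GG_itr n]
  have h2 : 0 ≤ pot (mu (s + n)) (itr n s z) := by
    refine integral_nonneg_of_ae ((ae_KK (s + n)).mono fun x hx => Real.log_nonneg ?_)
    rw [← dist_eq_norm]
    exact h1.trans (Metric.infDist_le_dist_of_mem (mem_image_of_mem _ hx))
  have := cc_pos (s + n)
  unfold GG; positivity

theorem pot_nu (z : ℂ) : Integrable (fun x : ℝ => Real.log ‖z - (x : ℂ)‖) nu ∧
    pot nu z + cc 0 / 2 = 1 / 2 * GG 0 (1 - z ^ 2) := by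
  have := null_mu 0
  have e := sstep.pot_pull (good_mu 0) (fun y hy i => by
      have h0 := Real.sqrt_nonneg (1 - y)
      have h1 : √(1 - y) ≤ 2 := Real.sqrt_le_iff.mpr ⟨by norm_num, by linarith [hy.1]⟩
      fin_cases i <;> simp [sstep] <;> constructor <;> linarith) z (1 - z ^ 2)
    (fun y hy => by
      have hs : ((√(1 - y) : ℝ) : ℂ) ^ 2 = 1 - y := by
        exact_mod_cast Real.sq_sqrt (by linarith [hy.2])
      rw [← norm_prod, Fin.prod_univ_two]
      have : (z - (sstep.x 0 y : ℂ)) * (z - (sstep.x 1 y : ℂ)) = -(1 - z ^ 2 - y) := by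
        simp only [sstep, Matrix.cons_val_zero, Matrix.cons_val_one]
        push_cast
        linear_combination -hs
      rw [this, norm_neg]; simp [sstep]) (pot_mu_lower 0 _).1
  refine ⟨e.1, ?_⟩
  rw [nu, e.2]
  simp [sstep, GG]; ring

theorem sq_mem {z : ℂ} : 1 - z ^ 2 ∈ Complex.ofReal '' KK 0 ↔ z ∈ Complex.ofReal '' KF := by
  constructor
  · rintro ⟨y, hy, e⟩
    have hy1 := (KK_subset 0 hy).2
    have hr : √(1 - y) ^ 2 = 1 - y := Real.sq_sqrt (by linarith)
    have hs : ((√(1 - y) : ℝ) : ℂ) ^ 2 = 1 - y := by exact_mod_cast hr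
    have : z ^ 2 = ((√(1 - y) : ℝ) : ℂ) ^ 2 := by rw [hs, e]; ring
    rcases sq_eq_sq_iff_eq_or_eq_neg.mp this with h | h
    · refine ⟨√(1 - y), ?_, h.symm⟩
      change 1 - √(1 - y) ^ 2 ∈ KK 0
      rw [hr]; simpa using hy
    · refine ⟨-√(1 - y), ?_, by rw [h]; simp⟩
      change 1 - (-√(1 - y)) ^ 2 ∈ KK 0
      rw [neg_sq, hr]; simpa using hy
  · rintro ⟨x, hx, rfl⟩
    exact ⟨1 - x ^ 2, hx, by push_cast; ring⟩

theorem pot_nu_on {x : ℝ} (hx : x ∈ KF) : pot nu x = -(cc 0 / 2) := by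
  have e := (pot_nu x).2
  rw [GG_zero (sq_mem.mpr (mem_image_of_mem _ hx))] at e
  linarith

theorem green_KF : ∃ g : ℂ → ℝ,
    InnerProductSpace.HarmonicOnNhd g (Complex.ofReal '' KF)ᶜ ∧
    (∀ z ∈ (Complex.ofReal '' KF)ᶜ, 0 < g z) ∧
    (∃ c : ℝ, Tendsto (fun z => g z - Real.log ‖z‖) (Bornology.cobounded ℂ) (𝓝 c)) ∧
    ∀ ζ ∈ KF, Tendsto g (𝓝[(Complex.ofReal '' KF)ᶜ] (ζ : ℂ)) (𝓝 0) := by
  have := good_nu.prob
  refine ⟨fun z => pot nu z + cc 0 / 2, fun z hz => ?_, fun z hz => ?_, ⟨cc 0 / 2, ?_⟩,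
    fun ζ hζ => ?_⟩
  · exact (harmonic_pot KF_compact ae_KF hz).add (InnerProductSpace.harmonicAt_const _)
  · simp only [(pot_nu z).2]
    have := GG_pos (s := 0) (z := 1 - z ^ 2) fun h => hz (sq_mem.mp h)
    linarith
  · have := good_nu.pot_infty.add_const (cc 0 / 2)
    rw [zero_add] at this
    exact this.congr fun z => by ring
  · simp only [fun z => (pot_nu z).2]
    have h1 := GG_tendsto (sq_mem.mpr (mem_image_of_mem _ hζ))
    have h2 : Tendsto (fun z : ℂ => 1 - z ^ 2) (𝓝 ζ) (𝓝 (1 - (ζ : ℂ) ^ 2)) :=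
      Continuous.tendsto (by fun_prop) _
    have := ((h1.comp h2).const_mul (1 / 2)).mono_left
      (nhdsWithin_le_nhds (s := (Complex.ofReal '' KF)ᶜ))
    simpa using this

end Pool.Agent.Lib.MP_4d2d01_an
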