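import Pool.Agent.Lib.MP_4d2d01_an.Quartic

/-! One-step inequalities for norms of monic orthogonal polynomials. -/

open Polynomial MeasureTheory Set

namespace Pool.Agent.Lib.MP_4d2d01_an

theorem Step.mom_pull_le {d : ℕ} (S : Step d) {μ : Measure ℝ} {r : ℝ} (h : Good μ 1)
    (h' : Good (S.pull μ) r) (q ρ : ℝ[X])
    (hq : ∀ y ∈ Icc (-1 : ℝ) 1, ∑ i, q.eval (S.x i y) ≤ ρ.eval y) :
    mom (S.pull μ) q ≤ (d : ℝ)⁻¹ * mom μ ρ := by
  rw [h'.mom_apply, h.mom_apply, S.integral_pull_cont h q.continuous]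
  refine mul_le_mul_of_nonneg_left (h.integral_mono ?_ ρ.continuous hq) (by positivity)
  exact continuous_finsetSum _ fun i _ => q.continuous.comp (S.cont i)

theorem Step.mom_pull_ge {d : ℕ} (S : Step d) {μ : Measure ℝ} {r : ℝ} (h : Good μ 1)
    (h' : Good (S.pull μ) r) (q ρ : ℝ[X])
    (hq : ∀ y ∈ Icc (-1 : ℝ) 1, ρ.eval y ≤ ∑ i, q.eval (S.x i y)) :
    (d : ℝ)⁻¹ * mom μ ρ ≤ mom (S.pull μ) q := by
  rw [h'.mom_apply, h.mom_apply, S.integral_pull_cont h q.continuous]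
  refine mul_le_mul_of_nonneg_left (h.integral_mono ρ.continuous ?_ hq) (by positivity)
  exact continuous_finsetSum _ fun i _ => q.continuous.comp (S.cont i)

namespace Small

variable {η : ℝ} (h : Small η)
include h

theorem wg_sq_cluster (y : ℝ) {i : Fin 4} (hi : i ≠ 3) : η ^ 4 / 4 ≤ wg η i y ^ 2 := by
  have h1 := h.1; have h2 := h.2
  obtain ⟨a0, a1, a2, a3, a4, a5, a6, a7⟩ := h.loc y
  have key : ∀ u v w : ℝ, 3 / 4 * η ≤ u → η ≤ v → 3 / 4 ≤ w → η ^ 4 / 4 ≤ (u * v * w) ^ 2 := by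
    intro u v w hu hv hw
    have : η ^ 2 / 2 ≤ u * v * w := by
      have hu0 : 0 ≤ u := by linarith
      have hv0 : 0 ≤ v := by linarith
      have : 3 / 4 * η * η * (3 / 4) ≤ u * v * w := by gcongr
      nlinarith
    calc η ^ 4 / 4 = (η ^ 2 / 2) ^ 2 := by ring
      _ ≤ _ := by gcongr
  unfold wg
  fin_cases i
  · have e : (Finset.univ.erase (0 : Fin 4)) = {1, 2, 3} := by decide
    simp only [Fin.zero_eta, e]
    rw [Finset.prod_insert (by decide), Finset.prod_pair (by decide)]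
    have := key (rt η 1 y - rt η 0 y) (rt η 2 y - rt η 0 y) (rt η 3 y - rt η 0 y)
      (by linarith) (by linarith) (by linarith)
    linarith [this]
  · have e : (Finset.univ.erase (1 : Fin 4)) = {0, 2, 3} := by decide
    simp only [Fin.mk_one, e]
    rw [Finset.prod_insert (by decide), Finset.prod_pair (by decide)]
    have := key (rt η 1 y - rt η 0 y) (rt η 2 y - rt η 1 y) (rt η 3 y - rt η 1 y)
      (by linarith) (by linarith) (by linarith)
    linarith [this]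
  · have e : (Finset.univ.erase (2 : Fin 4)) = {0, 1, 3} := by decide
    simp only [Fin.reduceFinMk, e]
    rw [Finset.prod_insert (by decide), Finset.prod_pair (by decide)]
    have := key (rt η 2 y - rt η 0 y) (rt η 2 y - rt η 1 y) (rt η 3 y - rt η 2 y)
      (by linarith) (by linarith) (by linarith)
    linarith [this]
  · exact absurd rfl hi

theorem wg_sq_top (y : ℝ) : 1 / 8 ≤ wg η 3 y ^ 2 := by
  have h1 := h.1; have h2 := h.2
  obtain ⟨a0, a1, a2, a3, a4, a5, a6, a7⟩ := h.loc y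
  unfold wg
  have e : (Finset.univ.erase (3 : Fin 4)) = {0, 1, 2} := by decide
  rw [e, Finset.prod_insert (by decide), Finset.prod_pair (by decide)]
  have : 3 / 4 * (3 / 4 * (3 / 4)) ≤
      (rt η 3 y - rt η 0 y) * ((rt η 3 y - rt η 1 y) * (rt η 3 y - rt η 2 y)) := by
    gcongr <;> linarith
  nlinarith

theorem wg_sq (y : ℝ) (i : Fin 4) : η ^ 4 / 4 ≤ wg η i y ^ 2 := by
  by_cases hi : i = 3
  · subst hi
    have := h.wg_sq_top y
    have h1 := h.1; have h2 := h.2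
    have : η ^ 4 ≤ (1 / 2) ^ 4 := by gcongr; linarith
    linarith
  · exact h.wg_sq_cluster y hi

theorem rel {y : ℝ} (hy : y ∈ Icc (-1 : ℝ) 1) (i : Fin 4) :
    (1 - rt η i y) * (rt η i y * (rt η i y ^ 2 - η ^ 2)) = DD η * (1 - y) := by
  have := h.eval_rt y i
  rw [eval_Hq, cl_eq hy] at this
  linarith

theorem r1_le (y : ℝ) (i : Fin 4) : rt η i y * (rt η i y ^ 2 - η ^ 2) ≤ 1 := by
  have h1 := h.1; have h2 := h.2
  obtain ⟨a, b⟩ := h.rt_mem i y
  set x := rt η i y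
  have hη : η ^ 2 ≤ 1 := by nlinarith
  rcases le_total 0 x with hx | hx
  · have : x * x ^ 2 ≤ 1 := by nlinarith [mul_le_one₀ b hx b]
    nlinarith [mul_nonneg hx (sq_nonneg η)]
  · nlinarith [mul_nonneg (neg_nonneg.mpr hx) (sq_nonneg x), sq_nonneg η]

theorem top_ge {y : ℝ} (hy : y ∈ Icc (-1 : ℝ) 1) : DD η * (1 - y) ≤ 1 - rt η 3 y := by
  rw [← h.rel hy 3]
  have := h.r1_le y 3
  have := (h.loc y).u3
  nlinarith

theorem top_le {y : ℝ} (hy : y ∈ Icc (-1 : ℝ) 1) : 1 - rt η 3 y ≤ η ^ 2 := by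
  have h1 := h.1; have h2 := h.2
  have e := h.rel hy 3
  have a6 := (h.loc y).l3
  have a7 := (h.loc y).u3
  have hD := h.DD_le
  have hD0 := h.DD_pos
  set x := rt η 3 y
  have hη : η ^ 2 ≤ 1 / 100 := by nlinarith
  have hr : 1 / 2 ≤ x * (x ^ 2 - η ^ 2) := by
    have : 7 / 8 * (3 / 4) ≤ x * (x ^ 2 - η ^ 2) := by gcongr; nlinarith
    linarith
  have e2 : (1 - x) * (1 / 2) ≤ DD η * 2 := by
    calc (1 - x) * (1 / 2) ≤ (1 - x) * (x * (x ^ 2 - η ^ 2)) := by gcongr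
      _ = DD η * (1 - y) := e
      _ ≤ DD η * 2 := by gcongr; linarith [hy.1]
  have : η ^ 3 ≤ η ^ 2 := by nlinarith
  linarith

theorem cluster_bd (y : ℝ) {i : Fin 4} (hi : i ≠ 3) :
    rt η i y ^ 2 ≤ 81 / 64 * η ^ 2 ∧ 1 / 2 ≤ 1 - rt η i y ∧ 1 - rt η i y ≤ 9 / 8 := by
  have h1 := h.1; have h2 := h.2
  obtain ⟨a0, a1, a2, a3, a4, a5, a6, a7⟩ := h.loc y
  fin_cases i <;> simp only [Fin.zero_eta, Fin.mk_one, Fin.reduceFinMk] at * <;>
    first | exact absurd rfl hi | refine ⟨by nlinarith, by linarith, by linarith⟩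

theorem r_bd {y : ℝ} (hy : y ∈ Icc (-1 : ℝ) 1) (i : Fin 4) :
    0 ≤ (1 - rt η i y) * rt η i y ^ 2 ∧ (1 - rt η i y) * rt η i y ^ 2 ≤ 2 * η ^ 2 := by
  have h1 := h.1
  obtain ⟨a, b⟩ := h.rt_mem i y
  refine ⟨mul_nonneg (by linarith) (sq_nonneg _), ?_⟩
  by_cases hi : i = 3
  · subst hi
    have := h.top_le hy
    have : rt η 3 y ^ 2 ≤ 1 := by nlinarith
    nlinarith [sq_nonneg η]
  · obtain ⟨c1, c2, c3⟩ := h.cluster_bd y hi
    calc (1 - rt η i y) * rt η i y ^ 2 ≤ 9 / 8 * (81 / 64 * η ^ 2) := by gcongr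
      _ ≤ _ := by nlinarith [sq_nonneg η]

end Small

section Steps

variable {η : ℝ} (h : Small η) {μ : Measure ℝ} (hμ : Good μ 1) [NullSingletonClass μ]
  [NullSingletonClass ((qstep h).pull μ)]
include hμ

omit [NullSingletonClass μ] [NullSingletonClass ((qstep h).pull μ)] in
theorem good_q : Good ((qstep h).pull μ) 1 :=
  (qstep h).good_pull hμ fun y _ i => h.rt_mem i y

theorem ineq_U1 (k : ℕ) :
    NN (mom ((qstep h).pull μ)) (4 * k + 3) ≤ 4 * η ^ 4 * DD η ^ (2 * k) * NN (mom μ) k := by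
  have hg := good_q h hμ
  set p := OP (mom μ) k
  have hp : IsOP (mom μ) k p := OP_isOP hμ.posDef k
  have hr : ((X - C 1) * X ^ 2 : ℝ[X]).Monic := by monicity!
  have hrd : ((X - C 1) * X ^ 2 : ℝ[X]).natDegree = 3 := by compute_degree!
  have hm := (qstep h).monic_lift hp.1 hp.2.1
  refine (NN_le hg.posDef (hm.mul hr) (by
    rw [hm.natDegree_mul hr, (qstep h).natDegree_lift hp.2.1, hrd])).trans ?_
  refine ((qstep h).mom_pull_le hμ hg _ (C (16 * η ^ 4 * DD η ^ (2 * k)) * (p * p)) ?_).trans ?_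
  · intro y hy
    have : ∀ i : Fin 4, ((qstep h).lift k p * ((X - C 1) * X ^ 2) *
        ((qstep h).lift k p * ((X - C 1) * X ^ 2))).eval ((qstep h).x i y)
        ≤ 4 * η ^ 4 * DD η ^ (2 * k) * (p.eval y * p.eval y) := by
      intro i
      simp only [eval_mul, (qstep h).eval_lift k p hy, eval_sub, eval_X, eval_C, eval_pow]
      obtain ⟨b1, b2⟩ := h.r_bd hy i
      have b3 : ((1 - rt η i y) * rt η i y ^ 2) ^ 2 ≤ (2 * η ^ 2) ^ 2 := by gcongr
      change DD η ^ k * p.eval y * ((rt η i y - 1) * rt η i y ^ 2) *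
        (DD η ^ k * p.eval y * ((rt η i y - 1) * rt η i y ^ 2)) ≤ _
      calc _ = (DD η ^ k * p.eval y) ^ 2 * ((1 - rt η i y) * rt η i y ^ 2) ^ 2 := by ring
        _ ≤ (DD η ^ k * p.eval y) ^ 2 * (2 * η ^ 2) ^ 2 := by gcongr
        _ = _ := by ring
    refine (Finset.sum_le_sum fun i _ => this i).trans (le_of_eq ?_)
    simp; ring
  · rw [fnl_C_mul]; unfold NN; apply le_of_eq; push_cast; ring

theorem ineq_L1 (k : ℕ) :
    η ^ 4 * DD η ^ (2 * k) * NN (mom μ) k ≤ 64 * NN (mom ((qstep h).pull μ)) (4 * k + 3) := by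
  have hg := good_q h hμ
  set q := OP (mom ((qstep h).pull μ)) (4 * k + 3)
  have hq : IsOP _ (4 * k + 3) q := OP_isOP hg.posDef _
  obtain ⟨ρ, hρm, hρd, hρ⟩ := h.wtransfer_monic hq.1 hq.2.1
  have h1 := NN_le hμ.posDef hρm hρd
  have h2 := (qstep h).mom_pull_ge hμ hg (q * q) (C (η ^ 4 * DD η ^ (2 * k) / 16) * (ρ * ρ)) (by
    intro y hy
    have e := hρ y hy
    have hη : 0 < η ^ 4 := by have := h.1; positivity
    have b : ∀ i : Fin 4, η ^ 4 * (q.eval (rt η i y) / wg η i y) ^ 2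
        ≤ 4 * (q.eval (rt η i y) * q.eval (rt η i y)) := by
      intro i
      have w1 := h.wg_sq y i
      have w2 : 0 < wg η i y ^ 2 := lt_of_lt_of_le (by positivity) w1
      rw [div_pow, ← mul_div_assoc, div_le_iff₀ w2]
      nlinarith [sq_nonneg (q.eval (rt η i y))]
    simp only [eval_mul, eval_C, Fin.sum_univ_four] at e ⊢
    have b0 := b 0; have b1 := b 1; have b2 := b 2; have b3 := b 3
    change _ ≤ q.eval (rt η 0 y) * q.eval (rt η 0 y) + q.eval (rt η 1 y) * q.eval (rt η 1 y)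
      + q.eval (rt η 2 y) * q.eval (rt η 2 y) + q.eval (rt η 3 y) * q.eval (rt η 3 y)
    set s0 := q.eval (rt η 0 y) / wg η 0 y
    set s1 := q.eval (rt η 1 y) / wg η 1 y
    set s2 := q.eval (rt η 2 y) / wg η 2 y
    set s3 := q.eval (rt η 3 y) / wg η 3 y
    have cs : (s0 + s1 + s2 + s3) ^ 2 ≤ 4 * (s0 ^ 2 + s1 ^ 2 + s2 ^ 2 + s3 ^ 2) := by
      nlinarith [sq_nonneg (s0 - s1), sq_nonneg (s0 - s2), sq_nonneg (s0 - s3), sq_nonneg (s1 - s2),
        sq_nonneg (s1 - s3), sq_nonneg (s2 - s3)]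
    have e2 : η ^ 4 * DD η ^ (2 * k) / 16 * (ρ.eval y * ρ.eval y)
        = η ^ 4 * (s0 + s1 + s2 + s3) ^ 2 / 16 := by rw [e]; ring
    rw [e2]
    nlinarith)
  rw [fnl_C_mul] at h2
  have h3 : 0 ≤ η ^ 4 * DD η ^ (2 * k) := by have := h.1; have := h.DD_pos; positivity
  have h4 := mul_le_mul_of_nonneg_left h1 h3
  unfold NN at *
  push_cast at h2
  linarith

theorem ineq_U2 (k : ℕ) :
    NN (wt (mom ((qstep h).pull μ))) (4 * k + 3) ≤ DD η ^ (2 * k + 1) * NN (wt (mom μ)) k := by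
  have hg := good_q h hμ
  set p := OP (wt (mom μ)) k
  have hp : IsOP (wt (mom μ)) k p := OP_isOP hμ.posDef_wt k
  have hr : (X * (X ^ 2 - C (η ^ 2)) : ℝ[X]).Monic := by monicity!
  have hrd : (X * (X ^ 2 - C (η ^ 2)) : ℝ[X]).natDegree = 3 := by compute_degree!
  have hm := (qstep h).monic_lift hp.1 hp.2.1
  refine (NN_le hg.posDef_wt (hm.mul hr) (by
    rw [hm.natDegree_mul hr, (qstep h).natDegree_lift hp.2.1, hrd])).trans ?_
  rw [wt_apply]
  refine ((qstep h).mom_pull_le hμ hg _ (C (4 * DD η ^ (2 * k + 1)) * ((1 - X) * (p * p)))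
    ?_).trans ?_
  · intro y hy
    have : ∀ i : Fin 4, ((1 - X) * ((qstep h).lift k p * (X * (X ^ 2 - C (η ^ 2))) *
        ((qstep h).lift k p * (X * (X ^ 2 - C (η ^ 2)))))).eval ((qstep h).x i y)
        ≤ DD η ^ (2 * k + 1) * ((1 - y) * (p.eval y * p.eval y)) := by
      intro i
      simp only [eval_mul, (qstep h).eval_lift k p hy, eval_sub, eval_X, eval_C, eval_pow, eval_one]
      have b1 := h.rel hy i
      have b2 := h.r1_le y i
      have b3 : 0 ≤ DD η * (1 - y) := mul_nonneg h.DD_pos.le (by linarith [hy.2])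
      change (1 - rt η i y) * (DD η ^ k * p.eval y * (rt η i y * (rt η i y ^ 2 - η ^ 2)) *
        (DD η ^ k * p.eval y * (rt η i y * (rt η i y ^ 2 - η ^ 2)))) ≤ _
      calc _ = (DD η ^ k * p.eval y) ^ 2 * ((1 - rt η i y) * (rt η i y * (rt η i y ^ 2 - η ^ 2)))
            * (rt η i y * (rt η i y ^ 2 - η ^ 2)) := by ring
        _ ≤ (DD η ^ k * p.eval y) ^ 2 * (DD η * (1 - y)) * 1 := by rw [b1]; gcongr
        _ = _ := by ring
    refine (Finset.sum_le_sum fun i _ => this i).trans (le_of_eq ?_)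
    simp; ring
  · rw [fnl_C_mul]; unfold NN; rw [wt_apply]; apply le_of_eq; push_cast; ring

omit hμ [NullSingletonClass μ] in
theorem young (a b w l m : ℝ) (hl : 0 < l) (hm : 0 < m) (hw : m ≤ w ^ 2) :
    a / w * b ≤ l / 2 * a ^ 2 + b ^ 2 / (2 * l * m) := by
  have hw2 : 0 < w ^ 2 := lt_of_lt_of_le hm hw
  have h1 : a / w * b ≤ l / 2 * a ^ 2 + (b / w) ^ 2 / (2 * l) := by
    have : a / w * b = a * (b / w) := by ring
    rw [this]
    have e : l / 2 * a ^ 2 + (b / w) ^ 2 / (2 * l) - a * (b / w) = (l * a - b / w) ^ 2 / (2 * l) := by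
      field_simp; ring
    have : 0 ≤ (l * a - b / w) ^ 2 / (2 * l) := by positivity
    linarith
  refine h1.trans ?_
  rw [div_pow, div_div]
  gcongr _ + ?_
  rw [mul_comm (w ^ 2)]
  gcongr

theorem ineq_L2 (k : ℕ) :
    DD η ^ (2 * k) * NN (wt (mom μ)) k ^ 2 ≤ 8 * NN (wt (mom ((qstep h).pull μ))) (4 * k + 3) *
      (12 / η ^ 4 * (NN (wt (mom μ)) k ^ 2 / NN (mom μ) k + NN (mom μ) (k + 1))
        + 4 / DD η * NN (wt (mom μ)) k) := by
  have hg := good_q h hμ
  set q := OP (wt (mom ((qstep h).pull μ))) (4 * k + 3) with hqdef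
  have hq : IsOP _ (4 * k + 3) q := OP_isOP hg.posDef_wt _
  obtain ⟨ρ, hρm, hρd, hρ⟩ := h.wtransfer_monic hq.1 hq.2.1
  set v := OP (wt (mom μ)) k with hvdef
  have hv : IsOP (wt (mom μ)) k v := OP_isOP hμ.posDef_wt k
  have hU := wt_sq hμ.posDef hμ.posDef_wt k
  rw [← hU, ← hvdef]
  set Q' := NN (wt (mom μ)) k with hQ'
  set Q := NN (wt (mom ((qstep h).pull μ))) (4 * k + 3) with hQ
  set U := mom μ ((1 - X) * v * ((1 - X) * v)) with hUdef
  have hQ'pos : 0 < Q' := NN_pos hμ.posDef_wt k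
  have hQpos : 0 < Q := NN_pos hg.posDef_wt _
  have hD := h.DD_pos
  have hη : 0 < η ^ 4 := by have := h.1; positivity
  have main : ∀ l : ℝ, 0 < l → DD η ^ k * Q' ≤ 2 * l * Q + (12 / η ^ 4 * U + 4 / DD η * Q') / l := by
    intro l hl
    have h2 := (qstep h).mom_pull_ge hμ hg (C (l / 2) * ((1 - X) * (q * q)))
      (C (DD η ^ k) * ((1 - X) * (v * ρ)) - C (12 / η ^ 4 / l) * ((1 - X) * v * ((1 - X) * v))
        - C (4 / DD η / l) * ((1 - X) * (v * v))) (by
      intro y hy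
      have e := hρ y hy
      have hy1 : 0 ≤ 1 - y := by linarith [hy.2]
      have b : ∀ i : Fin 4, i ≠ 3 → q.eval (rt η i y) / wg η i y * ((1 - y) * v.eval y)
          ≤ l / 2 * ((1 - rt η i y) * (q.eval (rt η i y) * q.eval (rt η i y)))
            + 4 / η ^ 4 / l * ((1 - y) * v.eval y) ^ 2 := by
        intro i hi
        have y1 := young (q.eval (rt η i y)) ((1 - y) * v.eval y) (wg η i y) (l / 2) (η ^ 4 / 4)
          (by positivity) (by positivity) (h.wg_sq_cluster y hi)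
        obtain ⟨-, c2, -⟩ := h.cluster_bd y hi
        have e1 : ((1 - y) * v.eval y) ^ 2 / (2 * (l / 2) * (η ^ 4 / 4))
            = 4 / η ^ 4 / l * ((1 - y) * v.eval y) ^ 2 := by field_simp
        rw [e1] at y1
        have : l / 2 / 2 * q.eval (rt η i y) ^ 2
            ≤ l / 2 * ((1 - rt η i y) * (q.eval (rt η i y) * q.eval (rt η i y))) := by
          have := mul_le_mul_of_nonneg_right c2 (mul_nonneg (half_pos hl).le
            (sq_nonneg (q.eval (rt η i y))))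
          nlinarith
        linarith
      have b3 : q.eval (rt η 3 y) / wg η 3 y * ((1 - y) * v.eval y)
          ≤ l / 2 * ((1 - rt η 3 y) * (q.eval (rt η 3 y) * q.eval (rt η 3 y)))
            + 4 / DD η / l * ((1 - y) * (v.eval y * v.eval y)) := by
        have y1 := young (q.eval (rt η 3 y)) (v.eval y) (wg η 3 y) (l * DD η) (1 / 8)
          (by positivity) (by positivity) (h.wg_sq_top y)
        have y2 := mul_le_mul_of_nonneg_left y1 hy1
        have t := h.top_ge hy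
        have e1 : (1 - y) * (v.eval y ^ 2 / (2 * (l * DD η) * (1 / 8)))
            = 4 / DD η / l * ((1 - y) * (v.eval y * v.eval y)) := by field_simp; ring
        have : (1 - y) * (l * DD η / 2 * q.eval (rt η 3 y) ^ 2)
            ≤ l / 2 * ((1 - rt η 3 y) * (q.eval (rt η 3 y) * q.eval (rt η 3 y))) := by
          have := mul_le_mul_of_nonneg_right t (mul_nonneg (half_pos hl).le
            (sq_nonneg (q.eval (rt η 3 y))))
          nlinarith
        rw [mul_add, e1] at y2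
        nlinarith
      have b0 := b 0 (by decide); have b1 := b 1 (by decide); have b2 := b 2 (by decide)
      simp only [eval_mul, eval_C, eval_sub, eval_one, eval_X, Fin.sum_univ_four] at e ⊢
      change _ ≤ l / 2 * ((1 - rt η 0 y) * (q.eval (rt η 0 y) * q.eval (rt η 0 y)))
        + l / 2 * ((1 - rt η 1 y) * (q.eval (rt η 1 y) * q.eval (rt η 1 y)))
        + l / 2 * ((1 - rt η 2 y) * (q.eval (rt η 2 y) * q.eval (rt η 2 y)))
        + l / 2 * ((1 - rt η 3 y) * (q.eval (rt η 3 y) * q.eval (rt η 3 y)))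
      have e2 : DD η ^ k * ((1 - y) * (v.eval y * ρ.eval y))
          = (DD η ^ k * ρ.eval y) * ((1 - y) * v.eval y) := by ring
      rw [e2, ← e]
      have e3 : 12 / η ^ 4 / l * ((1 - y) * v.eval y * ((1 - y) * v.eval y))
          = 3 * (4 / η ^ 4 / l * ((1 - y) * v.eval y) ^ 2) := by ring
      rw [e3]
      linarith)
    rw [map_sub, map_sub, fnl_C_mul, fnl_C_mul, fnl_C_mul, fnl_C_mul, ← wt_apply, ← wt_apply,
      ← wt_apply, hv.pair_monic hρm hρd] at h2
    have e1 : wt (mom μ) (v * v) = Q' := rfl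
    have e2 : wt (mom ((qstep h).pull μ)) (q * q) = Q := rfl
    rw [e1, e2, ← hUdef] at h2
    push_cast at h2
    have e3 : (12 / η ^ 4 * U + 4 / DD η * Q') / l = 12 / η ^ 4 / l * U + 4 / DD η / l * Q' := by
      ring
    rw [e3]; linarith
  have hc : 0 < DD η ^ k * Q' := by positivity
  have := main (DD η ^ k * Q' / (4 * Q)) (by positivity)
  set B := 12 / η ^ 4 * U + 4 / DD η * Q'
  have e1 : 2 * (DD η ^ k * Q' / (4 * Q)) * Q = DD η ^ k * Q' / 2 := by field_simp; ring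
  have e2 : B / (DD η ^ k * Q' / (4 * Q)) = 4 * Q * B / (DD η ^ k * Q') := by field_simp
  rw [e1, e2] at this
  have t : DD η ^ k * Q' / 2 ≤ 4 * Q * B / (DD η ^ k * Q') := by linarith
  rw [le_div_iff₀ hc] at t
  calc DD η ^ (2 * k) * Q' ^ 2 = 2 * (DD η ^ k * Q' / 2 * (DD η ^ k * Q')) := by ring
    _ ≤ 2 * (4 * Q * B) := by gcongr
    _ = _ := by ring

theorem eq_E (k : ℕ) :
    NN (mom ((qstep h).pull μ)) (4 * k + 3 + 1) = DD η ^ (2 * k + 2) * NN (mom μ) (k + 1) := by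
  have hg := good_q h hμ
  have hp := (qstep h).isOP_lift hμ hg (OP_isOP hμ.posDef (k + 1))
  rw [show 4 * k + 3 + 1 = 4 * (k + 1) by ring, hp.NN_eq hg.posDef, (qstep h).mom_pull_lift hμ hg]
  unfold NN
  congr 1
  change DD η ^ _ = _
  ring

end Steps

end Pool.Agent.Lib.MP_4d2d01_an
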