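import Pool.Agent.Lib.MP_4d2d01_an.OP
import Pool.Agent.Lib.MP_4d2d01_an.Defs

/-! The restart property after a vanishing off-diagonal entry, and the almost period argument. -/

open Polynomial Filter Topology
open scoped BoundedContinuousFunction InnerProductSpace

namespace Pool.Agent.Lib.MP_4d2d01_an

/-- Jacobi data for a functional. -/
structure JData (L : Fnl) (p : ℕ → ℝ[X]) (a b : ℕ → ℝ) : Prop where
  deg : ∀ n, (p n).degree = n ∧ 0 < (p n).leadingCoeff
  orth : ∀ m n, L (p m * p n) = if m = n then 1 else 0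
  pos : ∀ n, 1 ≤ n → 0 < a n
  rec0 : X * p 0 = C (a 1) * p 1 + C (b 1) * p 0
  recS : ∀ n, 1 ≤ n → X * p n = C (a (n + 1)) * p (n + 1) + C (b (n + 1)) * p n + C (a n) * p (n - 1)

theorem JData.rec' {L : Fnl} {p : ℕ → ℝ[X]} {a b : ℕ → ℝ} (h : JData L p a b) (n : ℕ) :
    X * p n = C (a (n + 1)) * p (n + 1) + C (b (n + 1)) * p n
      + C (if n = 0 then 0 else a n) * p (n - 1) := by
  rcases Nat.eq_zero_or_pos n with rfl | hn
  · simpa using h.rec0
  · rw [if_neg hn.ne']; exact h.recS n hn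

theorem JData.b_eq {L : Fnl} {p : ℕ → ℝ[X]} {a b : ℕ → ℝ} (h : JData L p a b) (n : ℕ) :
    L (X * p n * p n) = b (n + 1) := by
  rw [h.rec' n, add_mul, add_mul, mul_assoc, mul_assoc, mul_assoc, map_add, map_add,
    fnl_C_mul, fnl_C_mul, fnl_C_mul, h.orth, h.orth, h.orth]
  rcases Nat.eq_zero_or_pos n with rfl | hn
  · simp
  · have : n - 1 ≠ n := by omega
    simp [this]

theorem JData.p_zero {L : Fnl} {p : ℕ → ℝ[X]} {a b : ℕ → ℝ} (h : JData L p a b)
    (h1 : L 1 = 1) : p 0 = 1 := by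
  have hd := (h.deg 0).1
  have hc : p 0 = C ((p 0).coeff 0) := eq_C_of_degree_eq_zero (by simpa using hd)
  have hpos := (h.deg 0).2
  have ho := h.orth 0 0
  set c := (p 0).coeff 0
  rw [hc] at hpos ho ⊢
  simp only [leadingCoeff_C, if_true] at hpos ho
  rw [← mul_one (C c * C c), mul_assoc, fnl_C_mul, fnl_C_mul, h1] at ho
  have : c = 1 := by nlinarith
  rw [this]; simp

theorem smul_tendsto_zero {H : Type*} [SeminormedAddCommGroup H] [NormedSpace ℝ H]
    {c : ℕ → ℝ} {x : ℕ → H} (hc : Tendsto c atTop (𝓝 0)) (M : ℝ)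
    (hx : ∀ᶠ t in atTop, ‖x t‖ ≤ M) : Tendsto (fun t => c t • x t) atTop (𝓝 0) := by
  rw [tendsto_zero_iff_norm_tendsto_zero]
  have h1 : Tendsto (fun t => ‖c t‖ * M) atTop (𝓝 0) := by
    simpa using (tendsto_zero_iff_norm_tendsto_zero.mp hc).mul_const M
  refine squeeze_zero' (Eventually.of_forall fun _ => norm_nonneg _) ?_ h1
  filter_upwards [hx] with t ht
  rw [norm_smul]; gcongr

theorem inner_tendsto_zero {H : Type*} [SeminormedAddCommGroup H] [InnerProductSpace ℝ H]
    {x y : ℕ → H} (hc : Tendsto x atTop (𝓝 0)) (M : ℝ)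
    (hy : ∀ᶠ t in atTop, ‖y t‖ ≤ M) : Tendsto (fun t => ⟪x t, y t⟫_ℝ) atTop (𝓝 0) := by
  rw [tendsto_zero_iff_norm_tendsto_zero]
  have h1 : Tendsto (fun t => ‖x t‖ * M) atTop (𝓝 0) := by
    simpa using (tendsto_zero_iff_norm_tendsto_zero.mp hc).mul_const M
  refine squeeze_zero' (Eventually.of_forall fun _ => norm_nonneg _) ?_ h1
  filter_upwards [hy] with t ht
  exact (norm_inner_le_norm _ _).trans (by gcongr)

theorem restart_aux {H : Type*} [SeminormedAddCommGroup H] [InnerProductSpace ℝ H]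
    (T : ℝ[X] →ₗ[ℝ] H) {L : Fnl} (hT : ∀ p q, ⟪T p, T q⟫_ℝ = L (p * q))
    (hX : ∀ p, ‖T (X * p)‖ ≤ 2 * ‖T p‖) (h1 : L 1 = 1)
    {p : ℕ → ℝ[X]} {a b : ℕ → ℝ} (h : JData L p a b) (n : ℕ → ℕ) (hn : ∀ t, 1 ≤ n t)
    (ha : Tendsto (fun t => a (n t)) atTop (𝓝 0))
    (hmom : ∀ q : ℝ[X], ∀ᶠ t in atTop, L (q * (p (n t) * p (n t))) = L q) (j : ℕ) :
    Tendsto (fun t => a (n t + j + 1)) atTop (𝓝 (a (j + 1))) := by
  have hnorm : ∀ q : ℝ[X], L (q * q) = 1 → ‖T q‖ = 1 := by
    intro q hq
    have := real_inner_self_eq_norm_sq (T q)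
    rw [hT, hq] at this
    have h0 := norm_nonneg (T q)
    nlinarith
  have hE : ∀ m, ‖T (p m)‖ = 1 := fun m => hnorm _ (by rw [h.orth]; simp)
  have hV : ∀ j, ∀ᶠ t in atTop, ‖T (p j * p (n t))‖ = 1 := by
    intro j
    filter_upwards [hmom (p j * p j)] with t ht
    apply hnorm
    rw [show p j * p (n t) * (p j * p (n t)) = p j * p j * (p (n t) * p (n t)) by ring, ht, h.orth]
    simp
  have hTC : ∀ (c : ℝ) (q : ℝ[X]), T (C c * q) = c • T q := by
    intro c q; rw [← smul_eq_C_mul, map_smul]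
  -- invariant
  let I : ℕ → Prop := fun j =>
    Tendsto (fun t => T (p (n t + j)) - T (p j * p (n t))) atTop (𝓝 0) ∧
    Tendsto (fun t => a (n t + j) • T (p (n t + j - 1))
      - (if j = 0 then 0 else a j) • T (p (j - 1) * p (n t))) atTop (𝓝 0)
  have step : ∀ j, I j → Tendsto (fun t => a (n t + j + 1)) atTop (𝓝 (a (j + 1))) ∧ I (j + 1) := by
    intro j ⟨hd, hr⟩
    have hXd : Tendsto (fun t => T (X * p (n t + j)) - T (X * (p j * p (n t)))) atTop (𝓝 0) := by
      rw [tendsto_zero_iff_norm_tendsto_zero] at hd ⊢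
      refine squeeze_zero (fun _ => norm_nonneg _) (fun t => ?_) (by simpa using hd.const_mul 2)
      rw [← map_sub, ← map_sub, ← mul_sub]; exact hX _
    have hb : Tendsto (fun t => b (n t + j + 1) - b (j + 1)) atTop (𝓝 0) := by
      have e1 := inner_tendsto_zero hXd 1 (y := fun t => T (p (n t + j)))
        (Eventually.of_forall fun t => (hE _).le)
      have e2 := inner_tendsto_zero hd 2 (y := fun t => T (X * (p j * p (n t)))) (by
        filter_upwards [hV j] with t ht
        have := hX (p j * p (n t)); rw [ht] at this; linarith)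
      have e3 := e1.add e2
      rw [add_zero] at e3
      refine e3.congr' ?_
      filter_upwards [hmom (X * p j * p j)] with t ht
      rw [inner_sub_left, inner_sub_left, hT, hT, hT, hT, h.b_eq,
        show p j * p (n t) * (X * (p j * p (n t))) = X * p j * p j * (p (n t) * p (n t)) by ring,
        ht, h.b_eq,
        show X * (p j * p (n t)) * p (n t + j) = p (n t + j) * (X * (p j * p (n t))) by ring]
      ring
    have hw : Tendsto (fun t => a (n t + j + 1) • T (p (n t + j + 1))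
        - a (j + 1) • T (p (j + 1) * p (n t))) atTop (𝓝 0) := by
      have e1 := smul_tendsto_zero hb 1 (x := fun t => T (p (n t + j)))
        (Eventually.of_forall fun t => (hE _).le)
      have e2 := hd.const_smul (b (j + 1))
      have e3 := ((hXd.sub e1).sub e2).sub hr
      simp only [smul_zero, sub_zero] at e3
      refine e3.congr (fun t => ?_)
      have r1 := h.recS (n t + j) (by have := hn t; omega)
      have r2 : X * (p j * p (n t)) = C (a (j + 1)) * (p (j + 1) * p (n t))
          + C (b (j + 1)) * (p j * p (n t))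
          + C (if j = 0 then 0 else a j) * (p (j - 1) * p (n t)) := by
        rw [← mul_assoc, h.rec' j]; ring
      rw [r1, r2]
      simp only [map_add, hTC, sub_smul, smul_sub]
      abel
    have hpos : 0 < a (j + 1) := h.pos _ (by omega)
    have hA : Tendsto (fun t => a (n t + j + 1) - a (j + 1)) atTop (𝓝 0) := by
      rw [tendsto_zero_iff_norm_tendsto_zero] at hw ⊢
      refine squeeze_zero' (Eventually.of_forall fun _ => norm_nonneg _) ?_ hw
      filter_upwards [hV (j + 1)] with t ht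
      have hp2 : 0 < a (n t + j + 1) := h.pos _ (by omega)
      have := abs_norm_sub_norm_le (a (n t + j + 1) • T (p (n t + j + 1)))
        (a (j + 1) • T (p (j + 1) * p (n t)))
      rw [norm_smul, norm_smul, hE, ht, Real.norm_of_nonneg hp2.le, Real.norm_of_nonneg hpos.le]
        at this
      simpa using this
    refine ⟨by simpa using hA.add_const (a (j + 1)), ?_, ?_⟩
    · have e1 := smul_tendsto_zero hA 1 (x := fun t => T (p (n t + j + 1)))
        (Eventually.of_forall fun t => (hE _).le)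
      have e2 := (hw.sub e1).const_smul (a (j + 1))⁻¹
      simp only [smul_zero, sub_zero] at e2
      refine e2.congr (fun t => ?_)
      rw [sub_smul, ← add_assoc]
      have : a (n t + j + 1) • T (p (n t + j + 1)) - a (j + 1) • T (p (j + 1) * p (n t)) -
          (a (n t + j + 1) • T (p (n t + j + 1)) - a (j + 1) • T (p (n t + j + 1)))
          = a (j + 1) • (T (p (n t + j + 1)) - T (p (j + 1) * p (n t))) := by
        rw [smul_sub]; abel
      rw [this, smul_smul, inv_mul_cancel₀ hpos.ne', one_smul]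
    · have e1 := smul_tendsto_zero hA 1 (x := fun t => T (p (n t + j)))
        (Eventually.of_forall fun t => (hE _).le)
      have e2 := e1.add (hd.const_smul (a (j + 1)))
      simp only [smul_zero, add_zero] at e2
      refine e2.congr (fun t => ?_)
      rw [if_neg (Nat.succ_ne_zero j), ← add_assoc]
      simp only [Nat.add_sub_cancel, sub_smul, smul_sub]
      abel
  have all : ∀ j, I j := by
    intro j
    induction j with
    | zero =>
      refine ⟨?_, ?_⟩
      · simpa [h.p_zero h1] using (tendsto_const_nhds : Tendsto (fun _ : ℕ => (0 : H)) atTop (𝓝 0))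
      · simpa using smul_tendsto_zero ha 1 (x := fun t => T (p (n t - 1)))
          (Eventually.of_forall fun t => (hE _).le)
    | succ j ih => exact (step j ih).2
  exact (step j (all j)).1

theorem restart {L : Fnl} (hL : PosDef L) (hX : ∀ p, L ((X * p) * (X * p)) ≤ 4 * L (p * p))
    (h1 : L 1 = 1) {p : ℕ → ℝ[X]} {a b : ℕ → ℝ} (h : JData L p a b) (n : ℕ → ℕ)
    (hn : ∀ t, 1 ≤ n t) (ha : Tendsto (fun t => a (n t)) atTop (𝓝 0))
    (hmom : ∀ q : ℝ[X], ∀ᶠ t in atTop, L (q * (p (n t) * p (n t))) = L q) (j : ℕ) :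
    Tendsto (fun t => a (n t + j + 1)) atTop (𝓝 (a (j + 1))) := by
  let cd : PreInnerProductSpace.Core ℝ ℝ[X] :=
    { inner := fun p q => L (p * q)
      conj_inner_symm := fun x y => by simp [mul_comm]
      re_inner_nonneg := fun x => by simpa using hL.nonneg x
      add_left := fun x y z => by simp [add_mul]
      smul_left := fun x y r => by simp }
  let _ : SeminormedAddCommGroup ℝ[X] := InnerProductSpace.Core.toSeminormedAddCommGroup (c := cd)
  let _ : InnerProductSpace ℝ ℝ[X] := InnerProductSpace.ofCore cd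
  refine restart_aux (H := ℝ[X]) LinearMap.id (L := L) (fun p q => rfl) (fun q => ?_) h1 h n hn ha
    hmom j
  have e1 : ‖X * q‖ ^ 2 = L ((X * q) * (X * q)) := (real_inner_self_eq_norm_sq (X * q)).symm
  have e2 : ‖q‖ ^ 2 = L (q * q) := (real_inner_self_eq_norm_sq q).symm
  have := hX q
  simp only [LinearMap.id_coe, id_eq]
  have h0 := norm_nonneg q
  apply le_of_sq_le_sq _ (by positivity)
  nlinarith

/-- An almost periodic sequence has positive almost periods. -/
theorem AlmostPeriodic.exists_period {c : ℤ →ᵇ ℝ × ℝ} (hc : AlmostPeriodic c) {ε : ℝ}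
    (hε : 0 < ε) : ∃ τ : ℕ, 1 ≤ τ ∧ ∀ m : ℤ, |(c (m + τ)).1 - (c m).1| ≤ ε := by
  have hsh : ∀ k : ℤ, ∃ d : ℤ →ᵇ ℝ × ℝ, ∀ n, d n = c (n + k) := fun k =>
    ⟨c.compContinuous ⟨fun n => n + k, continuous_of_discreteTopology⟩, fun n => rfl⟩
  choose S hS using hsh
  obtain ⟨F, hF, hcov⟩ := Metric.totallyBounded_iff.mp hc (ε / 2) (by linarith)
  have hmem : ∀ k : ℕ, ∃ y ∈ F, S k ∈ Metric.ball y (ε / 2) := by
    intro k
    have := hcov (show S k ∈ {d : ℤ →ᵇ ℝ × ℝ | ∃ k : ℤ, ∀ n, d n = c (n + k)} from ⟨k, hS k⟩)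
    simpa using this
  choose y hyF hy using hmem
  obtain ⟨k, l, hkl, hy2⟩ := Set.Finite.exists_lt_map_eq_of_forall_mem hyF hF
  refine ⟨l - k, by omega, fun m => ?_⟩
  have hd : dist (S l) (S k) < ε := by
    have h1 := hy l; have h2 := hy k
    rw [Metric.mem_ball] at h1 h2
    rw [hy2] at h2
    have := dist_triangle_right (S l) (S k) (y l)
    linarith
  have h3 := (BoundedContinuousFunction.dist_coe_le_dist (f := S l) (g := S k) (m - k)).trans hd.le
  rw [hS, hS] at h3
  have h4 : dist (c (m - k + l)).1 (c (m - k + k)).1 ≤ ε := (le_max_left _ _).trans h3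
  rw [Real.dist_eq] at h4
  have e1 : m + ((l - k : ℕ) : ℤ) = m - k + l := by push_cast [hkl.le]; ring
  have e2 : m - k + k = m := by ring
  rw [e1]; rwa [e2] at h4

/-- Two restart sequences with different left neighbours rule out asymptotic almost
periodicity. -/
theorem not_aap {a b : ℕ → ℝ} (n n' : ℕ → ℕ) (hn : Tendsto n atTop atTop)
    (hn' : Tendsto n' atTop atTop) (lim : ℕ → ℝ)
    (h1 : ∀ j, Tendsto (fun t => a (n t + 1 + j)) atTop (𝓝 (lim j)))
    (h2 : ∀ j, Tendsto (fun t => a (n' t + 1 + j)) atTop (𝓝 (lim j)))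
    {δ : ℝ} (hδ : 0 < δ) (h3 : ∀ t, δ ≤ a (n t))
    (h4 : Tendsto (fun t => a (n' t)) atTop (𝓝 0)) : ¬ AsympAlmostPeriodic a b := by
  rintro ⟨c, hc, hlim⟩
  obtain ⟨τ, hτ, hper⟩ := hc.exists_period (ε := δ / 4) (by linarith)
  have hlim' : Tendsto (fun m : ℕ => a m - (c m).1) atTop (𝓝 0) := by
    rw [tendsto_zero_iff_norm_tendsto_zero]
    refine squeeze_zero (fun _ => norm_nonneg _) (fun m => ?_) hlim
    rw [Real.norm_eq_abs]; linarith [abs_nonneg (b m - (c m).2)]
  obtain ⟨j, rfl⟩ : ∃ j, τ = 1 + j := ⟨τ - 1, by omega⟩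
  have g1 := hlim'.comp hn
  have g2 := hlim'.comp hn'
  have g3 := hlim'.comp ((tendsto_add_atTop_nat (1 + j)).comp hn)
  have g4 := hlim'.comp ((tendsto_add_atTop_nat (1 + j)).comp hn')
  have tot := ((((g1.sub g3).sub g2).add g4).add ((h1 j).sub (h2 j))).add h4
  simp only [add_zero, sub_self] at tot
  have hev := tot.eventually (gt_mem_nhds (show (0 : ℝ) < δ / 2 by linarith))
  obtain ⟨t, ht⟩ := hev.exists
  have p1 := abs_le.mp (hper (n t))
  have p2 := abs_le.mp (hper (n' t))
  have := h3 t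
  simp only [Function.comp] at ht
  rw [add_assoc (n t), add_assoc (n' t)] at ht
  rw [← Nat.cast_add] at p1 p2
  linarith [p1.1, p1.2, p2.1, p2.2]

end Pool.Agent.Lib.MP_4d2d01_an
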