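import Pool.Agent.Lib.MP_4d2d01_an.Ineq
import Pool.Agent.Lib.MP_4d2d01_an.Restart

/-! Iteration of the one-step inequalities along a tower of balanced measures. -/

open Polynomial MeasureTheory Set Filter Topology

namespace Pool.Agent.Lib.MP_4d2d01_an

noncomputable def A2 (μ : Measure ℝ) (k : ℕ) : ℝ := NN (mom μ) (k + 1) / NN (mom μ) k
noncomputable def RR (μ : Measure ℝ) (k : ℕ) : ℝ := NN (mom μ) (k + 1) / NN (wt (mom μ)) k
noncomputable def TT (μ : Measure ℝ) (k : ℕ) : ℝ := NN (wt (mom μ)) k / NN (mom μ) k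

section Basic

variable {μ : Measure ℝ} (hμ : Good μ 1) [NullSingletonClass μ]
include hμ

theorem A2_pos (k : ℕ) : 0 < A2 μ k := div_pos (NN_pos hμ.posDef _) (NN_pos hμ.posDef _)
theorem RR_pos (k : ℕ) : 0 < RR μ k := div_pos (NN_pos hμ.posDef _) (NN_pos hμ.posDef_wt _)
theorem TT_pos (k : ℕ) : 0 < TT μ k := div_pos (NN_pos hμ.posDef_wt _) (NN_pos hμ.posDef _)

theorem A2_le (k : ℕ) : A2 μ k ≤ 1 := by
  unfold A2
  rw [div_le_one (NN_pos hμ.posDef _)]
  have hp := OP_isOP hμ.posDef k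
  refine (NN_le hμ.posDef (monic_X.mul hp.1) (by
    rw [monic_X.natDegree_mul hp.1, natDegree_X, hp.2.1, add_comm])).trans ?_
  refine hμ.mom_mono fun x hx => ?_
  simp only [eval_mul, eval_X]
  have : x ^ 2 ≤ 1 := by nlinarith [hx.1, hx.2]
  nlinarith [mul_self_nonneg ((OP (mom μ) k).eval x)]

theorem RR_le (k : ℕ) : RR μ k ≤ 2 := by
  unfold RR
  rw [div_le_iff₀ (NN_pos hμ.posDef_wt _)]
  have hp := OP_isOP hμ.posDef_wt k
  refine (NN_le hμ.posDef ((monic_X_sub_C 1).mul hp.1) (by
    rw [(monic_X_sub_C 1).natDegree_mul hp.1, natDegree_X_sub_C, hp.2.1, add_comm])).trans ?_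
  unfold NN
  rw [wt_apply, ← fnl_C_mul]
  refine hμ.mom_mono fun x hx => ?_
  simp only [eval_mul, eval_X, eval_sub, eval_C, eval_one]
  have h1 : 0 ≤ (1 - x) * (1 + x) := mul_nonneg (by linarith [hx.2]) (by linarith [hx.1])
  nlinarith [mul_nonneg h1 (mul_self_nonneg ((OP (wt (mom μ)) k).eval x))]

end Basic

theorem isOP_zero (L : Fnl) : IsOP L 0 1 := by
  refine ⟨monic_one, natDegree_one, fun q hq => ?_⟩
  have : q = 0 := by
    rw [← degree_eq_bot]; exact Nat.WithBot.lt_zero_iff.mp (by exact_mod_cast hq)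
  simp [this]

theorem small_c1 {η : ℝ} (h : Small η) : 512 ^ 2 * η ^ 4 ≤ 1 / 2000000 := by
  have h1 := h.1; have h2 := h.2
  have : η ^ 4 ≤ (1 / 65536) ^ 4 := by gcongr
  nlinarith

section Steps

variable {η : ℝ} (h : Small η) {μ : Measure ℝ} (hμ : Good μ 1) [NullSingletonClass μ]
  [NullSingletonClass ((qstep h).pull μ)]
include hμ

theorem step_TT (k : ℕ) : TT ((qstep h).pull μ) (4 * k + 3) ≤ 32768 * TT μ k := by
  have hg := good_q h hμ
  have u := ineq_U2 h hμ k
  have l := ineq_L1 h hμ k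
  have p1 := NN_pos hμ.posDef k
  have p2 := NN_pos hμ.posDef_wt k
  have p3 := NN_pos hg.posDef (4 * k + 3)
  have hD := h.DD_pos
  unfold TT
  rw [← mul_div_assoc, div_le_div_iff₀ p3 p1]
  calc _ ≤ DD η ^ (2 * k + 1) * NN (wt (mom μ)) k * NN (mom μ) k := by gcongr
    _ = 512 * NN (wt (mom μ)) k * (η ^ 4 * DD η ^ (2 * k) * NN (mom μ) k) := by
        rw [pow_succ]; unfold DD; ring
    _ ≤ 512 * NN (wt (mom μ)) k * (64 * NN (mom ((qstep h).pull μ)) (4 * k + 3)) := by gcongr
    _ = _ := by ring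

theorem step_invTT (k : ℕ) :
    (TT ((qstep h).pull μ) (4 * k + 3))⁻¹ ≤ 384 + (384 * RR μ k + 1 / 4) * (TT μ k)⁻¹ := by
  have hg := good_q h hμ
  have u := ineq_U1 h hμ k
  have l := ineq_L2 h hμ k
  have p1 := NN_pos hμ.posDef k
  have p1' := NN_pos hμ.posDef (k + 1)
  have p2 := NN_pos hμ.posDef_wt k
  have p3 := NN_pos hg.posDef_wt (4 * k + 3)
  have hD := h.DD_pos
  have hη := h.1
  unfold TT RR
  rw [inv_div, inv_div, div_le_iff₀ p3]
  set N := NN (mom μ) k
  set N1 := NN (mom μ) (k + 1)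
  set Q' := NN (wt (mom μ)) k
  set Q := NN (wt (mom ((qstep h).pull μ))) (4 * k + 3)
  refine u.trans ?_
  calc 4 * η ^ 4 * DD η ^ (2 * k) * N = 4 * η ^ 4 * N / Q' ^ 2 * (DD η ^ (2 * k) * Q' ^ 2) := by
        field_simp
    _ ≤ 4 * η ^ 4 * N / Q' ^ 2 * (8 * Q * (12 / η ^ 4 * (Q' ^ 2 / N + N1) + 4 / DD η * Q')) := by
        gcongr
    _ = _ := by unfold DD; field_simp; ring

theorem step_A2 (k : ℕ) : A2 ((qstep h).pull μ) (4 * k + 3) ≤ 1 / 4 * A2 μ k := by
  have hg := good_q h hμ
  have u := eq_E h hμ k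
  have l := ineq_L1 h hμ k
  have p1 := NN_pos hμ.posDef k
  have p1' := NN_pos hμ.posDef (k + 1)
  have p3 := NN_pos hg.posDef (4 * k + 3)
  have hD := h.DD_pos
  have hη := h.1
  have hs := small_c1 h
  unfold A2
  rw [u, ← mul_div_assoc, div_le_div_iff₀ p3 p1]
  calc _ = (512 ^ 2 * η ^ 4) * NN (mom μ) (k + 1) * (η ^ 4 * DD η ^ (2 * k) * NN (mom μ) k) := by
        rw [pow_add]; unfold DD; ring
    _ ≤ (1 / 2000000) * NN (mom μ) (k + 1) * (64 * NN (mom ((qstep h).pull μ)) (4 * k + 3)) := by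
        gcongr
    _ ≤ _ := by nlinarith [mul_pos p1' p3]

theorem step_RR (k : ℕ) :
    RR ((qstep h).pull μ) (4 * k + 3) ≤ 1 / 8192 * (A2 μ k + RR μ k) := by
  have hg := good_q h hμ
  have u := eq_E h hμ k
  have l := ineq_L2 h hμ k
  have p1 := NN_pos hμ.posDef k
  have p1' := NN_pos hμ.posDef (k + 1)
  have p2 := NN_pos hμ.posDef_wt k
  have p3 := NN_pos hg.posDef_wt (4 * k + 3)
  have hD := h.DD_pos
  have hη := h.1
  have hs := small_c1 h
  have r1 := RR_le hμ k
  have r0 := RR_pos hμ k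
  have a0 := A2_pos hμ k
  have key : RR ((qstep h).pull μ) (4 * k + 3)
      ≤ (512 ^ 2 * η ^ 4) * (96 * (A2 μ k + RR μ k ^ 2) + 1 / 16 * RR μ k) := by
    unfold RR A2
    rw [u, div_le_iff₀ p3]
    set N := NN (mom μ) k
    set N1 := NN (mom μ) (k + 1)
    set Q' := NN (wt (mom μ)) k
    set Q := NN (wt (mom ((qstep h).pull μ))) (4 * k + 3)
    calc DD η ^ (2 * k + 2) * N1 = DD η ^ 2 * N1 / Q' ^ 2 * (DD η ^ (2 * k) * Q' ^ 2) := by
          field_simp; ring
      _ ≤ DD η ^ 2 * N1 / Q' ^ 2 * (8 * Q * (12 / η ^ 4 * (Q' ^ 2 / N + N1) + 4 / DD η * Q')) := by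
          gcongr
      _ = _ := by unfold DD; field_simp; ring
  refine key.trans ?_
  calc _ ≤ (1 / 2000000) * (96 * (A2 μ k + RR μ k ^ 2) + 1 / 16 * RR μ k) := by gcongr
    _ ≤ _ := by nlinarith

omit [NullSingletonClass μ] in
theorem TT_zero : (TT ((qstep h).pull μ) 0)⁻¹ ≤ 8 / 3 := by
  have hg := good_q h hμ
  unfold TT
  rw [inv_div, (isOP_zero _).NN_eq hg.posDef, (isOP_zero _).NN_eq hg.posDef_wt, wt_apply]
  simp only [mul_one]
  rw [hg.mom_one]
  have := (qstep h).mom_pull_ge hμ hg (1 - X) (C (3 / 2)) (by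
    intro y hy
    simp only [eval_C, Fin.sum_univ_four, eval_sub, eval_one, eval_X]
    have c0 := (h.cluster_bd y (i := 0) (by decide)).2.1
    have c1 := (h.cluster_bd y (i := 1) (by decide)).2.1
    have c2 := (h.cluster_bd y (i := 2) (by decide)).2.1
    have c3 := (h.loc y).u3
    change _ ≤ 1 - rt η 0 y + (1 - rt η 1 y) + (1 - rt η 2 y) + (1 - rt η 3 y)
    linarith)
  rw [hμ.mom_C] at this
  push_cast at this
  rw [div_le_iff₀ (by linarith)]
  linarith

omit [NullSingletonClass μ] in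
theorem TT_one : TT ((qstep h).pull μ) 1 ≤ 32 * η ^ 2 := by
  have hg := good_q h hμ
  have h1 := h.1
  have u : NN (wt (mom ((qstep h).pull μ))) 1 ≤ 2 * η ^ 2 := by
    refine (NN_le hg.posDef_wt monic_X natDegree_X).trans ?_
    rw [wt_apply]
    refine ((qstep h).mom_pull_le hμ hg _ (C (8 * η ^ 2)) ?_).trans ?_
    · intro y hy
      simp only [eval_C, Fin.sum_univ_four, eval_sub, eval_one, eval_X, eval_mul]
      have c0 := (h.r_bd hy 0).2
      have c1 := (h.r_bd hy 1).2
      have c2 := (h.r_bd hy 2).2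
      have c3 := (h.r_bd hy 3).2
      change (1 - rt η 0 y) * (rt η 0 y * rt η 0 y) + (1 - rt η 1 y) * (rt η 1 y * rt η 1 y)
        + (1 - rt η 2 y) * (rt η 2 y * rt η 2 y) + (1 - rt η 3 y) * (rt η 3 y * rt η 3 y) ≤ _
      nlinarith
    · rw [hμ.mom_C]; push_cast; linarith
  have l : 1 / 16 ≤ NN (mom ((qstep h).pull μ)) 1 := by
    have hp := OP_isOP hg.posDef 1
    have e := hp.1.eq_X_add_C hp.2.1
    unfold NN
    rw [e]
    set c := (OP (mom ((qstep h).pull μ)) 1).coeff 0
    refine le_trans ?_ ((qstep h).mom_pull_ge hμ hg _ (C (1 / 4)) ?_)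
    · rw [hμ.mom_C]; norm_num
    · intro y hy
      simp only [eval_C, Fin.sum_univ_four, eval_add, eval_X, eval_mul]
      have c1 := (h.loc y).u1
      have c3 := (h.loc y).l3
      change _ ≤ (rt η 0 y + c) * (rt η 0 y + c) + (rt η 1 y + c) * (rt η 1 y + c)
        + (rt η 2 y + c) * (rt η 2 y + c) + (rt η 3 y + c) * (rt η 3 y + c)
      nlinarith [mul_self_nonneg (rt η 0 y + c), mul_self_nonneg (rt η 2 y + c),
        mul_self_nonneg (rt η 1 y + rt η 3 y + 2 * c)]
  unfold TT
  rw [div_le_iff₀ (by linarith)]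
  nlinarith [sq_nonneg η]

end Steps

/-- A tower of balanced measures. -/
structure Tower (η : ℕ → ℝ) (μ : ℕ → Measure ℝ) : Prop where
  small : ∀ s, Small (η s)
  good : ∀ s, Good (μ s) 1
  null : ∀ s, NullSingletonClass (μ s)
  rel : ∀ s, μ s = (qstep (small s)).pull (μ (s + 1))
  decay : ∀ s, η s ^ 2 ≤ (1 / 65536) ^ s

def idx : ℕ → ℕ → ℕ
  | 0, k => k
  | j + 1, k => 4 * idx j k + 3

theorem idx_succ (j k : ℕ) : idx j k + 1 = 4 ^ j * (k + 1) := by
  induction j with
  | zero => simp [idx]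
  | succ j ih => rw [idx, pow_succ', mul_assoc, ← ih]; ring

namespace Tower

variable {η : ℕ → ℝ} {μ : ℕ → Measure ℝ} (T : Tower η μ)
include T

theorem null' (s : ℕ) : NullSingletonClass ((qstep (T.small s)).pull (μ (s + 1))) :=
  T.rel s ▸ T.null s

theorem chain_TT (k j : ℕ) : ∀ s, TT (μ s) (idx j k) ≤ 32768 ^ j * TT (μ (s + j)) k := by
  induction j with
  | zero => intro s; simp [idx]
  | succ j ih =>
    intro s
    have := T.null (s + 1); have := T.null' s
    have e := step_TT (T.small s) (T.good (s + 1)) (idx j k)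
    rw [← T.rel s] at e
    have := ih (s + 1)
    rw [show s + 1 + j = s + (j + 1) by ring] at this
    rw [idx, pow_succ]
    nlinarith

theorem TT_small (t : ℕ) : TT (μ 0) (idx t 1) ≤ 32 * (1 / 2) ^ t := by
  have e := T.chain_TT 1 t 0
  have := T.null' t
  have e2 := TT_one (T.small t) (T.good (t + 1))
  rw [← T.rel t] at e2
  rw [zero_add] at e
  have e3 := T.decay t
  calc _ ≤ 32768 ^ t * (32 * (1 / 65536) ^ t) := e.trans (by gcongr; linarith)
    _ = 32 * (32768 * (1 / 65536)) ^ t := by rw [mul_pow]; ring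
    _ = _ := by norm_num

theorem chain_rho (k j : ℕ) : ∀ s, A2 (μ s) (idx j k) + RR (μ s) (idx j k) ≤ 3 * (1 / 2) ^ j := by
  induction j with
  | zero =>
    intro s
    have := T.null s
    have a := A2_le (T.good s) k
    have b := RR_le (T.good s) k
    simp only [idx, pow_zero]; linarith
  | succ j ih =>
    intro s
    have := T.null (s + 1); have := T.null' s
    have e1 := step_A2 (T.small s) (T.good (s + 1)) (idx j k)
    have e2 := step_RR (T.small s) (T.good (s + 1)) (idx j k)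
    rw [← T.rel s] at e1 e2
    have := ih (s + 1)
    have a := A2_pos (T.good (s + 1)) (idx j k)
    have b := RR_pos (T.good (s + 1)) (idx j k)
    rw [idx, pow_succ]
    linarith

theorem RR_small (k t : ℕ) : RR (μ 0) (idx t k) ≤ 3 * (1 / 2) ^ t := by
  have := T.null 0
  have := T.chain_rho k t 0
  linarith [A2_pos (T.good 0) (idx t k)]

theorem invTT_zero (s : ℕ) : (TT (μ s) 0)⁻¹ ≤ 8 / 3 := by
  have := T.null' s
  have e := TT_zero (T.small s) (T.good (s + 1))
  rwa [← T.rel s] at e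

theorem chain_inv (j : ℕ) : ∀ s, (TT (μ s) (idx j 0))⁻¹ ≤ 3000 := by
  induction j with
  | zero => intro s; have := T.invTT_zero s; simp only [idx]; linarith
  | succ j ih =>
    intro s
    have := T.null (s + 1); have := T.null' s
    have e := step_invTT (T.small s) (T.good (s + 1)) (idx j 0)
    rw [← T.rel s] at e
    rw [idx]
    have p := inv_pos.mpr (TT_pos (T.good (s + 1)) (idx j 0))
    have r0 := RR_pos (T.good (s + 1)) (idx j 0)
    cases j with
    | zero =>
      have a := T.invTT_zero (s + 1)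
      have b := RR_le (T.good (s + 1)) 0
      simp only [idx] at *
      nlinarith
    | succ j =>
      have a := ih (s + 1)
      have := T.null (s + 2); have := T.null' (s + 1)
      have b := step_RR (T.small (s + 1)) (T.good (s + 2)) (idx j 0)
      rw [← T.rel (s + 1)] at b
      have b1 := A2_le (T.good (s + 2)) (idx j 0)
      have b2 := RR_le (T.good (s + 2)) (idx j 0)
      have b3 : RR (μ (s + 1)) (idx (j + 1) 0) ≤ 3 / 8192 := by rw [idx]; linarith
      nlinarith

theorem chain_same (m j : ℕ) :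
    ∀ s, SameMom (mom (μ s)) (OP (mom (μ s)) (4 ^ j * m)) (4 ^ j) := by
  induction j with
  | zero => intro s; exact (T.good s).sameMom_one _
  | succ j ih =>
    intro s
    have := T.null (s + 1); have := T.null' s; have := T.null s
    have hg := good_q (T.small s) (T.good (s + 1))
    have e := (qstep (T.small s)).isOP_lift (T.good (s + 1)) hg
      (OP_isOP (T.good (s + 1)).posDef (4 ^ j * m))
    have e2 := (qstep (T.small s)).sameMom_lift (T.good (s + 1)) hg (4 ^ j * m) (ih (s + 1))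
    rw [e.unique hg.posDef (OP_isOP hg.posDef _), ← T.rel s] at e2
    rw [pow_succ', mul_assoc]
    exact e2

end Tower

section Last

variable {μ : Measure ℝ} (hμ : Good μ 1)
include hμ

theorem good_s : Good (sstep.pull μ) 2 := by
  refine sstep.good_pull hμ fun y hy i => ?_
  have h0 := Real.sqrt_nonneg (1 - y)
  have h1 : √(1 - y) ≤ 2 := Real.sqrt_le_iff.mpr ⟨by norm_num, by linarith [hy.1]⟩
  fin_cases i <;> simp [sstep] <;> constructor <;> linarith

variable [NullSingletonClass μ] [NullSingletonClass (sstep.pull μ)]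

theorem NN_even (k : ℕ) : NN (mom (sstep.pull μ)) (2 * k) = NN (mom μ) k := by
  have hg := good_s hμ
  have hp := sstep.isOP_lift hμ hg (OP_isOP hμ.posDef k)
  rw [hp.NN_eq hg.posDef, sstep.mom_pull_lift hμ hg]
  have : sstep.D ^ (k + k) = 1 := by
    change (-1 : ℝ) ^ (k + k) = 1
    rw [← two_mul, pow_mul]; simp
  rw [this, one_mul]; rfl

omit [NullSingletonClass μ] [NullSingletonClass (sstep.pull μ)] hμ in
theorem sstep_sq {y : ℝ} (hy : y ∈ Icc (-1 : ℝ) 1) (i : Fin 2) :
    sstep.x i y * sstep.x i y = 1 - y := by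
  have : √(1 - y) * √(1 - y) = 1 - y := Real.mul_self_sqrt (by linarith [hy.2])
  fin_cases i <;> simp [sstep, this]

theorem NN_odd (k : ℕ) : NN (mom (sstep.pull μ)) (2 * k + 1) = NN (wt (mom μ)) k := by
  have hg := good_s hμ
  set Q := OP (wt (mom μ)) k
  have hQ : IsOP (wt (mom μ)) k Q := OP_isOP hμ.posDef_wt k
  have hm := sstep.monic_lift hQ.1 hQ.2.1
  have hp : IsOP (mom (sstep.pull μ)) (2 * k + 1) (X * sstep.lift k Q) := by
    refine ⟨monic_X.mul hm, by
      rw [monic_X.natDegree_mul hm, natDegree_X, sstep.natDegree_lift hQ.2.1, add_comm],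
      fun q hq => ?_⟩
    have hd : q.divX.degree < (2 * k : ℕ) := by
      rw [degree_lt_iff_coeff_zero]
      intro m hm
      rw [coeff_divX]
      exact coeff_eq_zero_of_degree_lt (lt_of_lt_of_le hq (by norm_cast; omega))
    obtain ⟨ρ, hρ, hρe⟩ := sstep.transfer k _ hd
    rw [sstep.mom_pull hμ hg _ (C (sstep.D ^ k) * ((1 - X) * (Q * ρ))), fnl_C_mul, ← wt_apply,
      hQ.2.2 ρ hρ, mul_zero, mul_zero]
    intro y hy
    have e : ∀ i, (X * sstep.lift k Q * q).eval (sstep.x i y) = sstep.D ^ k * Q.eval y *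
        ((1 - y) * q.divX.eval (sstep.x i y) + q.coeff 0 * sstep.x i y) := by
      intro i
      conv_lhs => rw [← divX_mul_X_add q]
      simp only [eval_mul, eval_add, eval_X, eval_C, sstep.eval_lift k Q hy]
      rw [← sstep_sq hy i]; ring
    have e0 : ∑ i, sstep.x i y = 0 := by simp [sstep]
    simp only [e, ← Finset.mul_sum, Finset.sum_add_distrib, hρe y hy, e0, eval_mul, eval_C,
      eval_sub, eval_one, eval_X]
    ring
  rw [hp.NN_eq hg.posDef, sstep.mom_pull hμ hg _ (C 2 * ((1 - X) * (Q * Q))), fnl_C_mul,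
    ← wt_apply]
  · unfold NN; push_cast; ring
  · intro y hy
    have e : ∀ i, (X * sstep.lift k Q * (X * sstep.lift k Q)).eval (sstep.x i y)
        = (1 - y) * (Q.eval y * Q.eval y) := by
      intro i
      simp only [eval_mul, eval_X, sstep.eval_lift k Q hy]
      have : sstep.D ^ k * sstep.D ^ k = 1 := by
        change (-1 : ℝ) ^ k * (-1) ^ k = 1
        rw [← mul_pow]; simp
      rw [← sstep_sq hy i]
      linear_combination (sstep.x i y * sstep.x i y * (Q.eval y * Q.eval y)) * this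
    simp only [e, Finset.sum_const, Finset.card_univ, Fintype.card_fin, eval_mul, eval_C, eval_sub,
      eval_one, eval_X, nsmul_eq_mul]
    push_cast; ring

end Last

theorem JData.eq_OP {L : Fnl} (hL : PosDef L) {p : ℕ → ℝ[X]} {a b : ℕ → ℝ} (h : JData L p a b)
    (n : ℕ) : p n = C (p n).leadingCoeff * OP L n ∧ (p n).leadingCoeff ^ 2 * NN L n = 1 := by
  have hnd : ∀ m, (p m).natDegree = m := fun m => natDegree_eq_of_degree_eq_some (h.deg m).1
  have hne : ∀ m, (p m).leadingCoeff ≠ 0 := fun m => (h.deg m).2.ne'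
  have horth : ∀ m ≤ n, ∀ q : ℝ[X], q.degree < m → L (p n * q) = 0 := by
    intro m
    induction m with
    | zero =>
      intro _ q hq
      have : q = 0 := by
        rw [← degree_eq_bot]; exact Nat.WithBot.lt_zero_iff.mp (by exact_mod_cast hq)
      simp [this]
    | succ m ihm =>
      intro hm q hq
      have hlt : (q - C (q.coeff m / (p m).leadingCoeff) * p m).degree < m := by
        rw [degree_lt_iff_coeff_zero]
        intro l hl
        rw [coeff_sub, coeff_C_mul]
        rcases eq_or_lt_of_le hl with rfl | hlt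
        · have : (p m).coeff m = (p m).leadingCoeff := by rw [leadingCoeff, hnd]
          rw [this, div_mul_cancel₀ _ (hne m), sub_self]
        · rw [coeff_eq_zero_of_degree_lt (lt_of_lt_of_le hq (by exact_mod_cast hlt)),
            coeff_eq_zero_of_natDegree_lt (p := p m) (by rw [hnd]; exact hlt)]
          ring
      have h0 := ihm (by omega) _ hlt
      have : p n * (q - C (q.coeff m / (p m).leadingCoeff) * p m)
          = p n * q - C (q.coeff m / (p m).leadingCoeff) * (p n * p m) := by ring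
      rw [this, map_sub, fnl_C_mul, h.orth, if_neg (by omega)] at h0
      linarith
  have hop : IsOP L n (C (p n).leadingCoeff⁻¹ * p n) := by
    refine ⟨?_, by rw [natDegree_C_mul (inv_ne_zero (hne n)), hnd], fun q hq => ?_⟩
    · unfold Monic; rw [leadingCoeff_mul, leadingCoeff_C, inv_mul_cancel₀ (hne n)]
    · rw [mul_assoc, fnl_C_mul, horth n le_rfl q hq, mul_zero]
  have e := hop.unique hL (OP_isOP hL n)
  have e1 : p n = C (p n).leadingCoeff * OP L n := by
    rw [← e, ← mul_assoc, ← C_mul, mul_inv_cancel₀ (hne n), C_1, one_mul]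
  refine ⟨e1, ?_⟩
  have e2 := h.orth n n
  rw [if_pos rfl] at e2
  set c := (p n).leadingCoeff
  rw [e1, show C c * OP L n * (C c * OP L n) = C (c ^ 2) * (OP L n * OP L n) by
    rw [C_pow]; ring, fnl_C_mul] at e2
  exact e2

theorem JData.a_sq {L : Fnl} (hL : PosDef L) {p : ℕ → ℝ[X]} {a b : ℕ → ℝ} (h : JData L p a b)
    (n : ℕ) : a (n + 1) ^ 2 = NN L (n + 1) / NN L n := by
  have hnd : ∀ m, (p m).natDegree = m := fun m => natDegree_eq_of_degree_eq_some (h.deg m).1
  have e := congrArg (fun q => q.coeff (n + 1)) (h.rec' n)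
  simp only [coeff_X_mul, coeff_add, coeff_C_mul] at e
  rw [coeff_eq_zero_of_natDegree_lt (p := p n) (n := n + 1) (by rw [hnd]; omega),
    coeff_eq_zero_of_natDegree_lt (p := p (n - 1)) (n := n + 1) (by rw [hnd]; omega)] at e
  have c1 : (p n).coeff n = (p n).leadingCoeff := by rw [leadingCoeff, hnd]
  have c2 : (p (n + 1)).coeff (n + 1) = (p (n + 1)).leadingCoeff := by rw [leadingCoeff, hnd]
  rw [c1, c2, mul_zero, mul_zero, add_zero, add_zero] at e
  have e1 := (h.eq_OP hL n).2
  have e2 := (h.eq_OP hL (n + 1)).2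
  rw [e] at e1
  rw [eq_div_iff (NN_pos hL n).ne']
  linear_combination NN L (n + 1) * e1 - a (n + 1) ^ 2 * NN L n * e2

theorem Tower.not_aap {η : ℕ → ℝ} {μ : ℕ → Measure ℝ} (T : Tower η μ)
    [NullSingletonClass (sstep.pull (μ 0))] {p : ℕ → ℝ[X]} {a b : ℕ → ℝ}
    (h : JData (mom (sstep.pull (μ 0))) p a b) : ¬ AsympAlmostPeriodic a b := by
  have := T.null 0
  have hg := good_s (T.good 0)
  have hL := hg.posDef
  have hodd : ∀ k, a (2 * k + 1) ^ 2 = TT (μ 0) k := by
    intro k; rw [h.a_sq hL, NN_odd (T.good 0), NN_even (T.good 0)]; rfl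
  have heven : ∀ k, a (2 * k + 1 + 1) ^ 2 = RR (μ 0) k := by
    intro k
    rw [h.a_sq hL, NN_odd (T.good 0), show 2 * k + 1 + 1 = 2 * (k + 1) by ring,
      NN_even (T.good 0)]; rfl
  have hX : ∀ q, mom (sstep.pull (μ 0)) ((X * q) * (X * q)) ≤ 4 * mom (sstep.pull (μ 0)) (q * q) := by
    intro q
    rw [← fnl_C_mul]
    refine hg.mom_mono fun x hx => ?_
    simp only [eval_mul, eval_X, eval_C]
    have : x ^ 2 ≤ 4 := by nlinarith [hx.1, hx.2]
    nlinarith [mul_self_nonneg (q.eval x)]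
  have hgeo : Tendsto (fun t : ℕ => (1 / 2 : ℝ) ^ t) atTop (𝓝 0) :=
    tendsto_pow_atTop_nhds_zero_of_lt_one (by norm_num) (by norm_num)
  have hsq : ∀ (n : ℕ → ℕ) (c : ℝ), (∀ t, a (n t + 1) ^ 2 ≤ c * (1 / 2) ^ t) →
      Tendsto (fun t => a (n t + 1)) atTop (𝓝 0) := by
    intro n c hc
    have h1 : Tendsto (fun t => a (n t + 1) ^ 2) atTop (𝓝 0) :=
      squeeze_zero (fun _ => sq_nonneg _) hc (by simpa using hgeo.const_mul c)
    have h2 := h1.sqrt
    rw [Real.sqrt_zero] at h2
    refine h2.congr fun t => Real.sqrt_sq (h.pos _ (by omega)).le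
  have hidx : ∀ k, Tendsto (fun t => 2 * idx t k + 1) atTop atTop := by
    intro k
    refine tendsto_atTop_mono (fun t => ?_) tendsto_id
    have e := idx_succ t k
    have e2 : t < 4 ^ t := Nat.lt_pow_self (by norm_num)
    have e3 : 4 ^ t ≤ 4 ^ t * (k + 1) := Nat.le_mul_of_pos_right _ (by omega)
    simp only [id]; omega
  have hres : ∀ k j, Tendsto (fun t => a (2 * idx t k + 1 + 1 + j)) atTop
      (𝓝 (if j = 0 then 0 else a j)) := by
    intro k j
    have h0 : Tendsto (fun t => a (2 * idx t k + 1 + 1)) atTop (𝓝 0) :=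
      hsq _ 3 fun t => by rw [heven]; exact T.RR_small k t
    cases j with
    | zero => simpa using h0
    | succ j =>
      rw [if_neg (Nat.succ_ne_zero j)]
      refine restart hL hX hg.mom_one h (fun t => 2 * idx t k + 1 + 1) (fun t => by omega) h0
        (fun q => ?_) j
      filter_upwards [eventually_gt_atTop q.natDegree] with t ht
      have e := T.chain_same (k + 1) t 0
      have e1 := sstep.isOP_lift (T.good 0) hg (OP_isOP (T.good 0).posDef (4 ^ t * (k + 1)))
      have e2 := sstep.sameMom_lift (T.good 0) hg (4 ^ t * (k + 1)) e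
      rw [e1.unique hL (OP_isOP hL _)] at e2
      have e3 : 2 * idx t k + 1 + 1 = 2 * (4 ^ t * (k + 1)) := by rw [← idx_succ]; ring
      obtain ⟨e4, e5⟩ := h.eq_OP hL (2 * idx t k + 1 + 1)
      have hq : q.degree < (2 * 4 ^ t : ℕ) := by
        have e2 : t < 4 ^ t := Nat.lt_pow_self (by norm_num)
        exact lt_of_le_of_lt degree_le_natDegree (by norm_cast; omega)
      have e6 := e2 q hq
      rw [← e3] at e6
      set c := (p (2 * idx t k + 1 + 1)).leadingCoeff
      set P := OP (mom (sstep.pull (μ 0))) (2 * idx t k + 1 + 1)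
      rw [e4, show q * (C c * P * (C c * P)) = C (c ^ 2) * (q * (P * P)) by rw [C_pow]; ring,
        fnl_C_mul, e6]
      have : mom (sstep.pull (μ 0)) (P * P) = NN (mom (sstep.pull (μ 0))) (2 * idx t k + 1 + 1) :=
        rfl
      rw [this]
      linear_combination mom (sstep.pull (μ 0)) q * e5
  refine Pool.Agent.Lib.MP_4d2d01_an.not_aap (fun t => 2 * idx t 0 + 1) (fun t => 2 * idx t 1 + 1)
    (hidx 0) (hidx 1) _ (hres 0) (hres 1) (δ := 1 / 60) (by norm_num) (fun t => ?_)
    (hsq (fun t => 2 * idx t 1) 32 fun t => by rw [hodd]; exact T.TT_small t)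
  have e := T.chain_inv t 0
  have p0 := TT_pos (T.good 0) (idx t 0)
  rw [inv_le_comm₀ p0 (by norm_num), ← hodd] at e
  have p1 := h.pos (2 * idx t 0 + 1) (by omega)
  apply le_of_sq_le_sq _ p1.le
  linarith

end Pool.Agent.Lib.MP_4d2d01_an
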