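import Pool.Agent.Lib.MP_4d2d01_an.Energy
import Pool.Agent.Lib.MP_4d2d01_an.Green
import Pool.Agent.Lib.MP_4d2d01_an.Recur

/-! Identification of the equilibrium measure and the final assembly. -/

open Polynomial MeasureTheory Set Filter Topology

namespace Pool.Agent.Lib.MP_4d2d01_an

theorem good_of_KF {ρ : Measure ℝ} (h1 : IsProbabilityMeasure ρ) (h2 : ρ KFᶜ = 0) : Good ρ 2 :=
  ⟨h1, (show ∀ᵐ x ∂ρ, x ∈ KF from h2).mono fun _ hx => KF_subset hx⟩

theorem norm_ofReal_sub (x y : ℝ) : ‖(x : ℂ) - (y : ℂ)‖ = |x - y| := by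
  rw [← Complex.ofReal_sub, Complex.norm_real, Real.norm_eq_abs]

theorem int_log_nu (x : ℝ) : Integrable (fun y : ℝ => Real.log |x - y|) nu := by
  simpa only [norm_ofReal_sub] using (pot_nu x).1

theorem integral_log_nu {x : ℝ} (hx : x ∈ KF) : ∫ y, Real.log |x - y| ∂nu = -(cc 0 / 2) := by
  simpa only [pot, norm_ofReal_sub] using pot_nu_on hx

theorem finPair_nu {ρ : Measure ℝ} (h1 : IsProbabilityMeasure ρ) (h2 : ρ KFᶜ = 0) :
    FinPair ρ nu ∧ mutual_en ρ nu = cc 0 / 2 := by
  have := good_nu.prob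
  have := null_nu
  have hae : ∀ᵐ x ∂ρ, x ∈ KF := h2
  have hm : Measurable fun p : ℝ × ℝ => Real.log |p.1 - p.2| :=
    Real.measurable_log.comp (by fun_prop)
  have hint : Integrable (fun p : ℝ × ℝ => Real.log |p.1 - p.2|) (ρ.prod nu) := by
    rw [integrable_prod_iff hm.aestronglyMeasurable]
    refine ⟨Eventually.of_forall int_log_nu, ?_⟩
    refine Integrable.of_bound (hm.norm.stronglyMeasurable.integral_prod_right').aestronglyMeasurable
      (2 * Real.log 4 + cc 0 / 2) ?_
    filter_upwards [hae] with x hx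
    rw [Real.norm_of_nonneg (integral_nonneg fun _ => norm_nonneg _)]
    have hle : ∀ᵐ y ∂nu, ‖Real.log |x - y|‖ ≤ 2 * Real.log 4 - Real.log |x - y| := by
      filter_upwards [good_nu.supp] with y hy
      have hx2 := KF_subset hx
      have l4 : 0 ≤ Real.log 4 := Real.log_nonneg (by norm_num)
      have : Real.log |x - y| ≤ Real.log 4 := by
        rcases (abs_nonneg (x - y)).eq_or_lt with h0 | h0
        · rw [← h0, Real.log_zero]; exact l4
        · exact Real.log_le_log h0 (abs_le.mpr ⟨by linarith [hx2.1, hy.2], by linarith [hx2.2, hy.1]⟩)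
      rw [Real.norm_eq_abs, abs_le]; constructor <;> linarith
    have := integral_mono_ae (int_log_nu x).norm ((integrable_const _).sub (int_log_nu x)) hle
    simp only [Pi.sub_apply] at this
    rw [integral_sub (integrable_const _) (int_log_nu x), integral_log_nu hx] at this
    simpa using this
  refine ⟨⟨?_, hint⟩, ?_⟩
  · rw [Measure.measure_prod_null (measurableSet_eq_fun measurable_fst measurable_snd)]
    refine Eventually.of_forall fun x => ?_
    have : Prod.mk x ⁻¹' {p : ℝ × ℝ | p.1 = p.2} = {x} := by ext y; simp [eq_comm]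
    simp [this]
  · unfold mutual_en
    rw [integral_neg, integral_prod _ hint,
      integral_congr_ae (g := fun _ => -(cc 0 / 2)) (hae.mono fun x hx => integral_log_nu hx)]
    simp

theorem nu_KF : nu KFᶜ = 0 := ae_KF

theorem energy_gap {ρ : Measure ℝ} (h1 : IsProbabilityMeasure ρ) (h2 : ρ KFᶜ = 0)
    (h3 : FiniteEnergy ρ) (m : ℕ) :
    2 / m * (cm m ρ - cm m nu) ^ 2 ≤ energy ρ - energy nu := by
  have a := finPair_nu h1 h2
  have b := finPair_nu good_nu.prob nu_KF
  have e := energy_ineq (good_of_KF h1 h2) good_nu h3 b.1 a.1 m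
  rw [a.2, b.2] at e
  have e1 : energy nu = cc 0 / 2 := b.2
  have e2 : energy ρ = mutual_en ρ ρ := rfl
  linarith

theorem finiteEnergy_nu : FiniteEnergy nu := (finPair_nu good_nu.prob nu_KF).1

theorem equilibrium_nu : IsEquilibriumMeasure KF nu :=
  ⟨good_nu.prob, nu_KF, finiteEnergy_nu, fun ρ h1 h2 h3 => by
    have := energy_gap h1 h2 h3 0
    simp only [Nat.cast_zero, div_zero, zero_mul] at this
    linarith⟩

theorem generic_KF : IsGeneric KF :=
  ⟨KF_compact, ⟨nu, good_nu.prob, nu_KF, finiteEnergy_nu⟩, green_KF⟩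

theorem mom_eq_nu {ρ : Measure ℝ} (h : IsEquilibriumMeasure KF ρ) : mom ρ = mom nu := by
  obtain ⟨h1, h2, h3, h4⟩ := h
  refine mom_eq_of_cm (good_of_KF h1 h2) good_nu fun m hm => ?_
  have e := energy_gap h1 h2 h3 m
  have e' := h4 nu good_nu.prob nu_KF finiteEnergy_nu
  have hp : (0 : ℝ) < 2 / m := by
    have : (0 : ℝ) < m := by exact_mod_cast hm
    positivity
  have : (cm m ρ - cm m nu) ^ 2 ≤ 0 := by
    by_contra hc
    have := mul_pos hp (not_le.mp hc)
    linarith
  have := pow_eq_zero_iff (two_ne_zero) |>.mp (le_antisymm this (sq_nonneg _))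
  linarith

theorem isJacobi_iff {ρ : Measure ℝ} (h : Good ρ 2) (a b : ℕ → ℝ) :
    IsJacobi ρ a b ↔ ∃ p, JData (mom ρ) p a b := by
  have e : ∀ p q : ℝ[X], mom ρ (p * q) = ∫ x, p.eval x * q.eval x ∂ρ := fun p q => by
    rw [h.mom_apply]; simp only [eval_mul]
  constructor
  · rintro ⟨p, h1, h2, h3, h4, h5⟩
    exact ⟨p, h1, fun m n => by rw [e, h2], h3, h4, h5⟩
  · rintro ⟨p, h1, h2, h3, h4, h5⟩
    exact ⟨p, h1, fun m n => by rw [← e, h2], h3, h4, h5⟩

/-- A polynomial of degree at most `n` orthogonal to the first `n+1` monic orthogonal polynomials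
vanishes. -/
theorem eq_zero_of_orth {L : Fnl} (hL : PosDef L) (n : ℕ) : ∀ q : ℝ[X], q.degree < n →
    (∀ k, k < n → L (OP L k * q) = 0) → q = 0 := by
  induction n with
  | zero => intro q hq _; simpa using hq
  | succ n ih =>
    intro q hq h
    have hle : q.degree ≤ n := Order.le_of_lt_succ (by exact_mod_cast hq)
    have e := (OP_isOP hL n).pair q hle
    rw [h n (Nat.lt_succ_self n)] at e
    have hc : q.coeff n = 0 := by
      rcases mul_eq_zero.mp e.symm with h0 | h0
      · exact h0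
      · exact absurd h0 (NN_pos hL n).ne'
    refine ih q ?_ fun k hk => h k (by omega)
    rw [degree_lt_iff_coeff_zero]
    intro m hm
    rcases eq_or_lt_of_le hm with rfl | hlt
    · exact hc
    · exact coeff_eq_zero_of_degree_lt (lt_of_le_of_lt hle (by exact_mod_cast hlt))

theorem OP_orth {L : Fnl} (hL : PosDef L) {m n : ℕ} (h : m ≠ n) : L (OP L m * OP L n) = 0 := by
  rcases lt_or_gt_of_ne h with h | h
  · rw [mul_comm]
    exact (OP_isOP hL n).2.2 _ (by rw [(OP_isOP hL m).degree_eq]; exact_mod_cast h)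
  · exact (OP_isOP hL m).2.2 _ (by rw [(OP_isOP hL n).degree_eq]; exact_mod_cast h)

/-- Monic three-term recurrence. -/
theorem OP_rec {L : Fnl} (hL : PosDef L) (n : ℕ) :
    X * OP L n = OP L (n + 1) + C (L (X * OP L n * OP L n) / NN L n) * OP L n
      + C (if n = 0 then 0 else NN L n / NN L (n - 1)) * OP L (n - 1) := by
  have o := fun k => OP_isOP hL k
  have hX : (X * OP L n).Monic := monic_X.mul (o n).1
  have hXd : ∀ k, (X * OP L k).natDegree = k + 1 := fun k => by
    rw [natDegree_X_mul (o k).1.ne_zero, (o k).2.1]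
  rw [← sub_eq_zero]
  refine eq_zero_of_orth hL (n + 1) _ ?_ fun k hk => ?_
  · rw [← sub_sub, ← sub_sub]
    refine (degree_sub_le _ _).trans_lt (max_lt ((degree_sub_le _ _).trans_lt (max_lt ?_ ?_)) ?_)
    · exact degree_sub_lt_of_monic hX (o _).1 (hXd n) (o _).2.1
    · rw [← smul_eq_C_mul]
      refine (degree_smul_le _ _).trans_lt ?_
      rw [(o n).degree_eq]; exact_mod_cast Nat.lt_succ_self n
    · rw [← smul_eq_C_mul]
      refine (degree_smul_le _ _).trans_lt ?_
      rw [(o _).degree_eq]; exact_mod_cast (by omega : n - 1 < n + 1)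
  · have e : ∀ c d : ℝ, OP L k * (X * OP L n - (OP L (n + 1) + C c * OP L n + C d * OP L (n - 1)))
        = OP L n * (X * OP L k) - OP L k * OP L (n + 1) - C c * (OP L k * OP L n)
          - C d * (OP L k * OP L (n - 1)) := fun c d => by ring
    rw [e, map_sub, map_sub, map_sub, fnl_C_mul, fnl_C_mul, OP_orth hL (by omega : k ≠ n + 1)]
    have hN := fun j => (NN_pos hL j).ne'
    rcases eq_or_lt_of_le (Nat.lt_succ_iff.mp hk) with rfl | hlt
    · have : (if k = 0 then 0 else NN L k / NN L (k - 1)) * L (OP L k * OP L (k - 1)) = 0 := by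
        split_ifs with h0
        · simp
        · rw [OP_orth hL (by omega), mul_zero]
      rw [this, show L (OP L k * OP L k) = NN L k from rfl, div_mul_cancel₀ _ (hN k),
        show OP L k * (X * OP L k) = X * OP L k * OP L k by ring]
      ring
    · rw [OP_orth hL hlt.ne, if_neg (by omega)]
      rcases eq_or_lt_of_le (show k + 1 ≤ n from hlt) with rfl | hlt2
      · rw [(o (k + 1)).pair_monic (monic_X.mul (o k).1) (hXd k)]
        simp only [Nat.add_sub_cancel]
        rw [show L (OP L k * OP L k) = NN L k from rfl, div_mul_cancel₀ _ (hN k)]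
        simp [NN]
      · rw [OP_orth hL (by omega : k ≠ n - 1), (o n).2.2 _ (by
          rw [degree_eq_natDegree (monic_X.mul (o k).1).ne_zero, hXd]; exact_mod_cast hlt2)]
        simp

theorem exists_jdata {L : Fnl} (hL : PosDef L) : ∃ p a b, JData L p a b := by
  have o := fun k => OP_isOP hL k
  set s : ℕ → ℝ := fun n => √(NN L n) with hs
  have sp : ∀ n, 0 < s n := fun n => Real.sqrt_pos.mpr (NN_pos hL n)
  have sq : ∀ n, s n * s n = NN L n := fun n => Real.mul_self_sqrt (NN_pos hL n).le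
  have key : ∀ n, X * (C (s n)⁻¹ * OP L n) = C (s (n + 1) / s n) * (C (s (n + 1))⁻¹ * OP L (n + 1))
      + C (L (X * OP L n * OP L n) / NN L n) * (C (s n)⁻¹ * OP L n)
      + C (if n = 0 then 0 else s n / s (n - 1)) * (C (s (n - 1))⁻¹ * OP L (n - 1)) := by
    intro n
    have e1 : s (n + 1) / s n * (s (n + 1))⁻¹ = (s n)⁻¹ := by
      have := (sp n).ne'; have := (sp (n + 1)).ne'; field_simp
    have e2 : (if n = 0 then 0 else s n / s (n - 1)) * (s (n - 1))⁻¹
        = (s n)⁻¹ * (if n = 0 then 0 else NN L n / NN L (n - 1)) := by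
      split_ifs
      · simp
      · rw [← sq, ← sq]
        have := (sp n).ne'; have := (sp (n - 1)).ne'; field_simp
    rw [← mul_assoc (C (s (n + 1) / s n)), ← C_mul, e1,
      ← mul_assoc (C (if n = 0 then 0 else s n / s (n - 1))), ← C_mul, e2, C_mul]
    linear_combination C (s n)⁻¹ * OP_rec hL n
  refine ⟨fun n => C (s n)⁻¹ * OP L n, fun n => s n / s (n - 1),
    fun n => L (X * OP L (n - 1) * OP L (n - 1)) / NN L (n - 1), fun n => ?_, fun m n => ?_,
    fun n _ => div_pos (sp _) (sp _), ?_, fun n hn => ?_⟩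
  · refine ⟨by rw [degree_C_mul (inv_pos.mpr (sp n)).ne', (o n).degree_eq], ?_⟩
    rw [leadingCoeff_mul, leadingCoeff_C, (o n).1.leadingCoeff, mul_one]
    exact inv_pos.mpr (sp n)
  · rw [show C (s m)⁻¹ * OP L m * (C (s n)⁻¹ * OP L n)
      = C (s m)⁻¹ * (C (s n)⁻¹ * (OP L m * OP L n)) by ring, fnl_C_mul, fnl_C_mul]
    split_ifs with h
    · subst h
      rw [show L (OP L m * OP L m) = NN L m from rfl, ← sq]
      have := (sp m).ne'; field_simp
    · rw [OP_orth hL h]; simp
  · simpa using key 0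
  · have := key n
    rw [if_neg (by omega)] at this
    simpa using this

theorem main_result : ∃ K : Set ℝ, IsGeneric K ∧ volume K = 0 ∧
    (∃ μ, IsEquilibriumMeasure K μ) ∧
    ∀ μ, IsEquilibriumMeasure K μ → (∃ a b, IsJacobi μ a b) ∧
      ∀ a b, IsJacobi μ a b → ¬ AsympAlmostPeriodic a b := by
  refine ⟨KF, generic_KF, vol_KF, ⟨nu, equilibrium_nu⟩, fun μ hμ => ?_⟩
  have hg := good_of_KF hμ.1 hμ.2.1
  have hm := mom_eq_nu hμ
  have := null_nu
  have hnull : NullSingletonClass (sstep.pull (mu 0)) := null_nu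
  constructor
  · obtain ⟨p, a, b, h⟩ := exists_jdata good_nu.posDef
    exact ⟨a, b, (isJacobi_iff hg a b).mpr ⟨p, hm ▸ h⟩⟩
  · intro a b h
    obtain ⟨p, h⟩ := (isJacobi_iff hg a b).mp h
    rw [hm] at h
    exact tower.not_aap h

end Pool.Agent.Lib.MP_4d2d01_an
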