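import Mathlib

/-! Monic orthogonal polynomials for a positive definite linear functional on polynomials. -/

open Polynomial

namespace Pool.Agent.Lib.MP_4d2d01_an

abbrev Fnl := ℝ[X] →ₗ[ℝ] ℝ

def PosDef (L : Fnl) : Prop := ∀ p : ℝ[X], p ≠ 0 → 0 < L (p * p)

def IsOP (L : Fnl) (k : ℕ) (p : ℝ[X]) : Prop :=
  p.Monic ∧ p.natDegree = k ∧ ∀ q : ℝ[X], q.degree < k → L (p * q) = 0

theorem PosDef.nonneg {L : Fnl} (h : PosDef L) (p : ℝ[X]) : 0 ≤ L (p * p) := by
  by_cases hp : p = 0
  · simp [hp]
  · exact (h p hp).le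

theorem fnl_C_mul (L : Fnl) (c : ℝ) (p : ℝ[X]) : L (C c * p) = c * L p := by
  rw [← smul_eq_C_mul, map_smul, smul_eq_mul]

theorem degree_sub_lt_of_monic {p q : ℝ[X]} {k : ℕ} (hp : p.Monic) (hq : q.Monic)
    (hpk : p.natDegree = k) (hqk : q.natDegree = k) : (p - q).degree < k := by
  have h1 : p.degree = k := by rw [degree_eq_natDegree hp.ne_zero, hpk]
  have h2 : q.degree = k := by rw [degree_eq_natDegree hq.ne_zero, hqk]
  have := degree_sub_lt_left (p := p) (q := q) (h1.trans h2.symm) hp.ne_zero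
    (by rw [hp.leadingCoeff, hq.leadingCoeff])
  rwa [h1] at this

theorem IsOP.degree_eq {L : Fnl} {k : ℕ} {p : ℝ[X]} (h : IsOP L k p) : p.degree = k := by
  rw [degree_eq_natDegree h.1.ne_zero, h.2.1]

/-- Pairing with a polynomial of degree at most `k`. -/
theorem IsOP.pair {L : Fnl} {k : ℕ} {p : ℝ[X]} (h : IsOP L k p) (q : ℝ[X])
    (hq : q.degree ≤ k) : L (p * q) = q.coeff k * L (p * p) := by
  have hlt : (q - C (q.coeff k) * p).degree < k := by
    rw [degree_lt_iff_coeff_zero]
    intro m hm
    rw [coeff_sub, coeff_C_mul]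
    rcases eq_or_lt_of_le hm with rfl | hlt
    · have : p.coeff k = 1 := by rw [← h.2.1]; exact h.1.coeff_natDegree
      rw [this]; ring
    · have h1 : q.coeff m = 0 := coeff_eq_zero_of_degree_lt (lt_of_le_of_lt hq (by exact_mod_cast hlt))
      have h2 : p.coeff m = 0 := coeff_eq_zero_of_natDegree_lt (by rw [h.2.1]; exact hlt)
      rw [h1, h2]; ring
  have h0 := h.2.2 _ hlt
  have : p * (q - C (q.coeff k) * p) = p * q - C (q.coeff k) * (p * p) := by ring
  rw [this, map_sub, fnl_C_mul] at h0
  linarith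

theorem IsOP.pair_monic {L : Fnl} {k : ℕ} {p : ℝ[X]} (h : IsOP L k p) {q : ℝ[X]}
    (hq : q.Monic) (hqk : q.natDegree = k) : L (p * q) = L (p * p) := by
  rw [h.pair q (by rw [degree_eq_natDegree hq.ne_zero, hqk])]
  have : q.coeff k = 1 := by rw [← hqk]; exact hq.coeff_natDegree
  rw [this, one_mul]

theorem IsOP.min {L : Fnl} (hL : PosDef L) {k : ℕ} {p : ℝ[X]} (h : IsOP L k p) {q : ℝ[X]}
    (hq : q.Monic) (hqk : q.natDegree = k) : L (p * p) ≤ L (q * q) := by
  have h1 := hL.nonneg (q - p)
  have h2 : (q - p) * (q - p) = q * q - p * q - p * q + p * p := by ring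
  rw [h2, map_add, map_sub, map_sub, h.pair_monic hq hqk] at h1
  linarith

theorem IsOP.unique {L : Fnl} (hL : PosDef L) {k : ℕ} {p q : ℝ[X]} (hp : IsOP L k p)
    (hq : IsOP L k q) : p = q := by
  by_contra hne
  have h1 := hL (p - q) (sub_ne_zero.mpr hne)
  have hd := degree_sub_lt_of_monic hp.1 hq.1 hp.2.1 hq.2.1
  have h2 : (p - q) * (p - q) = p * (p - q) - q * (p - q) := by ring
  rw [h2, map_sub, hp.2.2 _ hd, hq.2.2 _ hd] at h1
  simp at h1

theorem exists_isOP {L : Fnl} (hL : PosDef L) (k : ℕ) : ∃ p, IsOP L k p := by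
  induction k using Nat.strong_induction_on with
  | _ k ih =>
    choose! P hP using ih
    -- Gram-Schmidt
    set r : ℝ[X] := ∑ j ∈ Finset.range k, C (L (P j * X ^ k) / L (P j * P j)) * P j with hr
    have hrdeg : r.degree < k := by
      rw [hr]
      refine lt_of_le_of_lt (degree_sum_le _ _) ?_
      rw [Finset.sup_lt_iff (by exact WithBot.bot_lt_coe k)]
      intro j hj
      have hj' := Finset.mem_range.mp hj
      rw [← smul_eq_C_mul]
      refine lt_of_le_of_lt (degree_smul_le _ _) ?_
      rw [(hP j hj').degree_eq]; exact_mod_cast hj'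
    have hXk : (X ^ k : ℝ[X]).degree = k := degree_X_pow k
    have hmon : (X ^ k - r).Monic := (monic_X_pow k).sub_of_left (by rw [hXk]; exact hrdeg)
    have hdeg : (X ^ k - r).degree = (k : WithBot ℕ) := by
      rw [degree_sub_eq_left_of_degree_lt (by rw [hXk]; exact hrdeg), hXk]
    refine ⟨X ^ k - r, hmon, natDegree_eq_of_degree_eq_some hdeg, ?_⟩
    have horth : ∀ i < k, L ((X ^ k - r) * P i) = 0 := by
      intro i hi
      have hne : L (P i * P i) ≠ 0 := (hL _ (hP i hi).1.ne_zero).ne'
      rw [sub_mul, map_sub, hr, Finset.sum_mul, map_sum, Finset.sum_eq_single i]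
      · rw [mul_assoc, fnl_C_mul, mul_comm (X ^ k)]; field_simp; ring
      · intro j hj hji
        have hj' := Finset.mem_range.mp hj
        rw [mul_assoc, fnl_C_mul]
        rcases lt_or_gt_of_ne hji with h | h
        · rw [mul_comm (P j) (P i), (hP i hi).2.2 (P j) (by rw [(hP j hj').degree_eq]; exact_mod_cast h),
            mul_zero]
        · rw [(hP j hj').2.2 (P i) (by rw [(hP i hi).degree_eq]; exact_mod_cast h), mul_zero]
      · intro h; exact absurd (Finset.mem_range.mpr hi) h
    have key : ∀ m ≤ k, ∀ q : ℝ[X], q.degree < m → L ((X ^ k - r) * q) = 0 := by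
      intro m
      induction m with
      | zero =>
        intro _ q hq
        have : q = 0 := by
          rw [← degree_eq_bot]; exact Nat.WithBot.lt_zero_iff.mp (by exact_mod_cast hq)
        simp [this]
      | succ m ihm =>
        intro hm q hq
        have hmk : m < k := hm
        have hlt : (q - C (q.coeff m) * P m).degree < m := by
          rw [degree_lt_iff_coeff_zero]
          intro n hn
          rw [coeff_sub, coeff_C_mul]
          rcases eq_or_lt_of_le hn with rfl | hlt
          · have : (P m).coeff m = 1 := by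
              have := (hP m hmk).1.coeff_natDegree
              rwa [(hP m hmk).2.1] at this
            rw [this]; ring
          · have h1 : q.coeff n = 0 :=
              coeff_eq_zero_of_degree_lt (lt_of_lt_of_le hq (by exact_mod_cast hlt))
            have h2 : (P m).coeff n = 0 :=
              coeff_eq_zero_of_natDegree_lt (by rw [(hP m hmk).2.1]; exact hlt)
            rw [h1, h2]; ring
        have h0 := ihm hmk.le _ hlt
        have : (X ^ k - r) * (q - C (q.coeff m) * P m)
            = (X ^ k - r) * q - C (q.coeff m) * ((X ^ k - r) * P m) := by ring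
        rw [this, map_sub, fnl_C_mul, horth m hmk] at h0
        linarith
    exact key k le_rfl

/-- The monic orthogonal polynomial of degree `k`. -/
noncomputable def OP (L : Fnl) (k : ℕ) : ℝ[X] := by
  classical exact if h : ∃ p, IsOP L k p then h.choose else 0

theorem OP_isOP {L : Fnl} (hL : PosDef L) (k : ℕ) : IsOP L k (OP L k) := by
  have h := exists_isOP hL k
  simp only [OP, dif_pos h]; exact h.choose_spec

/-- The squared norm of the monic orthogonal polynomial. -/
noncomputable def NN (L : Fnl) (k : ℕ) : ℝ := L (OP L k * OP L k)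

theorem NN_pos {L : Fnl} (hL : PosDef L) (k : ℕ) : 0 < NN L k :=
  hL _ (OP_isOP hL k).1.ne_zero

theorem NN_le {L : Fnl} (hL : PosDef L) {k : ℕ} {q : ℝ[X]} (hq : q.Monic)
    (hqk : q.natDegree = k) : NN L k ≤ L (q * q) := (OP_isOP hL k).min hL hq hqk

theorem IsOP.NN_eq {L : Fnl} (hL : PosDef L) {k : ℕ} {p : ℝ[X]} (h : IsOP L k p) :
    NN L k = L (p * p) := by
  rw [h.unique hL (OP_isOP hL k)]; rfl

/-- The functional weighted by `1 - X`. -/
noncomputable def wt (L : Fnl) : Fnl := L ∘ₗ LinearMap.mulLeft ℝ (1 - X : ℝ[X])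

@[simp] theorem wt_apply (L : Fnl) (p : ℝ[X]) : wt L p = L ((1 - X) * p) := rfl

/-- Norm of `(1 - X) Q_k`. -/
theorem wt_sq {L : Fnl} (hL : PosDef L) (hW : PosDef (wt L)) (k : ℕ) :
    L (((1 - X) * OP (wt L) k) * ((1 - X) * OP (wt L) k))
      = NN (wt L) k ^ 2 / NN L k + NN L (k + 1) := by
  set Q := OP (wt L) k
  have hQ : IsOP (wt L) k Q := OP_isOP hW k
  set p := OP L k
  have hp : IsOP L k p := OP_isOP hL k
  set p' := OP L (k + 1)
  have hp' : IsOP L (k + 1) p' := OP_isOP hL (k + 1)
  set U : ℝ[X] := (1 - X) * Q with hU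
  have hmU : ((X - C 1) * Q).Monic := (monic_X_sub_C 1).mul hQ.1
  have hdU : ((X - C 1) * Q).natDegree = k + 1 := by
    rw [(monic_X_sub_C 1).natDegree_mul hQ.1, natDegree_X_sub_C, hQ.2.1]; ring
  have hUeq : U = -((X - C 1) * Q) := by rw [hU]; simp; ring
  have hV : ((X - C 1) * Q - p').degree < ((k + 1 : ℕ) : WithBot ℕ) :=
    degree_sub_lt_of_monic hmU hp'.1 hdU hp'.2.1
  set V := (X - C 1) * Q - p' with hVdef
  have hVle : V.degree ≤ k := by
    rw [degree_le_iff_coeff_zero]
    intro m hm
    exact coeff_eq_zero_of_degree_lt (lt_of_lt_of_le hV (by exact_mod_cast hm))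
  have hUV : U = -V - p' := by rw [hUeq, hVdef]; ring
  -- pairing of U with polynomials of degree at most k
  have hpairU : ∀ q : ℝ[X], q.degree ≤ k → L (U * q) = q.coeff k * NN (wt L) k := by
    intro q hq
    have := hQ.pair q hq
    rw [wt_apply, ← mul_assoc] at this
    exact this
  have hpk : p.coeff k = 1 := by have := hp.1.coeff_natDegree; rwa [hp.2.1] at this
  have h1 : L (U * p) = NN (wt L) k := by rw [hpairU p hp.degree_eq.le, hpk, one_mul]
  have h2 : L (U * p) = -(V.coeff k * NN L k) := by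
    rw [hUV]
    have : (-V - p') * p = -(p * V) - p' * p := by ring
    rw [this, map_sub, map_neg, hp.pair V hVle,
      hp'.2.2 p (by rw [hp.degree_eq]; exact_mod_cast Nat.lt_succ_self k)]
    simp [NN, p]
  have h3 : L (U * p') = -NN L (k + 1) := by
    rw [hUV]
    have : (-V - p') * p' = -(p' * V) - p' * p' := by ring
    rw [this, map_sub, map_neg, hp'.2.2 V hV]; simp [NN, p']
  have hN := NN_pos hL k
  have h4 : V.coeff k = -(NN (wt L) k / NN L k) := by
    field_simp; linarith
  have h5 : U * U = -(U * V) - U * p' := by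
    conv_lhs => rw [show U * U = U * (-V - p') by rw [← hUV]]
    ring
  rw [h5, map_sub, map_neg, hpairU V hVle, h3, h4]
  field_simp; ring

end Pool.Agent.Lib.MP_4d2d01_an
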