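import Pool.Agent.Lib.MP_4d2d01_an.Step

/-! The quartic with three close roots and one far root. -/

open Polynomial MeasureTheory Set

namespace Pool.Agent.Lib.MP_4d2d01_an

def Small (η : ℝ) : Prop := 0 < η ∧ η ≤ 1 / 65536

noncomputable def DD (η : ℝ) : ℝ := 512 * η ^ 4

noncomputable def Hq (η : ℝ) : ℝ[X] := (X - C 1) * X * (X ^ 2 - C (η ^ 2)) + C (DD η)

noncomputable def cl (y : ℝ) : ℝ := max (-1) (min 1 y)

theorem cl_mem (y : ℝ) : cl y ∈ Icc (-1 : ℝ) 1 :=
  ⟨le_max_left _ _, max_le (by norm_num) (min_le_left _ _)⟩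

theorem cl_eq {y : ℝ} (hy : y ∈ Icc (-1 : ℝ) 1) : cl y = y := by
  unfold cl; rw [min_eq_right hy.2, max_eq_right hy.1]

theorem abs_cl_sub (y y' : ℝ) : |cl y - cl y'| ≤ |y - y'| := by
  unfold cl
  rw [max_comm (-1), max_comm (-1), min_comm 1, min_comm 1]
  exact (abs_max_sub_max_le_abs _ _ _).trans (by
    have := abs_min_sub_min_le_max y 1 y' 1
    simpa using this)

theorem eval_Hq (η x : ℝ) : (Hq η).eval x = (x - 1) * x * (x ^ 2 - η ^ 2) + DD η := by
  simp [Hq]

theorem Small.DD_pos {η : ℝ} (h : Small η) : 0 < DD η := by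
  have := h.1; unfold DD; positivity

theorem Small.DD_le {η : ℝ} (h : Small η) : DD η ≤ η ^ 3 / 128 := by
  have h1 := h.1; have h2 := h.2
  unfold DD
  have : 0 < η ^ 3 := by positivity
  nlinarith

theorem monic_Hq (η : ℝ) : (Hq η).Monic := by
  unfold Hq; monicity!

theorem natDegree_Hq (η : ℝ) : (Hq η).natDegree = 4 := by
  unfold Hq; compute_degree!

structure Loc (η : ℝ) (x : Fin 4 → ℝ) : Prop where
  l0 : -η ≤ x 0
  u0 : x 0 ≤ -(7 / 8 * η)
  l1 : -(η / 8) ≤ x 1
  u1 : x 1 ≤ 0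
  l2 : η ≤ x 2
  u2 : x 2 ≤ 9 / 8 * η
  l3 : 7 / 8 ≤ x 3
  u3 : x 3 ≤ 1

theorem exists_roots {η : ℝ} (h : Small η) {y : ℝ} (hy : y ∈ Icc (-1 : ℝ) 1) :
    ∃ x : Fin 4 → ℝ, Loc η x ∧ ∀ i, (Hq η).eval (x i) = DD η * y := by
  have h1 := h.1; have h2 := h.2
  have hD := h.DD_pos; have hD' := h.DD_le
  have h3 : 0 < η ^ 3 := by positivity
  have hc : Continuous fun x => (Hq η).eval x := (Hq η).continuous
  have hup : DD η * y ≤ DD η := by nlinarith [hy.2]
  have hlo : DD η - η ^ 3 / 64 ≤ DD η * y := by nlinarith [hy.1]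
  obtain ⟨a, ha, hae⟩ : ∃ a ∈ Icc (-η) (-(7 / 8 * η)), (Hq η).eval a = DD η * y := by
    apply intermediate_value_Icc' (by linarith) hc.continuousOn
    simp only [eval_Hq]
    constructor <;> nlinarith [mul_pos h3 h1]
  obtain ⟨b, hb, hbe⟩ : ∃ a ∈ Icc (-(η / 8)) 0, (Hq η).eval a = DD η * y := by
    apply intermediate_value_Icc (by linarith) hc.continuousOn
    simp only [eval_Hq]
    constructor <;> nlinarith [mul_pos h3 h1]
  obtain ⟨c, hc', hce⟩ : ∃ a ∈ Icc η (9 / 8 * η), (Hq η).eval a = DD η * y := by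
    apply intermediate_value_Icc' (by linarith) hc.continuousOn
    simp only [eval_Hq]
    constructor <;> nlinarith [mul_pos h3 h1]
  obtain ⟨e, he, hee⟩ : ∃ a ∈ Icc (7 / 8 : ℝ) 1, (Hq η).eval a = DD η * y := by
    apply intermediate_value_Icc (by norm_num) hc.continuousOn
    simp only [eval_Hq]
    have : η ^ 2 ≤ 1 / 100 := by nlinarith
    have : η ^ 3 ≤ 1 / 100 := by nlinarith
    constructor <;> nlinarith
  refine ⟨![a, b, c, e], ⟨ha.1, ha.2, hb.1, hb.2, hc'.1, hc'.2, he.1, he.2⟩, fun i => ?_⟩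
  fin_cases i <;> assumption

open Classical in
noncomputable def rt (η : ℝ) (i : Fin 4) (y : ℝ) : ℝ :=
  if h : Small η then (exists_roots h (cl_mem y)).choose i else 0

namespace Small

variable {η : ℝ} (h : Small η)
include h

theorem loc (y : ℝ) : Loc η (fun i => rt η i y) := by
  simp only [rt, dif_pos h]; exact (exists_roots h (cl_mem y)).choose_spec.1

theorem eval_rt (y : ℝ) (i : Fin 4) : (Hq η).eval (rt η i y) = DD η * cl y := by
  simp only [rt, dif_pos h]; exact (exists_roots h (cl_mem y)).choose_spec.2 i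

theorem sep (y y' : ℝ) {i j : Fin 4} (hij : i ≠ j) : 3 / 4 * η ≤ |rt η i y - rt η j y'| := by
  have h1 := h.1; have h2 := h.2
  obtain ⟨a0, a1, a2, a3, a4, a5, a6, a7⟩ := h.loc y
  obtain ⟨b0, b1, b2, b3, b4, b5, b6, b7⟩ := h.loc y'
  rw [le_abs]
  fin_cases i <;> fin_cases j <;> simp only [Fin.zero_eta, Fin.mk_one, Fin.reduceFinMk] at * <;>
    first | exact absurd rfl hij | (left; linarith) | (right; linarith)

theorem rt_mem (i : Fin 4) (y : ℝ) : rt η i y ∈ Icc (-1 : ℝ) 1 := by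
  have h1 := h.1; have h2 := h.2
  obtain ⟨a0, a1, a2, a3, a4, a5, a6, a7⟩ := h.loc y
  fin_cases i <;> simp only [Fin.zero_eta, Fin.mk_one, Fin.reduceFinMk] at * <;>
    constructor <;> linarith

theorem injOn (y : ℝ) : InjOn (fun i => rt η i y) (Finset.univ : Finset (Fin 4)) := by
  intro i _ j _ hij
  by_contra hne
  have := h.sep y y hne
  simp only at hij
  rw [hij, sub_self, abs_zero] at this
  linarith [h.1]

theorem factor (y : ℝ) :
    Hq η - C (DD η * cl y) = Lagrange.nodal Finset.univ (fun i => rt η i y) := by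
  have hm : (Hq η - C (DD η * cl y)).Monic := (monic_Hq η).sub_of_left (by
    rw [degree_eq_natDegree (monic_Hq η).ne_zero, natDegree_Hq]
    exact lt_of_le_of_lt degree_C_le (by norm_num))
  have hd : (Hq η - C (DD η * cl y)).natDegree = 4 := by rw [natDegree_sub_C, natDegree_Hq]
  apply eq_of_degree_sub_lt_of_eval_index_eq _ (h.injOn y)
  · have := degree_sub_lt_of_monic hm (Lagrange.nodal_monic (s := Finset.univ)
      (v := fun i => rt η i y)) hd (by simp)
    simpa using this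
  · intro i hi
    have e := Lagrange.eval_nodal_at_node (s := Finset.univ) (v := fun i => rt η i y) hi
    rw [e, eval_sub, h.eval_rt]; simp

theorem factor_real (y z : ℝ) : (Hq η).eval z - DD η * cl y = ∏ i, (z - rt η i y) := by
  have := congrArg (eval z) (h.factor y)
  rwa [Lagrange.eval_nodal, eval_sub, eval_C] at this

theorem factor_complex (y : ℝ) (z : ℂ) :
    aeval z (Hq η) - (DD η * cl y : ℝ) = ∏ i, (z - (rt η i y : ℂ)) := by
  have := congrArg (aeval z) (h.factor y)
  rw [Lagrange.nodal_eq, map_prod] at this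
  simpa using this

theorem lipschitz_aux (i : Fin 4) (y y' : ℝ) : |rt η i y - rt η i y'| ≤ 1 / 8 * |y - y'| := by
  have h1 := h.1
  have e := h.factor_real y' (rt η i y)
  rw [h.eval_rt, ← Finset.mul_prod_erase _ _ (Finset.mem_univ i)] at e
  have e2 := congrArg abs e
  rw [← mul_sub, abs_mul, abs_mul, abs_of_pos h.DD_pos, Finset.abs_prod] at e2
  have lb : (3 / 4 * η) ^ 3 ≤ ∏ j ∈ Finset.univ.erase i, |rt η i y - rt η j y'| := by
    have : (3 / 4 * η) ^ 3 = ∏ j ∈ Finset.univ.erase i, (3 / 4 * η) := by simp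
    rw [this]
    exact Finset.prod_le_prod (fun _ _ => by positivity)
      fun j hj => h.sep y y' (Finset.ne_of_mem_erase hj).symm
  have hc := abs_cl_sub y y'
  have hD := h.DD_le
  have h3 : 0 < η ^ 3 := by positivity
  have t1 : |rt η i y - rt η i y'| * (3 / 4 * η) ^ 3 ≤ η ^ 3 / 128 * |y - y'| :=
    calc _ ≤ |rt η i y - rt η i y'| * ∏ j ∈ Finset.univ.erase i, |rt η i y - rt η j y'| := by
          gcongr
      _ = DD η * |cl y - cl y'| := e2.symm
      _ ≤ _ := by gcongr
  have t2 : |rt η i y - rt η i y'| * (27 / 64) ≤ 1 / 128 * |y - y'| := by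
    have : |rt η i y - rt η i y'| * (27 / 64) * η ^ 3 ≤ 1 / 128 * |y - y'| * η ^ 3 := by
      nlinarith
    exact le_of_mul_le_mul_right this h3
  nlinarith [abs_nonneg (y - y')]

theorem lipschitz (i : Fin 4) : LipschitzWith (1 / 8) (rt η i) :=
  LipschitzWith.of_dist_le_mul fun y y' => by
    rw [Real.dist_eq, Real.dist_eq]; simpa using h.lipschitz_aux i y y'

/-- Among the four roots at most one is close to a given complex number. -/
theorem exists_near (z : ℂ) : ∃ i : Fin 4, ∀ j, j ≠ i → ∀ y, 3 / 8 * η ≤ ‖z - (rt η j y : ℂ)‖ := by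
  by_contra hcon
  push Not at hcon
  obtain ⟨i, -, y, hi⟩ := hcon 0
  obtain ⟨j, hji, y', hj⟩ := hcon i
  have := h.sep y' y hji
  have e : ((rt η j y' - rt η i y : ℝ) : ℂ) = (z - (rt η i y : ℂ)) - (z - (rt η j y' : ℂ)) := by
    push_cast; ring
  have t := norm_sub_le (z - (rt η i y : ℂ)) (z - (rt η j y' : ℂ))
  rw [← e, Complex.norm_real, Real.norm_eq_abs] at t
  linarith

end Small

/-- Lagrange weights. -/
noncomputable def wg (η : ℝ) (i : Fin 4) (y : ℝ) : ℝ :=
  ∏ j ∈ Finset.univ.erase i, (rt η i y - rt η j y)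

namespace Small

variable {η : ℝ} (h : Small η)
include h

theorem lagrange (y : ℝ) {q : ℝ[X]} (hq : q.degree < (4 : ℕ)) :
    ∑ i, q.eval (rt η i y) / wg η i y = q.coeff 3 :=
  (Lagrange.coeff_eq_sum (h.injOn y) (by simpa using hq)).symm

theorem wg_ne (i : Fin 4) (y : ℝ) : wg η i y ≠ 0 := by
  unfold wg
  rw [Finset.prod_ne_zero_iff]
  intro j hj h0
  have := h.sep y y (Finset.ne_of_mem_erase hj).symm
  rw [h0, abs_zero] at this
  linarith [h.1]

theorem deriv_rt (i : Fin 4) (y : ℝ) : (derivative (Hq η)).eval (rt η i y) = wg η i y := by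
  have := congrArg derivative (h.factor y)
  rw [derivative_sub, derivative_C, sub_zero] at this
  rw [this]
  have e := Lagrange.eval_nodal_derivative_eval_node_eq (s := Finset.univ)
    (v := fun i => rt η i y) (Finset.mem_univ i)
  rw [e, Lagrange.eval_nodal]; rfl

/-- Weighted transfer. -/
theorem wtransfer (k : ℕ) : ∀ q : ℝ[X], q.degree < (4 * k + 4 : ℕ) →
    ∃ ρ : ℝ[X], ρ.degree ≤ k ∧ ρ.coeff k = DD η ^ k * q.coeff (4 * k + 3) ∧
      ∀ y, ∑ i, q.eval (rt η i y) / wg η i y = ρ.eval (cl y) := by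
  induction k with
  | zero =>
    intro q hq
    exact ⟨C (q.coeff 3), by simpa using degree_C_le, by simp,
      fun y => by rw [h.lagrange y (by simpa using hq), eval_C]⟩
  | succ k ih =>
    intro q hq
    have hm := monic_Hq η
    have hH : (Hq η).degree = (4 : ℕ) := by rw [degree_eq_natDegree hm.ne_zero, natDegree_Hq]
    have hr : (q %ₘ Hq η).degree < (4 : ℕ) := by rw [← hH]; exact degree_modByMonic_lt q hm
    have h1 : (q /ₘ Hq η).degree < (4 * k + 4 : ℕ) := by
      by_cases h0 : q /ₘ Hq η = 0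
      · rw [h0]; exact WithBot.bot_lt_coe _
      · have hq0 : q ≠ 0 := by rintro rfl; simp at h0
        have e1 := natDegree_divByMonic q hm
        have e2 : q.natDegree < 4 * (k + 1) + 4 := (natDegree_lt_iff_degree_lt hq0).mpr hq
        rw [← natDegree_lt_iff_degree_lt h0, e1, natDegree_Hq]
        omega
    obtain ⟨ρ, hρ, hρc, hρe⟩ := ih _ h1
    have hcoef : q.coeff (4 * (k + 1) + 3) = (q /ₘ Hq η).coeff (4 * k + 3) := by
      conv_lhs => rw [← modByMonic_add_div q (Hq η)]
      rw [coeff_add, coeff_eq_zero_of_degree_lt (lt_of_lt_of_le hr (by norm_cast; omega)), zero_add]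
      have hle : (q /ₘ Hq η).natDegree ≤ 4 * k + 3 := by
        rw [natDegree_le_iff_coeff_eq_zero]
        intro N hN
        exact coeff_eq_zero_of_degree_lt (lt_of_lt_of_le h1 (by exact_mod_cast hN))
      have := coeff_mul_add_eq_of_natDegree_le (natDegree_Hq η).le hle
      rw [show 4 * (k + 1) + 3 = 4 + (4 * k + 3) by ring, this]
      have : (Hq η).coeff 4 = 1 := by have := hm.coeff_natDegree; rwa [natDegree_Hq] at this
      rw [this, one_mul]
    refine ⟨C ((q %ₘ Hq η).coeff 3) + C (DD η) * (X * ρ), ?_, ?_, fun y => ?_⟩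
    · rw [degree_le_iff_coeff_zero]
      intro m hm'
      have hm2 : k + 1 < m := by exact_mod_cast hm'
      obtain ⟨m', rfl⟩ : ∃ m', m = m' + 1 := ⟨m - 1, by omega⟩
      rw [coeff_add, coeff_C_succ, coeff_C_mul, coeff_X_mul,
        coeff_eq_zero_of_degree_lt (lt_of_le_of_lt hρ (by norm_cast; omega))]
      simp
    · rw [coeff_add, coeff_C_succ, coeff_C_mul, coeff_X_mul, hρc, hcoef]; ring
    · have e : ∀ i, q.eval (rt η i y) / wg η i y = (q %ₘ Hq η).eval (rt η i y) / wg η i y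
          + DD η * cl y * ((q /ₘ Hq η).eval (rt η i y) / wg η i y) := by
        intro i
        conv_lhs => rw [← modByMonic_add_div q (Hq η)]
        rw [eval_add, eval_mul, h.eval_rt]; ring
      simp only [e, Finset.sum_add_distrib, ← Finset.mul_sum, h.lagrange y hr, hρe y, eval_add,
        eval_C, eval_mul, eval_X]
      ring

theorem wtransfer_monic {k : ℕ} {q : ℝ[X]} (hq : q.Monic) (hk : q.natDegree = 4 * k + 3) :
    ∃ ρ : ℝ[X], ρ.Monic ∧ ρ.natDegree = k ∧
      ∀ y ∈ Icc (-1 : ℝ) 1, ∑ i, q.eval (rt η i y) / wg η i y = DD η ^ k * ρ.eval y := by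
  obtain ⟨ρ, h1, h2, h3⟩ := h.wtransfer k q (by
    rw [degree_eq_natDegree hq.ne_zero, hk]; norm_cast; omega)
  have hc : q.coeff (4 * k + 3) = 1 := by rw [← hk]; exact hq.coeff_natDegree
  rw [hc, mul_one] at h2
  have hne : DD η ^ k ≠ 0 := pow_ne_zero _ h.DD_pos.ne'
  have hco : (C (DD η ^ k)⁻¹ * ρ).coeff k = 1 := by rw [coeff_C_mul, h2, inv_mul_cancel₀ hne]
  have hle : (C (DD η ^ k)⁻¹ * ρ).natDegree ≤ k :=
    (natDegree_C_mul_le _ _).trans (natDegree_le_of_degree_le h1)
  refine ⟨C (DD η ^ k)⁻¹ * ρ, monic_of_natDegree_le_of_coeff_eq_one k hle hco,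
    natDegree_eq_of_le_of_coeff_ne_zero hle (by rw [hco]; exact one_ne_zero), fun y hy => ?_⟩
  rw [h3 y, cl_eq hy, eval_mul, eval_C, ← mul_assoc, mul_inv_cancel₀ hne, one_mul]

theorem base (q : ℝ[X]) (hq : q.degree < (4 : ℕ)) :
    ∃ c, ∀ y ∈ Icc (-1 : ℝ) 1, ∑ i, q.eval (rt η i y) = c := by
  have hd : (q * derivative (Hq η)).natDegree ≤ 6 := by
    have a1 : q.natDegree ≤ 3 := by
      rw [natDegree_le_iff_coeff_eq_zero]
      intro N hN
      exact coeff_eq_zero_of_degree_lt (lt_of_lt_of_le hq (by exact_mod_cast hN))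
    have a2 : (derivative (Hq η)).natDegree ≤ 3 := by
      have := natDegree_derivative_le (Hq η); rwa [natDegree_Hq] at this
    exact natDegree_mul_le.trans (by omega)
  obtain ⟨ρ, h1, h2, h3⟩ := h.wtransfer 1 (q * derivative (Hq η))
    (lt_of_le_of_lt (degree_le_of_natDegree_le hd) (by norm_cast))
  rw [coeff_eq_zero_of_natDegree_lt (p := q * derivative (Hq η)) (by omega), mul_zero] at h2
  refine ⟨ρ.coeff 0, fun y _ => ?_⟩
  have e := h3 y
  rw [eq_X_add_C_of_degree_le_one (p := ρ) (by simpa using h1), h2] at e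
  simp only [eval_mul, h.deriv_rt, mul_div_assoc, div_self (h.wg_ne _ y), mul_one] at e
  rw [e]; simp

end Small

/-- The quartic step. -/
noncomputable def qstep {η : ℝ} (h : Small η) : Step 4 where
  D := DD η
  H := Hq η
  x := rt η
  hD := h.DD_pos.ne'
  monic := monic_Hq η
  deg := natDegree_Hq η
  dpos := by norm_num
  cont := fun i => (h.lipschitz i).continuous
  evalH := fun y hy i => by rw [h.eval_rt, cl_eq hy]
  base := h.base

/-- The final quadratic step `z ↦ 1 - z ^ 2`. -/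
noncomputable def sstep : Step 2 where
  D := -1
  H := X ^ 2 - C 1
  x := ![fun y => √(1 - y), fun y => -√(1 - y)]
  hD := by norm_num
  monic := by monicity!
  deg := by compute_degree!
  dpos := by norm_num
  cont := fun i => by fin_cases i <;> simp <;> fun_prop
  evalH := fun y hy i => by
    have : √(1 - y) ^ 2 = 1 - y := Real.sq_sqrt (by linarith [hy.2])
    fin_cases i <;> simp [this]
  base := fun q hq => by
    have hq' : q.degree ≤ 1 := by
      rw [degree_le_iff_coeff_zero]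
      intro m hm
      exact coeff_eq_zero_of_degree_lt (lt_of_lt_of_le hq (by exact_mod_cast hm))
    refine ⟨2 * q.coeff 0, fun y _ => ?_⟩
    rw [eq_X_add_C_of_degree_le_one hq']
    simp; ring

end Pool.Agent.Lib.MP_4d2d01_an
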