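import Pool.Agent.Lib.MP_4d2d01_an.OP

/-! Balanced pull-back of a measure under a polynomial with real inverse branches. -/

open Polynomial MeasureTheory Set
open scoped ENNReal

namespace Pool.Agent.Lib.MP_4d2d01_an

structure Good (μ : Measure ℝ) (r : ℝ) : Prop where
  prob : IsProbabilityMeasure μ
  supp : ∀ᵐ x ∂μ, x ∈ Icc (-r) r

theorem Good.mono {μ : Measure ℝ} {r r' : ℝ} (h : Good μ r) (hr : r ≤ r') : Good μ r' :=
  ⟨h.prob, h.supp.mono fun _ hx => ⟨by linarith [hx.1], by linarith [hx.2]⟩⟩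

theorem Good.integrable {μ : Measure ℝ} {r : ℝ} (h : Good μ r) {φ : ℝ → ℝ} (hφ : Continuous φ) :
    Integrable φ μ := by
  have := h.prob
  obtain ⟨M, hM⟩ := (isCompact_Icc (a := -r) (b := r)).exists_bound_of_continuousOn
    hφ.continuousOn
  exact Integrable.of_bound hφ.aestronglyMeasurable M (h.supp.mono fun x hx => hM x hx)

theorem Good.integral_mono {μ : Measure ℝ} {r : ℝ} (h : Good μ r) {φ ψ : ℝ → ℝ}
    (hφ : Continuous φ) (hψ : Continuous ψ) (hle : ∀ x ∈ Icc (-r) r, φ x ≤ ψ x) :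
    ∫ x, φ x ∂μ ≤ ∫ x, ψ x ∂μ :=
  integral_mono_ae (h.integrable hφ) (h.integrable hψ) (h.supp.mono hle)

theorem Good.integral_congr {μ : Measure ℝ} {r : ℝ} (h : Good μ r) {φ ψ : ℝ → ℝ}
    (hle : ∀ x ∈ Icc (-r) r, φ x = ψ x) : ∫ x, φ x ∂μ = ∫ x, ψ x ∂μ :=
  integral_congr_ae (h.supp.mono hle)

open Classical in
/-- The moment functional of a measure. -/
noncomputable def mom (μ : Measure ℝ) : Fnl :=
  if h : ∀ p : ℝ[X], Integrable (fun x => p.eval x) μ then
    { toFun := fun p => ∫ x, p.eval x ∂μ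
      map_add' := fun p q => by simp only [eval_add]; exact integral_add (h p) (h q)
      map_smul' := fun c p => by
        simp only [eval_smul, smul_eq_mul, RingHom.id_apply]; exact integral_const_mul _ _ }
  else 0

theorem Good.mom_apply {μ : Measure ℝ} {r : ℝ} (h : Good μ r) (p : ℝ[X]) :
    mom μ p = ∫ x, p.eval x ∂μ := by
  have : ∀ p : ℝ[X], Integrable (fun x => p.eval x) μ := fun p => h.integrable p.continuous
  simp only [mom, dif_pos this]; rfl

theorem Good.mom_one {μ : Measure ℝ} {r : ℝ} (h : Good μ r) : mom μ 1 = 1 := by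
  have := h.prob
  rw [h.mom_apply]; simp

theorem Good.mom_C {μ : Measure ℝ} {r : ℝ} (h : Good μ r) (c : ℝ) : mom μ (C c) = c := by
  have := fnl_C_mul (mom μ) c 1
  rwa [mul_one, h.mom_one, mul_one] at this

theorem Good.mom_mono {μ : Measure ℝ} {r : ℝ} (h : Good μ r) {p q : ℝ[X]}
    (hle : ∀ x ∈ Icc (-r) r, p.eval x ≤ q.eval x) : mom μ p ≤ mom μ q := by
  rw [h.mom_apply, h.mom_apply]; exact h.integral_mono p.continuous q.continuous hle

theorem Good.mom_pos {μ : Measure ℝ} {r : ℝ} (h : Good μ r) [NullSingletonClass μ] {p : ℝ[X]} (hp : p ≠ 0)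
    (hle : ∀ x ∈ Icc (-r) r, 0 ≤ p.eval x) : 0 < mom μ p := by
  have := h.prob
  rw [h.mom_apply, integral_pos_iff_support_of_nonneg_ae (h.supp.mono hle)
    (h.integrable p.continuous)]
  have hfin : μ {x | p.IsRoot x} = 0 := (finite_setOfPred_isRoot hp).measure_zero μ
  by_contra hz
  have hz' : μ (Function.support fun x => p.eval x) = 0 := by simpa using hz
  have : μ univ = 0 := by
    refine measure_mono_null (t := {x | p.IsRoot x} ∪ Function.support fun x => p.eval x) ?_
      (measure_union_null hfin hz')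
    intro x _
    by_cases hx : p.eval x = 0
    · left; exact hx
    · right; exact hx
  simp at this

theorem Good.posDef {μ : Measure ℝ} {r : ℝ} (h : Good μ r) [NullSingletonClass μ] : PosDef (mom μ) :=
  fun p hp => h.mom_pos (mul_ne_zero hp hp) fun x _ => by rw [eval_mul]; exact mul_self_nonneg _

theorem Good.posDef_wt {μ : Measure ℝ} (h : Good μ 1) [NullSingletonClass μ] : PosDef (wt (mom μ)) := by
  intro p hp
  rw [wt_apply]
  refine h.mom_pos (mul_ne_zero ?_ (mul_ne_zero hp hp)) fun x hx => ?_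
  · intro h0
    have := congrArg (eval 0) h0
    simp at this
  · simp only [eval_mul, eval_sub, eval_one, eval_X]
    exact mul_nonneg (by linarith [hx.2]) (mul_self_nonneg _)

structure Step (d : ℕ) where
  D : ℝ
  H : ℝ[X]
  x : Fin d → ℝ → ℝ
  hD : D ≠ 0
  monic : H.Monic
  deg : H.natDegree = d
  dpos : 0 < d
  cont : ∀ i, Continuous (x i)
  evalH : ∀ y ∈ Icc (-1 : ℝ) 1, ∀ i, H.eval (x i y) = D * y
  base : ∀ q : ℝ[X], q.degree < d → ∃ c, ∀ y ∈ Icc (-1 : ℝ) 1, ∑ i, q.eval (x i y) = c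

namespace Step

variable {d : ℕ} (S : Step d)

noncomputable def pull (μ : Measure ℝ) : Measure ℝ :=
  (d : ℝ≥0∞)⁻¹ • ∑ i, μ.map (S.x i)

theorem meas (i : Fin d) : Measurable (S.x i) := (S.cont i).measurable

theorem pull_apply (μ : Measure ℝ) {A : Set ℝ} (hA : MeasurableSet A) :
    S.pull μ A = (d : ℝ≥0∞)⁻¹ * ∑ i, μ (S.x i ⁻¹' A) := by
  simp only [pull, Measure.smul_apply, smul_eq_mul, Measure.coe_finsetSum, Finset.sum_apply]
  congr 1
  exact Finset.sum_congr rfl fun i _ => Measure.map_apply (S.meas i) hA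

theorem prob_pull (μ : Measure ℝ) [IsProbabilityMeasure μ] : IsProbabilityMeasure (S.pull μ) := by
  constructor
  rw [S.pull_apply μ MeasurableSet.univ]
  simp only [preimage_univ, measure_univ, Finset.sum_const, Finset.card_univ, Fintype.card_fin,
    nsmul_eq_mul, mul_one]
  exact ENNReal.inv_mul_cancel (by exact_mod_cast S.dpos.ne') (by simp)

theorem ae_pull {μ : Measure ℝ} {A : Set ℝ} (hA : MeasurableSet A)
    (h : ∀ᵐ y ∂μ, ∀ i, S.x i y ∈ A) : ∀ᵐ z ∂(S.pull μ), z ∈ A := by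
  change S.pull μ Aᶜ = 0
  rw [S.pull_apply μ hA.compl, Finset.sum_eq_zero, mul_zero]
  intro i _
  exact (h.mono fun y hy => hy i)

theorem good_pull {μ : Measure ℝ} (h : Good μ 1) {r : ℝ}
    (hr : ∀ y ∈ Icc (-1 : ℝ) 1, ∀ i, S.x i y ∈ Icc (-r) r) : Good (S.pull μ) r :=
  ⟨have := h.prob; S.prob_pull μ, S.ae_pull measurableSet_Icc (h.supp.mono hr)⟩

theorem integrable_pull {μ : Measure ℝ} {φ : ℝ → ℝ} (hφ : Measurable φ)
    (h : ∀ i, Integrable (fun y => φ (S.x i y)) μ) : Integrable φ (S.pull μ) := by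
  unfold pull
  refine Integrable.smul_measure ?_ (by simpa using S.dpos.ne')
  rw [integrable_finsetSum_measure]
  intro i _
  exact (integrable_map_measure hφ.aestronglyMeasurable (S.meas i).aemeasurable).mpr (h i)

theorem integrable_of_pull {μ : Measure ℝ} {φ : ℝ → ℝ} (hφ : Measurable φ)
    (h : Integrable φ (S.pull μ)) (i : Fin d) : Integrable (fun y => φ (S.x i y)) μ := by
  unfold pull at h
  rw [integrable_smul_measure (by simp) (by simpa using S.dpos.ne'),
    integrable_finsetSum_measure] at h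
  exact (integrable_map_measure hφ.aestronglyMeasurable (S.meas i).aemeasurable).mp
    (h i (Finset.mem_univ i))

theorem integral_pull {μ : Measure ℝ} {φ : ℝ → ℝ} (hφ : Measurable φ)
    (h : ∀ i, Integrable (fun y => φ (S.x i y)) μ) :
    ∫ z, φ z ∂(S.pull μ) = (d : ℝ)⁻¹ * ∫ y, ∑ i, φ (S.x i y) ∂μ := by
  unfold pull
  rw [integral_smul_measure, integral_finsetSum_measure, integral_finsetSum _ fun i _ => h i]
  · simp only [ENNReal.toReal_inv, ENNReal.toReal_natCast, smul_eq_mul]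
    congr 1
    exact Finset.sum_congr rfl fun i _ =>
      integral_map (S.meas i).aemeasurable hφ.aestronglyMeasurable
  · intro i _
    exact (integrable_map_measure hφ.aestronglyMeasurable (S.meas i).aemeasurable).mpr (h i)

theorem integral_pull_cont {μ : Measure ℝ} (h : Good μ 1) {φ : ℝ → ℝ} (hφ : Continuous φ) :
    ∫ z, φ z ∂(S.pull μ) = (d : ℝ)⁻¹ * ∫ y, ∑ i, φ (S.x i y) ∂μ :=
  S.integral_pull hφ.measurable fun i => h.integrable (hφ.comp (S.cont i))

/-- Transfer of a polynomial. -/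
theorem transfer (k : ℕ) : ∀ q : ℝ[X], q.degree < (d * k : ℕ) →
    ∃ ρ : ℝ[X], ρ.degree < k ∧ ∀ y ∈ Icc (-1 : ℝ) 1, ∑ i, q.eval (S.x i y) = ρ.eval y := by
  induction k with
  | zero =>
    intro q hq
    have : q = 0 := by
      rw [← degree_eq_bot]; exact Nat.WithBot.lt_zero_iff.mp (by simpa using hq)
    exact ⟨0, by simp, by simp [this]⟩
  | succ k ih =>
    intro q hq
    have hH : S.H.degree = d := by rw [degree_eq_natDegree S.monic.ne_zero, S.deg]
    have h1 : (q /ₘ S.H).degree < (d * k : ℕ) := by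
      by_cases h0 : q /ₘ S.H = 0
      · rw [h0]; exact WithBot.bot_lt_coe _
      · have hq0 : q ≠ 0 := by rintro rfl; simp at h0
        have e1 := natDegree_divByMonic q S.monic
        have e2 : q.natDegree < d * (k + 1) := (natDegree_lt_iff_degree_lt hq0).mpr hq
        have e3 : ¬ q.degree < S.H.degree := fun hh => h0 ((divByMonic_eq_zero_iff S.monic).mpr hh)
        rw [hH, ← natDegree_lt_iff_degree_lt hq0] at e3
        rw [← natDegree_lt_iff_degree_lt h0, e1, S.deg]
        rw [mul_add, mul_one] at e2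
        omega
    obtain ⟨ρ, hρ, hρe⟩ := ih _ h1
    obtain ⟨c, hc⟩ := S.base (q %ₘ S.H) (by rw [← hH]; exact degree_modByMonic_lt q S.monic)
    refine ⟨C c + C S.D * (X * ρ), ?_, fun y hy => ?_⟩
    · refine lt_of_le_of_lt (degree_add_le _ _) (max_lt ?_ ?_)
      · exact lt_of_le_of_lt degree_C_le (by exact_mod_cast Nat.succ_pos k)
      · rw [← smul_eq_C_mul]
        refine lt_of_le_of_lt (degree_smul_le _ _) ?_
        by_cases h0 : ρ = 0
        · rw [h0, mul_zero]; exact WithBot.bot_lt_coe _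
        · rw [← natDegree_lt_iff_degree_lt h0] at hρ
          rw [← natDegree_lt_iff_degree_lt (mul_ne_zero X_ne_zero h0), natDegree_X_mul h0]
          omega
    · have e : ∀ i, q.eval (S.x i y) = (q %ₘ S.H).eval (S.x i y)
          + S.D * y * (q /ₘ S.H).eval (S.x i y) := by
        intro i
        conv_lhs => rw [← modByMonic_add_div q S.H]
        rw [eval_add, eval_mul, S.evalH y hy]
      simp only [e, Finset.sum_add_distrib, ← Finset.mul_sum, hc y hy, hρe y hy, eval_add, eval_C,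
        eval_mul, eval_X]
      ring

/-- Lift of a polynomial of degree `k`. -/
noncomputable def lift (k : ℕ) (p : ℝ[X]) : ℝ[X] := C (S.D ^ k) * p.comp (C S.D⁻¹ * S.H)

theorem eval_lift (k : ℕ) (p : ℝ[X]) {y : ℝ} (hy : y ∈ Icc (-1 : ℝ) 1) (i : Fin d) :
    (S.lift k p).eval (S.x i y) = S.D ^ k * p.eval y := by
  simp only [lift, eval_mul, eval_C, eval_comp, S.evalH y hy]
  rw [← mul_assoc, inv_mul_cancel₀ S.hD, one_mul]

theorem natDegree_inner : (C S.D⁻¹ * S.H).natDegree = d := by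
  rw [natDegree_C_mul (inv_ne_zero S.hD), S.deg]

theorem monic_lift {k : ℕ} {p : ℝ[X]} (hp : p.Monic) (hk : p.natDegree = k) :
    (S.lift k p).Monic := by
  unfold lift Monic
  rw [leadingCoeff_mul, leadingCoeff_C,
    leadingCoeff_comp (by rw [S.natDegree_inner]; exact S.dpos.ne'), hp.leadingCoeff, hk,
    leadingCoeff_mul, leadingCoeff_C, S.monic.leadingCoeff, one_mul, mul_one, ← mul_pow,
    mul_inv_cancel₀ S.hD, one_pow]

theorem natDegree_lift {k : ℕ} {p : ℝ[X]} (hk : p.natDegree = k) :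
    (S.lift k p).natDegree = d * k := by
  unfold lift
  rw [natDegree_C_mul (pow_ne_zero _ S.hD), natDegree_comp, S.natDegree_inner, hk, mul_comm]

variable {μ : Measure ℝ} {r : ℝ}

/-- Moments of the pull-back against a lifted factor. -/
theorem mom_pull (h : Good μ 1) (h' : Good (S.pull μ) r) (q ρ : ℝ[X])
    (hq : ∀ y ∈ Icc (-1 : ℝ) 1, ∑ i, q.eval (S.x i y) = ρ.eval y) :
    mom (S.pull μ) q = (d : ℝ)⁻¹ * mom μ ρ := by
  rw [h'.mom_apply, h.mom_apply, S.integral_pull_cont h q.continuous, h.integral_congr hq]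

theorem mom_pull_lift (h : Good μ 1) (h' : Good (S.pull μ) r) (k l : ℕ) (p p' : ℝ[X]) :
    mom (S.pull μ) (S.lift k p * S.lift l p') = S.D ^ (k + l) * mom μ (p * p') := by
  rw [S.mom_pull h h' _ (C (d * S.D ^ (k + l)) * (p * p')), fnl_C_mul]
  · have : (d : ℝ) ≠ 0 := by exact_mod_cast S.dpos.ne'
    field_simp
  · intro y hy
    simp only [eval_mul, S.eval_lift _ _ hy, Finset.sum_const, Finset.card_univ, Fintype.card_fin,
      nsmul_eq_mul, eval_C]
    ring

theorem isOP_lift (h : Good μ 1) (h' : Good (S.pull μ) r) {k : ℕ} {p : ℝ[X]}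
    (hp : IsOP (mom μ) k p) : IsOP (mom (S.pull μ)) (d * k) (S.lift k p) := by
  refine ⟨S.monic_lift hp.1 hp.2.1, S.natDegree_lift hp.2.1, fun q hq => ?_⟩
  obtain ⟨ρ, hρ, hρe⟩ := S.transfer k q hq
  rw [S.mom_pull h h' _ (C (S.D ^ k) * (p * ρ)), fnl_C_mul, hp.2.2 ρ hρ, mul_zero, mul_zero]
  intro y hy
  simp only [eval_mul, S.eval_lift _ _ hy, ← Finset.mul_sum, hρe y hy, eval_C]
  ring

end Step

/-- `p ^ 2` times the measure has the same normalised moments up to order `m`. -/
def SameMom (L : Fnl) (p : ℝ[X]) (m : ℕ) : Prop :=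
  ∀ q : ℝ[X], q.degree < m → L (q * (p * p)) = L q * L (p * p)

theorem Good.sameMom_one {μ : Measure ℝ} {r : ℝ} (h : Good μ r) (p : ℝ[X]) :
    SameMom (mom μ) p 1 := by
  intro q hq
  rw [eq_C_of_degree_le_zero (p := q) (by
    rw [degree_le_iff_coeff_zero]; intro m hm
    exact coeff_eq_zero_of_degree_lt (lt_of_lt_of_le hq (by exact_mod_cast hm))),
    fnl_C_mul, h.mom_C]

theorem Step.sameMom_lift {d : ℕ} (S : Step d) {μ : Measure ℝ} {r : ℝ} (h : Good μ 1)
    (h' : Good (S.pull μ) r) {p : ℝ[X]} {m : ℕ} (k : ℕ) (hp : SameMom (mom μ) p m) :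
    SameMom (mom (S.pull μ)) (S.lift k p) (d * m) := by
  intro q hq
  obtain ⟨ρ, hρ, hρe⟩ := S.transfer m q hq
  rw [S.mom_pull_lift h h', S.mom_pull h h' q ρ hρe,
    S.mom_pull h h' _ (C (S.D ^ (k + k)) * (ρ * (p * p))), fnl_C_mul, hp ρ hρ]
  · ring
  · intro y hy
    simp only [eval_mul, S.eval_lift _ _ hy, ← Finset.sum_mul, hρe y hy, eval_C]
    ring

end Pool.Agent.Lib.MP_4d2d01_an
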